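import Mathlib

/-!
Exponential sums over primes of the fractions n/(p-1), and the degrees of the irreducible factors
of Bernoulli polynomials.  Definitions.
-/

namespace Pool.Agent.Helper98.Bern

/-- `e(t) = exp(2 π i t)`. -/
noncomputable def ee (t : ℝ) : ℂ := Complex.exp (2 * Real.pi * t * Complex.I)

/-- The phase `A / (x - 1)`. -/
noncomputable def ph (A : ℝ) (x : ℕ) : ℝ := A / ((x : ℝ) - 1)

lemma norm_ee (t : ℝ) : ‖ee t‖ = 1 := by
  unfold ee
  rw [Complex.norm_exp]
  simp

lemma ee_add (s t : ℝ) : ee (s + t) = ee s * ee t := by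
  unfold ee
  rw [← Complex.exp_add]
  congr 1
  push_cast
  ring

lemma ee_neg (t : ℝ) : ee (-t) = star (ee t) := by
  unfold ee
  rw [Complex.star_def, ← Complex.exp_conj]
  congr 1
  have h2 : (starRingEnd ℂ) 2 = 2 := Complex.conj_ofNat 2
  simp [h2]

lemma ee_sub (s t : ℝ) : ee (s - t) = ee s * star (ee t) := by
  rw [sub_eq_add_neg, ee_add, ee_neg]

lemma ee_int (k : ℤ) : ee k = 1 := by
  unfold ee
  rw [Complex.exp_eq_one_iff]
  exact ⟨k, by push_cast; ring⟩

lemma ee_add_int (t : ℝ) (k : ℤ) : ee (t + k) = ee t := by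
  rw [ee_add, ee_int, mul_one]

lemma ee_nat_mul (t : ℝ) (n : ℕ) : ee (n * t) = ee t ^ n := by
  unfold ee
  rw [← Complex.exp_nat_mul]
  congr 1
  push_cast
  ring

end Pool.Agent.Helper98.Bern
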