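import Mathlib
import Pool.Agent.Helper98.Bern.Defs

/-!
Chebyshev bounds on the interval `(P, 4P]`.
-/

namespace Pool.Agent.Helper98.Bern

open Finset Chebyshev

lemma CH_num (P : ℕ) (hP : 100 ^ 4 ≤ P) :
    (1 : ℝ) * P ≤ (4 * P : ℕ) * Real.log 2 - Real.log ((4 * P : ℕ) + 1)
      - 2 * √((4 * P : ℕ) : ℝ) * Real.log ((4 * P : ℕ) : ℝ) - Real.log 4 * P := by
  have hP' : ((100 : ℝ)) ^ 4 ≤ P := by exact_mod_cast hP
  have hP0 : (0 : ℝ) < P := lt_of_lt_of_le (by norm_num) hP'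
  set y : ℝ := (P : ℝ) ^ (1 / 4 : ℝ) with hy
  have hy0 : 0 < y := Real.rpow_pos_of_pos hP0 _
  have hy4 : y ^ 4 = P := by
    rw [hy, ← Real.rpow_natCast, ← Real.rpow_mul hP0.le]
    norm_num
  have hy100 : 100 ≤ y := by
    by_contra h
    push Not at h
    have : y ^ 4 < 100 ^ 4 := pow_lt_pow_left₀ h hy0.le (by norm_num)
    rw [hy4] at this
    linarith
  have hsq : √((4 * P : ℕ) : ℝ) = 2 * y ^ 2 := by
    rw [show (((4 * P : ℕ)) : ℝ) = (2 * y ^ 2) ^ 2 by push_cast; rw [← hy4]; ring]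
    exact Real.sqrt_sq (by positivity)
  have h16 : ((16 : ℝ) * P) ^ (1 / 4 : ℝ) = 2 * y := by
    rw [show (16 : ℝ) * P = (2 * y) ^ 4 by rw [← hy4]; ring, ← Real.rpow_natCast,
      ← Real.rpow_mul (by positivity)]
    norm_num
  have hlog16 : Real.log (16 * P) ≤ 8 * y := by
    have h := Real.log_le_rpow_div (x := 16 * (P : ℝ)) (by positivity) (ε := 1 / 4) (by norm_num)
    rw [h16] at h
    linarith
  have hl1 : Real.log ((4 * P : ℕ) : ℝ) ≤ 8 * y := by
    refine le_trans (Real.log_le_log (by push_cast; positivity) ?_) hlog16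
    push_cast
    linarith
  have hl2 : Real.log (((4 * P : ℕ) : ℝ) + 1) ≤ 8 * y := by
    refine le_trans (Real.log_le_log (by push_cast; positivity) ?_) hlog16
    push_cast
    have : (1 : ℝ) ≤ P := by linarith
    linarith
  have h2 : 0.69 < Real.log 2 := by
    have := Real.log_two_gt_d9
    linarith
  have h4 : Real.log 4 = 2 * Real.log 2 := by
    rw [show (4 : ℝ) = 2 ^ 2 by norm_num, Real.log_pow]
    norm_num
  rw [hsq, h4]
  have e1 : 2 * (2 * y ^ 2) * Real.log ((4 * P : ℕ) : ℝ) ≤ 2 * (2 * y ^ 2) * (8 * y) :=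
    mul_le_mul_of_nonneg_left hl1 (by positivity)
  have e2 : (((4 * P : ℕ)) : ℝ) * Real.log 2 - 2 * Real.log 2 * P = 2 * Real.log 2 * P := by
    push_cast
    ring
  have e3 : 1.38 * (P : ℝ) ≤ 2 * Real.log 2 * P := by nlinarith
  have e4 : 32 * y ^ 3 + 8 * y ≤ 0.38 * (P : ℝ) := by
    rw [← hy4]
    have h5 : 100 * y ^ 3 ≤ y ^ 4 := by
      have : 0 < y ^ 3 := by positivity
      nlinarith
    have h6 : y ≤ y ^ 3 := by
      have : 1 ≤ y ^ 2 := by nlinarith
      nlinarith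
    nlinarith [pow_pos hy0 3]
  nlinarith

theorem theta_interval : ∃ c : ℝ, 0 < c ∧ ∃ P0 : ℕ, ∀ P : ℕ, P0 ≤ P →
    c * P ≤ ∑ q ∈ (Ioc P (4 * P)).filter Nat.Prime, Real.log q ∧
    ∀ z : ℕ → ℂ, (∀ q, ‖z q‖ ≤ 1) →
      ‖∑ q ∈ (Ioc P (4 * P)).filter Nat.Prime, ((Real.log q : ℝ) : ℂ) * z q -
        ∑ q ∈ Ioc P (4 * P), ((ArithmeticFunction.vonMangoldt q : ℝ) : ℂ) * z q‖ ≤
          (P : ℝ) ^ (3 / 4 : ℝ) := by
  obtain ⟨C, hC⟩ := psi_sub_theta_le_mul_sqrt
  obtain ⟨N, hN⟩ := exists_nat_ge ((2 * |C|) ^ 4)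
  refine ⟨1, one_pos, max (100 ^ 4) N, fun P hP => ⟨?_, ?_⟩⟩
  · have h1 := theta_ge (4 * P)
    have h2 := theta_le_log4_mul_x (x := (P : ℝ)) (Nat.cast_nonneg P)
    have h3 := CH_num P (le_trans (le_max_left _ _) hP)
    have h4 : θ ((4 * P : ℕ) : ℝ) - θ (P : ℝ) =
        ∑ q ∈ (Ioc P (4 * P)).filter Nat.Prime, Real.log q := by
      unfold theta
      rw [Nat.floor_natCast, Nat.floor_natCast]
      have h5 : (Ioc 0 (4 * P)).filter Nat.Prime =
          (Ioc 0 P).filter Nat.Prime ∪ (Ioc P (4 * P)).filter Nat.Prime := by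
        rw [← Finset.filter_union, Finset.Ioc_union_Ioc_eq_Ioc (by omega) (by omega)]
      rw [h5, Finset.sum_union]
      · ring
      · apply Finset.disjoint_filter_filter
        rw [Finset.disjoint_left]
        intro a ha hb
        rw [Finset.mem_Ioc] at ha hb
        omega
    rw [← h4]
    linarith
  · intro z hz
    have h1 : ∑ q ∈ (Ioc P (4 * P)).filter Nat.Prime, ((Real.log q : ℝ) : ℂ) * z q -
        ∑ q ∈ Ioc P (4 * P), ((ArithmeticFunction.vonMangoldt q : ℝ) : ℂ) * z q =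
        - ∑ q ∈ (Ioc P (4 * P)).filter (fun q => ¬ Nat.Prime q),
          ((ArithmeticFunction.vonMangoldt q : ℝ) : ℂ) * z q := by
      rw [← Finset.sum_filter_add_sum_filter_not (Ioc P (4 * P)) Nat.Prime
        (fun q => ((ArithmeticFunction.vonMangoldt q : ℝ) : ℂ) * z q)]
      have h2 : ∑ q ∈ (Ioc P (4 * P)).filter Nat.Prime, ((Real.log q : ℝ) : ℂ) * z q =
          ∑ q ∈ (Ioc P (4 * P)).filter Nat.Prime,
            ((ArithmeticFunction.vonMangoldt q : ℝ) : ℂ) * z q := by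
        refine Finset.sum_congr rfl fun q hq => ?_
        rw [ArithmeticFunction.vonMangoldt_apply_prime (Finset.mem_filter.mp hq).2]
      rw [h2]
      ring
    rw [h1, norm_neg]
    have h3 : ∑ q ∈ (Ioc P (4 * P)).filter (fun q => ¬ Nat.Prime q),
        ArithmeticFunction.vonMangoldt q ≤ C * √((4 * P : ℕ) : ℝ) := by
      refine le_trans ?_ (hC ((4 * P : ℕ) : ℝ))
      rw [psi_sub_theta_eq_sum_not_prime, Nat.floor_natCast]
      refine Finset.sum_le_sum_of_subset_of_nonneg ?_ (fun q _ _ =>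
        ArithmeticFunction.vonMangoldt_nonneg)
      intro q hq
      rw [Finset.mem_filter, Finset.mem_Ioc] at hq ⊢
      exact ⟨⟨by omega, hq.1.2⟩, hq.2⟩
    have hN' : (2 * |C|) ^ 4 ≤ (P : ℝ) := by
      refine hN.trans ?_
      exact_mod_cast le_trans (le_max_right _ _) hP
    calc ‖∑ q ∈ (Ioc P (4 * P)).filter (fun q => ¬ Nat.Prime q),
          ((ArithmeticFunction.vonMangoldt q : ℝ) : ℂ) * z q‖
        ≤ ∑ q ∈ (Ioc P (4 * P)).filter (fun q => ¬ Nat.Prime q),
          ‖((ArithmeticFunction.vonMangoldt q : ℝ) : ℂ) * z q‖ := norm_sum_le _ _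
      _ ≤ ∑ q ∈ (Ioc P (4 * P)).filter (fun q => ¬ Nat.Prime q),
          ArithmeticFunction.vonMangoldt q := by
          refine Finset.sum_le_sum fun q _ => ?_
          rw [norm_mul, Complex.norm_real, Real.norm_of_nonneg
            ArithmeticFunction.vonMangoldt_nonneg]
          exact mul_le_of_le_one_right ArithmeticFunction.vonMangoldt_nonneg (hz q)
      _ ≤ C * √((4 * P : ℕ) : ℝ) := h3
      _ ≤ |C| * √((4 * P : ℕ) : ℝ) :=
          mul_le_mul_of_nonneg_right (le_abs_self C) (Real.sqrt_nonneg _)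
      _ = (2 * |C|) * √(P : ℝ) := by
          push_cast
          rw [Real.sqrt_mul (by norm_num : (0 : ℝ) ≤ 4),
            show (4 : ℝ) = 2 ^ 2 by norm_num, Real.sqrt_sq (by norm_num : (0 : ℝ) ≤ 2)]
          ring
      _ ≤ (P : ℝ) ^ (1 / 4 : ℝ) * √(P : ℝ) := by
          refine mul_le_mul_of_nonneg_right ?_ (Real.sqrt_nonneg _)
          have h6 := Real.rpow_le_rpow (by positivity) hN' (by norm_num : (0 : ℝ) ≤ 1 / 4)
          rw [← Real.rpow_natCast, ← Real.rpow_mul (by positivity)] at h6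
          norm_num at h6
          exact h6
      _ = (P : ℝ) ^ (3 / 4 : ℝ) := by
          rw [Real.sqrt_eq_rpow]
          have hP0 : (0 : ℝ) < P := by
            have : 100 ^ 4 ≤ P := le_trans (le_max_left _ _) hP
            have : 0 < P := by omega
            exact_mod_cast this
          rw [← Real.rpow_add hP0]
          norm_num

end Pool.Agent.Helper98.Bern
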