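import Mathlib
import Pool.Agent.Helper98.Bern.Defs

/-!
The identity of Vaughan.
-/

set_option autoImplicit false

namespace Pool.Agent.Helper98.Bern

open Finset

/-- sums of convolutions -/
lemma vi_conv (f g : ArithmeticFunction ℝ) (F : ℕ → ℂ) (P : ℕ) (D : Finset ℕ)
    (hf : ∀ d, 1 ≤ d → d ≤ 4 * P → f d ≠ 0 → d ∈ D) :
    ∑ q ∈ Ioc P (4 * P), (((f * g) q : ℝ) : ℂ) * F q =
      ∑ d ∈ D, ((f d : ℝ) : ℂ) *
        ∑ m ∈ (Icc 1 (4 * P)).filter (fun m => P < d * m ∧ d * m ≤ 4 * P), ((g m : ℝ) : ℂ) * F (d * m) := by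
  classical
  have h1 : ∀ q ∈ Ioc P (4 * P), (((f * g) q : ℝ) : ℂ) * F q =
      ∑ p ∈ ((D ×ˢ Icc 1 (4 * P)).filter fun p => p.1 * p.2 ∈ Ioc P (4 * P)).filter fun p => p.1 * p.2 = q,
        ((f p.1 : ℝ) : ℂ) * (((g p.2 : ℝ) : ℂ) * F (p.1 * p.2)) := by
    intro q hq
    rw [mem_Ioc] at hq
    rw [ArithmeticFunction.mul_apply, Complex.ofReal_sum, Finset.sum_mul]
    symm
    have hsub : (((D ×ˢ Icc 1 (4 * P)).filter fun p => p.1 * p.2 ∈ Ioc P (4 * P)).filter
        fun p => p.1 * p.2 = q) ⊆ q.divisorsAntidiagonal := by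
      intro p hp
      rw [mem_filter] at hp
      rw [Nat.mem_divisorsAntidiagonal]
      exact ⟨hp.2, by omega⟩
    rw [← Finset.sum_subset hsub (f := fun p : ℕ × ℕ => ((f p.1 * g p.2 : ℝ) : ℂ) * F q)]
    · refine Finset.sum_congr rfl fun p hp => ?_
      rw [mem_filter] at hp
      rw [hp.2]
      push_cast
      ring
    · intro p hp hp'
      rw [Nat.mem_divisorsAntidiagonal] at hp
      have hne : p.1 * p.2 ≠ 0 := by
        rw [hp.1]
        exact hp.2
      have hp1 : 1 ≤ p.1 := Nat.one_le_iff_ne_zero.2 (left_ne_zero_of_mul hne)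
      have hp2 : 1 ≤ p.2 := Nat.one_le_iff_ne_zero.2 (right_ne_zero_of_mul hne)
      have hle1 : p.1 ≤ q := by
        rw [← hp.1]
        exact Nat.le_mul_of_pos_right _ hp2
      have hle2 : p.2 ≤ q := by
        rw [← hp.1]
        exact Nat.le_mul_of_pos_left _ hp1
      have hz : f p.1 = 0 := by
        by_contra hz
        apply hp'
        rw [mem_filter, mem_filter, mem_product, mem_Icc, mem_Ioc]
        exact ⟨⟨⟨hf p.1 hp1 (by omega) hz, hp2, by omega⟩, by omega⟩, hp.1⟩
      rw [hz, zero_mul, Complex.ofReal_zero, zero_mul]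
  rw [Finset.sum_congr rfl h1]
  rw [Finset.sum_fiberwise_of_maps_to (s := (D ×ˢ Icc 1 (4 * P)).filter fun p => p.1 * p.2 ∈ Ioc P (4 * P))
    (t := Ioc P (4 * P)) (g := fun p : ℕ × ℕ => p.1 * p.2) (fun p hp => (mem_filter.1 hp).2)
    (fun p : ℕ × ℕ => ((f p.1 : ℝ) : ℂ) * (((g p.2 : ℝ) : ℂ) * F (p.1 * p.2)))]
  rw [Finset.sum_filter, Finset.sum_product]
  refine Finset.sum_congr rfl fun d _ => ?_
  rw [Finset.mul_sum, Finset.sum_filter]
  refine Finset.sum_congr rfl fun m _ => ?_
  simp only [mem_Ioc]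

/-- truncation of an arithmetic function to small arguments -/
noncomputable def viLow (f : ArithmeticFunction ℝ) (U : ℕ) : ArithmeticFunction ℝ :=
  ⟨fun n => if n ≤ U then f n else 0, by simp⟩

/-- truncation of an arithmetic function to large arguments -/
noncomputable def viHigh (f : ArithmeticFunction ℝ) (U : ℕ) : ArithmeticFunction ℝ :=
  ⟨fun n => if n ≤ U then 0 else f n, by simp⟩

lemma viLow_apply (f : ArithmeticFunction ℝ) (U n : ℕ) : viLow f U n = if n ≤ U then f n else 0 := rfl

lemma viHigh_apply (f : ArithmeticFunction ℝ) (U n : ℕ) : viHigh f U n = if n ≤ U then 0 else f n := rfl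

lemma vi_split (f : ArithmeticFunction ℝ) (U : ℕ) : viLow f U + viHigh f U = f := by
  ext n
  rw [ArithmeticFunction.add_apply, viLow_apply, viHigh_apply]
  split_ifs <;> simp

/-- the identity of Vaughan for arithmetic functions -/
lemma vi_id (U V : ℕ) : viHigh ArithmeticFunction.vonMangoldt V =
    viLow ((ArithmeticFunction.moebius : ArithmeticFunction ℤ) : ArithmeticFunction ℝ) U * ArithmeticFunction.log
    - (viLow ((ArithmeticFunction.moebius : ArithmeticFunction ℤ) : ArithmeticFunction ℝ) U *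
        viLow ArithmeticFunction.vonMangoldt V) * (ArithmeticFunction.zeta : ArithmeticFunction ℝ)
    + viHigh ((ArithmeticFunction.moebius : ArithmeticFunction ℤ) : ArithmeticFunction ℝ) U *
      (viHigh ArithmeticFunction.vonMangoldt V * (ArithmeticFunction.zeta : ArithmeticFunction ℝ)) := by
  set M : ArithmeticFunction ℝ := ((ArithmeticFunction.moebius : ArithmeticFunction ℤ) : ArithmeticFunction ℝ)
  set Z : ArithmeticFunction ℝ := (ArithmeticFunction.zeta : ArithmeticFunction ℝ)
  set L : ArithmeticFunction ℝ := ArithmeticFunction.vonMangoldt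
  have hMZ : M * Z = 1 := ArithmeticFunction.coe_moebius_mul_coe_zeta
  have hLZ : L * Z = ArithmeticFunction.log := ArithmeticFunction.vonMangoldt_mul_zeta
  have hM : viLow M U + viHigh M U = M := vi_split M U
  have hL : viLow L V + viHigh L V = L := vi_split L V
  rw [← hLZ]
  calc viHigh L V = (M * Z) * viHigh L V := by rw [hMZ, one_mul]
    _ = ((viLow M U + viHigh M U) * Z) * viHigh L V := by rw [hM]
    _ = viLow M U * (viHigh L V * Z) + viHigh M U * (viHigh L V * Z) := by ring
    _ = viLow M U * ((L - viLow L V) * Z) + viHigh M U * (viHigh L V * Z) := by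
      rw [eq_sub_of_add_eq' hL]
    _ = viLow M U * (L * Z) - (viLow M U * viLow L V) * Z + viHigh M U * (viHigh L V * Z) := by ring

/-- the identity of Vaughan -/
theorem vaughan (U V P : ℕ) (hU : 1 ≤ U) (hV : V ≤ P) :
    ∃ (c b : ℕ → ℝ), (∀ d, |c d| ≤ Real.log d) ∧ (∀ m, |b m| ≤ Real.log m) ∧
    ∀ F : ℕ → ℂ,
      ∑ q ∈ Ioc P (4 * P), ((ArithmeticFunction.vonMangoldt q : ℝ) : ℂ) * F q =
        ∑ d ∈ Icc 1 U, ((ArithmeticFunction.moebius d : ℤ) : ℂ) *
          ∑ m ∈ (Icc 1 (4 * P)).filter (fun m => P < d * m ∧ d * m ≤ 4 * P),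
            ((Real.log m : ℝ) : ℂ) * F (d * m)
        - ∑ d ∈ Icc 1 (U * V), ((c d : ℝ) : ℂ) *
          ∑ m ∈ (Icc 1 (4 * P)).filter (fun m => P < d * m ∧ d * m ≤ 4 * P), F (d * m)
        + ∑ k ∈ Ioc U (4 * P),
          ∑ m ∈ (Ioc V (4 * P)).filter (fun m => P < k * m ∧ k * m ≤ 4 * P),
            ((ArithmeticFunction.moebius k : ℤ) : ℂ) * ((b m : ℝ) : ℂ) * F (k * m) := by
  classical
  set M : ArithmeticFunction ℝ := ((ArithmeticFunction.moebius : ArithmeticFunction ℤ) : ArithmeticFunction ℝ)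
    with hMdef
  set Z : ArithmeticFunction ℝ := (ArithmeticFunction.zeta : ArithmeticFunction ℝ) with hZdef
  set L : ArithmeticFunction ℝ := ArithmeticFunction.vonMangoldt with hLdef
  have hMap : ∀ n, M n = ((ArithmeticFunction.moebius n : ℤ) : ℝ) := fun n => rfl
  have hMabs : ∀ n, |M n| ≤ 1 := by
    intro n
    rw [hMap]
    have h := ArithmeticFunction.abs_moebius_le_one (n := n)
    exact_mod_cast h
  have hLnn : ∀ n, 0 ≤ L n := fun n => ArithmeticFunction.vonMangoldt_nonneg
  have hb : ∀ m, |(viHigh L V * Z) m| ≤ Real.log m := by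
    intro m
    rw [hZdef, ArithmeticFunction.coe_mul_zeta_apply]
    have hnn : ∀ i ∈ m.divisors, 0 ≤ viHigh L V i := by
      intro i _
      rw [viHigh_apply]
      split_ifs
      · exact le_refl _
      · exact hLnn i
    rw [abs_of_nonneg (Finset.sum_nonneg hnn), ← ArithmeticFunction.vonMangoldt_sum]
    refine Finset.sum_le_sum fun i _ => ?_
    rw [viHigh_apply]
    split_ifs
    · exact hLnn i
    · exact le_refl _
  have hb0 : ∀ m, m ≤ V → (viHigh L V * Z) m = 0 := by
    intro m hm
    rw [hZdef, ArithmeticFunction.coe_mul_zeta_apply]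
    refine Finset.sum_eq_zero fun i hi => ?_
    rw [viHigh_apply, if_pos ((Nat.divisor_le hi).trans hm)]
  have hc : ∀ d, |(viLow M U * viLow L V) d| ≤ Real.log d := by
    intro d
    rw [ArithmeticFunction.mul_apply]
    calc |∑ x ∈ d.divisorsAntidiagonal, viLow M U x.1 * viLow L V x.2|
        ≤ ∑ x ∈ d.divisorsAntidiagonal, |viLow M U x.1 * viLow L V x.2| := Finset.abs_sum_le_sum_abs _ _
      _ ≤ ∑ x ∈ d.divisorsAntidiagonal, L x.2 := by
        refine Finset.sum_le_sum fun x _ => ?_
        rw [abs_mul]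
        have h1 : |viLow M U x.1| ≤ 1 := by
          rw [viLow_apply]
          split_ifs
          · exact hMabs _
          · simp
        have h2 : |viLow L V x.2| ≤ L x.2 := by
          rw [viLow_apply]
          split_ifs
          · rw [abs_of_nonneg (hLnn _)]
          · rw [abs_zero]
            exact hLnn _
        calc |viLow M U x.1| * |viLow L V x.2| ≤ 1 * L x.2 :=
              mul_le_mul h1 h2 (abs_nonneg _) zero_le_one
          _ = L x.2 := one_mul _
      _ = ∑ i ∈ d.divisors, L i := by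
        rw [← Nat.map_div_left_divisors, Finset.sum_map]
        rfl
      _ = Real.log d := ArithmeticFunction.vonMangoldt_sum
  have hc0 : ∀ d, (viLow M U * viLow L V) d ≠ 0 → d ≤ U * V := by
    intro d hd
    rw [ArithmeticFunction.mul_apply] at hd
    obtain ⟨x, hx, hx'⟩ := Finset.exists_ne_zero_of_sum_ne_zero hd
    rw [Nat.mem_divisorsAntidiagonal] at hx
    have h1 : x.1 ≤ U := by
      by_contra h
      rw [viLow_apply, if_neg h, zero_mul] at hx'
      exact hx' rfl
    have h2 : x.2 ≤ V := by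
      by_contra h
      rw [viLow_apply L, if_neg h, mul_zero] at hx'
      exact hx' rfl
    rw [← hx.1]
    exact Nat.mul_le_mul h1 h2
  refine ⟨fun d => (viLow M U * viLow L V) d, fun m => (viHigh L V * Z) m, hc, hb, fun F => ?_⟩
  have hid := vi_id U V
  have e0 : ∀ q ∈ Ioc P (4 * P), ((L q : ℝ) : ℂ) * F q =
      (((viLow M U * ArithmeticFunction.log) q : ℝ) : ℂ) * F q
      - (((viLow M U * viLow L V * Z) q : ℝ) : ℂ) * F q
      + (((viHigh M U * (viHigh L V * Z)) q : ℝ) : ℂ) * F q := by
    intro q hq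
    rw [mem_Ioc] at hq
    have h1 : L q = (viLow M U * ArithmeticFunction.log) q - (viLow M U * viLow L V * Z) q
        + (viHigh M U * (viHigh L V * Z)) q := by
      have h2 : L q = viHigh L V q := by
        rw [viHigh_apply, if_neg (by omega)]
      have h3 := congrArg (fun f : ArithmeticFunction ℝ => f q) hid
      simp only [sub_eq_add_neg, ArithmeticFunction.add_apply, ArithmeticFunction.neg_apply] at h3
      rw [h2, h3]
      rfl
    rw [h1]
    push_cast
    ring
  rw [Finset.sum_congr rfl e0, Finset.sum_add_distrib, Finset.sum_sub_distrib]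
  congr 1
  · congr 1
    · rw [vi_conv (viLow M U) ArithmeticFunction.log F P (Icc 1 U)]
      · refine Finset.sum_congr rfl fun d hd => ?_
        rw [mem_Icc] at hd
        rw [viLow_apply, if_pos hd.2, hMap, Complex.ofReal_intCast]
        rfl
      · intro d hd1 _ hd3
        rw [mem_Icc]
        refine ⟨hd1, ?_⟩
        by_contra h
        rw [viLow_apply, if_neg h] at hd3
        exact hd3 rfl
    · rw [vi_conv (viLow M U * viLow L V) Z F P (Icc 1 (U * V))]
      · refine Finset.sum_congr rfl fun d hd => ?_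
        congr 1
        refine Finset.sum_congr rfl fun m hm => ?_
        rw [mem_filter, mem_Icc] at hm
        have : Z m = 1 := by
          rw [hZdef, ArithmeticFunction.natCoe_apply, ArithmeticFunction.zeta_apply_ne (by omega), Nat.cast_one]
        rw [this, Complex.ofReal_one, one_mul]
      · intro d hd1 _ hd3
        rw [mem_Icc]
        exact ⟨hd1, hc0 d hd3⟩
  · rw [vi_conv (viHigh M U) (viHigh L V * Z) F P (Ioc U (4 * P))]
    · refine Finset.sum_congr rfl fun d hd => ?_
      rw [mem_Ioc] at hd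
      rw [viHigh_apply, if_neg (by omega), hMap, Finset.mul_sum]
      symm
      refine Finset.sum_subset_zero_on_sdiff ?_ ?_ ?_
      · intro m hm
        rw [mem_filter, mem_Ioc] at hm
        rw [mem_filter, mem_Icc]
        exact ⟨⟨by omega, by omega⟩, hm.2⟩
      · intro m hm
        rw [mem_sdiff, mem_filter, mem_filter, mem_Icc, mem_Ioc] at hm
        have hmV : m ≤ V := by
          by_contra h
          exact hm.2 ⟨⟨by omega, hm.1.1.2⟩, hm.1.2⟩
        rw [hb0 m hmV]
        simp
      · intro m _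
        push_cast
        ring
    · intro d hd1 hd2 hd3
      rw [mem_Ioc]
      refine ⟨?_, hd2⟩
      by_contra h
      rw [viHigh_apply, if_pos (by omega)] at hd3
      exact hd3 rfl

end Pool.Agent.Helper98.Bern
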