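import Mathlib
import Pool.Agent.Helper98.Bern.Defs
import Pool.Agent.Helper29.BernMain

/-!
If `p` is an odd prime and `n = m (p-1) + e` with `e < m < p`, then `B_n` has an irreducible factor
of degree at least `n - e p`.
-/

namespace Pool.Agent.Helper98.Bern

open Finset Polynomial

open Pool.Agent.Helper29 (PI monic_bernoulli natDegree_bernoulli exists_primitive)

lemma PI_bernoulli_mul {p : ℕ} (hp : p.Prime) (hp3 : 3 ≤ p) (k : ℕ) :
    PI p ((p : ℚ) * _root_.bernoulli k) := by
  rcases Nat.even_or_odd k with ⟨j, hj⟩ | hodd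
  · have : k = 2 * j := by omega
    rw [this]
    exact PI.bernoulli hp j
  · rcases Nat.lt_or_ge 1 k with h1 | h1
    · rw [bernoulli_eq_zero_of_odd hodd h1, mul_zero]
      simpa using PI.int hp 0
    · have : k = 1 := by
        rcases hodd with ⟨j, hj⟩
        omega
      subst this
      refine ⟨2, -(p : ℤ), ?_, ?_⟩
      · intro h
        have := Int.le_of_dvd (by norm_num) h
        omega
      · rw [_root_.bernoulli_one]
        push_cast
        ring

lemma PI_one_div {p q : ℕ} (hp : p.Prime) (hq : q.Prime) (hne : q ≠ p) : PI p ((1 : ℚ) / q) := by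
  refine ⟨q, 1, ?_, ?_⟩
  · intro h
    have : p ∣ q := by exact_mod_cast h
    exact hne ((Nat.prime_dvd_prime_iff_eq hp hq).mp this).symm
  · have : (q : ℚ) ≠ 0 := by exact_mod_cast hq.ne_zero
    push_cast
    field_simp

lemma PI_bernoulli {p : ℕ} (hp : p.Prime) (hp3 : 3 ≤ p) (k : ℕ) (hk : k = 0 ∨ ¬ (p - 1) ∣ k) :
    PI p (_root_.bernoulli k) := by
  rcases hk with rfl | hk
  · rw [_root_.bernoulli_zero]
    simpa using PI.int hp 1
  rcases Nat.even_or_odd k with ⟨j, hj⟩ | hodd
  · have hkj : k = 2 * j := by omega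
    subst hkj
    obtain ⟨z, hz⟩ := Bernoulli.vonStaudt_clausen j
    have h1 : _root_.bernoulli (2 * j) = (z : ℚ) +
        -(∑ q ∈ range (2 * j + 2) with q.Prime ∧ (q - 1) ∣ 2 * j, ((1 : ℚ) / q)) := by
      linear_combination -hz
    rw [h1]
    apply PI.add hp (PI.int hp z)
    apply PI.neg hp
    apply PI.sum hp
    intro q hq
    rw [Finset.mem_filter] at hq
    apply PI_one_div hp hq.2.1
    rintro rfl
    exact hk hq.2.2
  · rcases Nat.lt_or_ge 1 k with h1 | h1
    · rw [bernoulli_eq_zero_of_odd hodd h1]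
      simpa using PI.int hp 0
    · have : k = 1 := by
        rcases hodd with ⟨j, hj⟩
        omega
      subst this
      refine ⟨2, -1, ?_, ?_⟩
      · intro h
        have := Int.le_of_dvd (by norm_num) h
        omega
      · rw [_root_.bernoulli_one]
        push_cast
        ring

lemma not_PI_one_div {p : ℕ} (hp : p.Prime) : ¬ PI p ((1 : ℚ) / p) := by
  rintro ⟨d, z, hd, h⟩
  have hp0 : (p : ℚ) ≠ 0 := by exact_mod_cast hp.ne_zero
  have h1 : (d : ℚ) = z * p := by
    rw [← h]
    field_simp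
  apply hd
  exact ⟨z, by
    have : d = z * (p : ℤ) := by exact_mod_cast h1
    rw [this]; ring⟩

lemma not_PI_bernoulli {p : ℕ} (hp : p.Prime) (hp3 : 3 ≤ p) (k : ℕ) (hk0 : 0 < k)
    (hk : (p - 1) ∣ k) : ¬ PI p (_root_.bernoulli k) := by
  intro hPI
  have hpe : Even (p - 1) := by
    rcases hp.eq_two_or_odd' with h | h
    · omega
    · obtain ⟨t, ht⟩ := h
      exact ⟨t, by omega⟩
  obtain ⟨j, hj⟩ := (hpe.trans_dvd hk : Even k)
  have hkj : k = 2 * j := by omega
  subst hkj
  obtain ⟨z, hz⟩ := Bernoulli.vonStaudt_clausen j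
  have hmem : p ∈ (range (2 * j + 2)).filter (fun q => q.Prime ∧ (q - 1) ∣ 2 * j) := by
    rw [Finset.mem_filter, Finset.mem_range]
    refine ⟨?_, hp, hk⟩
    have := Nat.le_of_dvd hk0 hk
    omega
  rw [← Finset.add_sum_erase _ _ hmem] at hz
  apply not_PI_one_div hp
  have h1 : (1 : ℚ) / p = (z : ℚ) + (-(_root_.bernoulli (2 * j)) +
      -(∑ q ∈ ((range (2 * j + 2)).filter (fun q => q.Prime ∧ (q - 1) ∣ 2 * j)).erase p,
        ((1 : ℚ) / q))) := by
    linear_combination -hz
  rw [h1]
  apply PI.add hp (PI.int hp z)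
  apply PI.add hp (PI.neg hp hPI)
  apply PI.neg hp
  apply PI.sum hp
  intro q hq
  rw [Finset.mem_erase, Finset.mem_filter] at hq
  exact PI_one_div hp hq.2.2.1 hq.1

/-- Lucas for the pair `n = m (p-1) + e`, `k = j (p-1)`. -/
lemma choose_lucas {p m e j : ℕ} (hp : p.Prime) (hem : e < m) (hmp : m < p) (hj : 1 ≤ j)
    (hjm : j ≤ m) :
    (m * (p - 1) + e).choose (j * (p - 1)) ≡
      (p - (m - e)).choose (p - j) * (m - 1).choose (j - 1) [MOD p] := by
  have := Fact.mk hp
  have h := Choose.choose_modEq_choose_mod_mul_choose_div_nat (n := m * (p - 1) + e)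
    (k := j * (p - 1)) (p := p)
  have hp1 : 1 ≤ p := hp.one_lt.le
  have e1 : m * (p - 1) + e = (m - 1) * p + (p - (m - e)) := by
    zify [hp1, (by omega : 1 ≤ m), (by omega : m - e ≤ p), hem.le]
    ring
  have e2 : j * (p - 1) = (j - 1) * p + (p - j) := by
    zify [hp1, hj, (by omega : j ≤ p)]
    ring
  have m1 : (m * (p - 1) + e) % p = p - (m - e) := by
    rw [e1, add_comm, Nat.add_mul_mod_self_right, Nat.mod_eq_of_lt (by omega)]
  have m2 : (j * (p - 1)) % p = p - j := by
    rw [e2, add_comm, Nat.add_mul_mod_self_right, Nat.mod_eq_of_lt (by omega)]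
  have d1 : (m * (p - 1) + e) / p = m - 1 := by
    rw [e1, add_comm, Nat.add_mul_div_right _ _ hp.pos, Nat.div_eq_of_lt (by omega), zero_add]
  have d2 : (j * (p - 1)) / p = j - 1 := by
    rw [e2, add_comm, Nat.add_mul_div_right _ _ hp.pos, Nat.div_eq_of_lt (by omega), zero_add]
  rw [m1, m2, d1, d2] at h
  exact h

lemma coeff_facts (n p m e : ℕ) (hp : p.Prime) (hp3 : 3 ≤ p) (hn : n = m * (p - 1) + e)
    (hem : e < m) (hmp : m < p) :
    (∀ i, PI p ((p : ℚ) * (Polynomial.bernoulli n).coeff i)) ∧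
    (∀ i, e * p < i → PI p ((Polynomial.bernoulli n).coeff i)) ∧
    ¬ PI p ((Polynomial.bernoulli n).coeff (e * p)) := by
  refine ⟨?_, ?_, ?_⟩
  · intro i
    rw [Polynomial.coeff_bernoulli]
    split_ifs with h
    · rw [← mul_assoc]
      exact PI.mul hp (PI_bernoulli_mul hp hp3 _) (PI.nat hp _)
    · rw [mul_zero]
      simpa using PI.int hp 0
  · intro i hi
    rw [Polynomial.coeff_bernoulli]
    split_ifs with h
    · by_cases hk : n - i = 0 ∨ ¬ (p - 1) ∣ (n - i)
      · exact PI.mul hp (PI_bernoulli hp hp3 _ hk) (PI.nat hp _)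
      · push Not at hk
        obtain ⟨hk0, j, hj⟩ := hk
        have hj1 : 1 ≤ j := by
          rcases Nat.eq_zero_or_pos j with rfl | h0
          · simp at hj; omega
          · exact h0
        have hjm : j < m - e := by
          by_contra hcon
          push Not at hcon
          have h1 : (m - e) * (p - 1) ≤ (p - 1) * j := by
            rw [mul_comm (p - 1) j]
            exact Nat.mul_le_mul_right _ hcon
          have h2 : m * (p - 1) = (m - e) * (p - 1) + e * (p - 1) := by
            rw [← Nat.add_mul]; congr 1; omega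
          have h3 : e * p = e * (p - 1) + e := by
            rw [← Nat.mul_succ]; congr 1; omega
          omega
        have hch : n.choose i = n.choose (j * (p - 1)) := by
          rw [← Nat.choose_symm h]
          congr 1
          rw [mul_comm, ← hj]
        have hdvd : p ∣ n.choose i := by
          rw [hch, hn]
          apply (Nat.modEq_zero_iff_dvd).mp
          refine (choose_lucas hp hem hmp hj1 (by omega)).trans ?_
          rw [Nat.choose_eq_zero_of_lt (by omega), zero_mul]
        obtain ⟨c, hc⟩ := hdvd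
        have : _root_.bernoulli (n - i) * (n.choose i : ℚ) =
            ((p : ℚ) * _root_.bernoulli (n - i)) * c := by
          rw [hc]; push_cast; ring
        rw [this]
        exact PI.mul hp (PI_bernoulli_mul hp hp3 _) (PI.nat hp _)
    · simpa using PI.int hp 0
  · have h3 : e * p = e * (p - 1) + e := by
      rw [← Nat.mul_succ]; congr 1; omega
    have h2 : m * (p - 1) = (m - e) * (p - 1) + e * (p - 1) := by
      rw [← Nat.add_mul]; congr 1; omega
    have hle : e * p ≤ n := by omega
    have hsub : n - e * p = (m - e) * (p - 1) := by omega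
    rw [Polynomial.coeff_bernoulli, if_pos hle, hsub]
    rintro ⟨d, z, hd, h⟩
    have hpos : 0 < (m - e) * (p - 1) := Nat.mul_pos (by omega) (by omega)
    apply not_PI_bernoulli hp hp3 _ hpos (Dvd.intro_left _ rfl)
    refine ⟨d * (n.choose (e * p) : ℤ), z, ?_, ?_⟩
    · intro hdvd
      rcases (Nat.prime_iff_prime_int.mp hp).dvd_or_dvd hdvd with h1 | h1
      · exact hd h1
      · have h4 : p ∣ n.choose (e * p) := by exact_mod_cast h1
        rw [← Nat.choose_symm hle, hsub, hn] at h4
        have h5 := (Nat.modEq_zero_iff_dvd).mpr h4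
        have h6 := (choose_lucas hp hem hmp (j := m - e) (by omega) (by omega)).symm.trans h5
        rw [Nat.choose_self, one_mul] at h6
        have h7 := (Nat.modEq_zero_iff_dvd).mp h6
        have h8 : (m - 1).choose (m - e - 1) ∣ (m - 1).factorial := by
          rw [← Nat.choose_mul_factorial_mul_factorial (by omega : m - e - 1 ≤ m - 1), mul_assoc]
          exact Dvd.intro _ rfl
        have h9 := (hp.dvd_factorial).mp (h7.trans h8)
        omega
    · push_cast
      rw [← h]
      ring

theorem factor_of_prime (n p m e : ℕ) (hp : p.Prime) (hp3 : 3 ≤ p) (hn : n = m * (p - 1) + e)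
    (hem : e < m) (hmp : m < p) :
    ∃ g : Polynomial ℚ, Irreducible g ∧ g ∣ Polynomial.bernoulli n ∧
      n ≤ g.natDegree + e * p := by
  have := Fact.mk hp
  obtain ⟨hA, hB, hC⟩ := coeff_facts n p m e hp hp3 hn hem hmp
  have hBn : Polynomial.bernoulli n ≠ 0 := (monic_bernoulli n).ne_zero
  obtain ⟨F, hFp, hFd, c, hc, hFc⟩ := exists_primitive hBn
  have hF0 : F ≠ 0 := hFp.ne_zero
  have hpI : Prime (p : ℤ) := Nat.prime_iff_prime_int.mp hp
  -- coefficients
  have hcz : (F.leadingCoeff : ℚ) = c := by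
    have h2 := leadingCoeff_map_of_injective (RingHom.injective_int (Int.castRingHom ℚ)) F
    rw [hFc, leadingCoeff_mul, leadingCoeff_C, (monic_bernoulli n).leadingCoeff, mul_one] at h2
    simpa using h2.symm
  set z : ℤ := F.leadingCoeff with hz
  have hco : ∀ i, (F.coeff i : ℚ) = z * (Polynomial.bernoulli n).coeff i := by
    intro i
    have h2 := congrArg (fun Q => Q.coeff i) hFc
    simp only [coeff_map, coeff_C_mul] at h2
    rw [hcz]
    simpa using h2
  have hpz : (p : ℤ) ∣ z := by
    by_contra hcon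
    exact hC ⟨z, F.coeff (e * p), hcon, (hco _).symm⟩
  have hpz2 : ¬ (p : ℤ) ^ 2 ∣ z := by
    rintro ⟨t, ht⟩
    have hall : ∀ i, (p : ℤ) ∣ F.coeff i := by
      intro i
      obtain ⟨d, w, hd, hw⟩ := hA i
      have h3 : d * F.coeff i = (p : ℤ) * (t * w) := by
        have h4 : ((d * F.coeff i : ℤ) : ℚ) = ((p : ℤ) * (t * w) : ℤ) := by
          push_cast
          rw [hco i, ht]
          push_cast
          rw [← hw]
          ring
        exact_mod_cast h4
      rcases hpI.dvd_or_dvd (Dvd.intro _ h3.symm) with h5 | h5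
      · exact absurd h5 hd
      · exact h5
    have h6 : C (p : ℤ) ∣ F := (C_dvd_iff_dvd_coeff _ _).mpr hall
    have h7 := hFp _ h6
    exact hpI.not_isUnit h7
  have hhigh : ∀ i, e * p < i → (p : ℤ) ∣ F.coeff i := by
    intro i hi
    obtain ⟨d, w, hd, hw⟩ := hB i hi
    obtain ⟨t, ht⟩ := hpz
    have h3 : d * F.coeff i = (p : ℤ) * (t * w) := by
      have h4 : ((d * F.coeff i : ℤ) : ℚ) = ((p : ℤ) * (t * w) : ℤ) := by
        push_cast
        rw [hco i, ht]
        push_cast
        rw [← hw]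
        ring
      exact_mod_cast h4
    rcases hpI.dvd_or_dvd (Dvd.intro _ h3.symm) with h5 | h5
    · exact absurd h5 hd
    · exact h5
  -- factorisation
  obtain ⟨f, hf, hassoc⟩ := UniqueFactorizationMonoid.exists_prime_factors F hF0
  have hfG : ∃ G ∈ f, (p : ℤ) ∣ G.leadingCoeff := by
    have h1 : (p : ℤ) ∣ (f.prod).leadingCoeff := by
      obtain ⟨u, hu⟩ := hassoc
      have h2 : F.leadingCoeff = f.prod.leadingCoeff * (u : ℤ[X]).leadingCoeff := by
        rw [← hu, leadingCoeff_mul]
      have h3 : (p : ℤ) ∣ f.prod.leadingCoeff * (u : ℤ[X]).leadingCoeff := by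
        rw [← h2]; exact hpz
      rcases hpI.dvd_or_dvd h3 with h4 | h4
      · exact h4
      · exfalso
        obtain ⟨r, hr, hr2⟩ := Polynomial.isUnit_iff.mp u.isUnit
        rw [← hr2, leadingCoeff_C] at h4
        exact hpI.not_isUnit (isUnit_of_dvd_unit h4 hr)
    rw [leadingCoeff_multiset_prod] at h1
    exact hpI.exists_mem_multiset_map_dvd h1
  obtain ⟨G, hGf, hpG⟩ := hfG
  have hGprime := hf G hGf
  have hGF : G ∣ F := (Multiset.dvd_prod hGf).trans hassoc.dvd
  obtain ⟨H, hH⟩ := hGF
  have hGprim : G.IsPrimitive := isPrimitive_of_dvd hFp ⟨H, hH⟩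
  have hzGH : z = G.leadingCoeff * H.leadingCoeff := by
    rw [hz, hH, leadingCoeff_mul]
  have hpH : ¬ (p : ℤ) ∣ H.leadingCoeff := by
    intro h
    apply hpz2
    rw [hzGH, pow_two]
    exact mul_dvd_mul hpG h
  have hH0 : H ≠ 0 := by
    rintro rfl
    simp at hpH
  have hG0 : G ≠ 0 := hGprim.ne_zero
  -- reduction mod p
  set φ : ℤ →+* ZMod p := Int.castRingHom (ZMod p) with hφ
  have hφ0 : ∀ a : ℤ, φ a = 0 ↔ (p : ℤ) ∣ a := fun a => by
    rw [hφ]
    simpa using ZMod.intCast_zmod_eq_zero_iff_dvd a p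
  have hdH : (H.map φ).natDegree = H.natDegree := by
    apply natDegree_map_of_leadingCoeff_ne_zero
    rw [Ne, hφ0]
    exact hpH
  have hGm : G.map φ ≠ 0 := by
    intro h0
    have : ∀ i, (p : ℤ) ∣ G.coeff i := by
      intro i
      rw [← hφ0, ← coeff_map, h0, coeff_zero]
    have h6 : C (p : ℤ) ∣ G := (C_dvd_iff_dvd_coeff _ _).mpr this
    exact hpI.not_isUnit (hGprim _ h6)
  have hHm : H.map φ ≠ 0 := by
    intro h0
    apply hpH
    rw [← hφ0, leadingCoeff, ← coeff_map, h0, coeff_zero]
  have hFm : (F.map φ).natDegree ≤ e * p := by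
    apply natDegree_le_iff_coeff_eq_zero.mpr
    intro i hi
    rw [coeff_map, hφ0]
    exact hhigh i hi
  have hHle : H.natDegree ≤ e * p := by
    rw [hH, Polynomial.map_mul, natDegree_mul hGm hHm] at hFm
    omega
  have hdeg : G.natDegree + H.natDegree = n := by
    rw [← natDegree_mul hG0 hH0, ← hH, hFd, natDegree_bernoulli]
  refine ⟨G.map (Int.castRingHom ℚ), ?_, ?_, ?_⟩
  · exact (IsPrimitive.Int.irreducible_iff_irreducible_map_cast hGprim).mp hGprime.irreducible
  · have h1 : G.map (Int.castRingHom ℚ) ∣ C c * Polynomial.bernoulli n := by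
      rw [← hFc, hH, Polynomial.map_mul]
      exact Dvd.intro _ rfl
    have h2 : IsUnit (C c : ℚ[X]) := isUnit_C.mpr (isUnit_iff_ne_zero.mpr hc)
    exact (h2.dvd_mul_left).mp h1
  · rw [natDegree_map_eq_of_injective (RingHom.injective_int (Int.castRingHom ℚ))]
    omega

end Pool.Agent.Helper98.Bern
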