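import Mathlib
import Pool.Agent.Helper98.Bern.Defs

/-!
Discrete Kusmin-Landau inequality (helper29).
-/

namespace Pool.Agent.Helper98.Bern

open Finset Real

lemma ee_eq (x : ℝ) : ee x = Complex.exp (((2 * π * x : ℝ) : ℂ) * Complex.I) := by
  unfold ee
  congr 1
  push_cast
  ring

lemma ee_re (x : ℝ) : (ee x).re = cos (2 * π * x) := by
  rw [ee_eq, Complex.exp_ofReal_mul_I_re]

lemma ee_im (x : ℝ) : (ee x).im = sin (2 * π * x) := by
  rw [ee_eq, Complex.exp_ofReal_mul_I_im]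

/-- `1/(e(x)-1) = -1/2 - (i/2) cot(pi x)` -/
lemma kl_ee_inv {x : ℝ} (h : sin (π * x) ≠ 0) :
    (ee x - 1) * ⟨-1 / 2, -(cos (π * x) / sin (π * x)) / 2⟩ = 1 := by
  have h1 : 2 * π * x = 2 * (π * x) := by ring
  have hsq := sin_sq_add_cos_sq (π * x)
  have h2 : sin (π * x) * (cos (π * x) / sin (π * x)) = cos (π * x) := by field_simp
  apply Complex.ext
  · simp only [Complex.mul_re, Complex.sub_re, Complex.sub_im, ee_re, ee_im, Complex.one_re,
      Complex.one_im, h1, cos_two_mul, sin_two_mul]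
    linear_combination cos (π * x) * h2
  · simp only [Complex.mul_im, Complex.sub_re, Complex.sub_im, ee_re, ee_im, Complex.one_re,
      Complex.one_im, h1, cos_two_mul, sin_two_mul]
    linear_combination (-(cos (π * x) / sin (π * x))) * hsq + sin (π * x) * h2

lemma two_mul_le_sin {t θ : ℝ} (h0 : 0 < θ) (h1 : θ ≤ t) (h2 : t ≤ 1 - θ) :
    2 * θ ≤ sin (π * t) := by
  have hpi := Real.pi_pos
  rcases le_total t (1 / 2) with h | h
  · have := Real.mul_le_sin (x := π * t) (mul_nonneg hpi.le (by linarith)) (by nlinarith)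
    have h3 : 2 / π * (π * t) = 2 * t := by field_simp
    linarith
  · have := Real.mul_le_sin (x := π * (1 - t)) (by nlinarith) (by nlinarith)
    have h3 : 2 / π * (π * (1 - t)) = 2 * (1 - t) := by field_simp
    have h4 : sin (π * (1 - t)) = sin (π * t) := by
      rw [show π * (1 - t) = π - π * t by ring, sin_pi_sub]
    linarith

/-- the cotangent -/
noncomputable def ct (x : ℝ) : ℝ := cos (π * x) / sin (π * x)

/-- the multiplier -/
noncomputable def gm (x : ℝ) : ℂ := ⟨-1 / 2, -(cos (π * x) / sin (π * x)) / 2⟩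

lemma ct_anti {x y θ : ℝ} (h0 : 0 < θ) (hx : θ ≤ x) (hxy : x ≤ y) (hy : y ≤ 1 - θ) :
    ct y ≤ ct x := by
  unfold ct
  have sx := two_mul_le_sin h0 hx (hxy.trans hy)
  have sy := two_mul_le_sin h0 (hx.trans hxy) hy
  have hpi := Real.pi_pos
  rw [div_le_div_iff₀ (by linarith) (by linarith)]
  have h3 : 0 ≤ sin (π * y - π * x) := by
    apply sin_nonneg_of_nonneg_of_le_pi
    · nlinarith
    · nlinarith
  rw [sin_sub] at h3
  linarith

lemma abs_ct_le {x θ : ℝ} (h0 : 0 < θ) (hx : θ ≤ x) (hx2 : x ≤ 1 - θ) :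
    |ct x| ≤ 1 / (2 * θ) := by
  unfold ct
  have sx := two_mul_le_sin h0 hx hx2
  rw [abs_div, abs_of_pos (by linarith : 0 < sin (π * x))]
  exact div_le_div₀ zero_le_one (abs_cos_le_one _) (by linarith) sx

lemma norm_gm_sub (x y : ℝ) : ‖gm y - gm x‖ = |ct x - ct y| / 2 := by
  have : gm y - gm x = (((ct x - ct y) / 2 : ℝ) : ℂ) * Complex.I := by
    apply Complex.ext
    · simp only [gm, Complex.sub_re, Complex.mul_re, Complex.ofReal_re, Complex.ofReal_im,
        Complex.I_re, Complex.I_im]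
      ring
    · simp only [gm, ct, Complex.sub_im, Complex.mul_im, Complex.ofReal_re, Complex.ofReal_im,
        Complex.I_re, Complex.I_im]
      ring
  rw [this, norm_mul, Complex.norm_I, mul_one, Complex.norm_real, Real.norm_eq_abs, abs_div,
    abs_two]

lemma norm_gm_le {x θ : ℝ} (h0 : 0 < θ) (hx : θ ≤ x) (hx2 : x ≤ 1 - θ) :
    ‖gm x‖ ≤ 1 / (4 * θ) := by
  have sx := two_mul_le_sin h0 hx hx2
  have h1 := kl_ee_inv (x := x) (by linarith)
  have h2 : ‖ee x - 1‖ * ‖gm x‖ = 1 := by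
    rw [← norm_mul]
    unfold gm
    rw [h1, norm_one]
  have h3 : ‖ee x - 1‖ = 2 * sin (π * x) := by
    have h5 : ‖ee x - 1‖ ^ 2 = (2 * sin (π * x)) ^ 2 := by
      rw [← Complex.normSq_eq_norm_sq, Complex.normSq_apply]
      simp only [Complex.sub_re, Complex.sub_im, ee_re, ee_im, Complex.one_re, Complex.one_im]
      rw [show 2 * π * x = 2 * (π * x) by ring, cos_two_mul, sin_two_mul]
      have hsq := sin_sq_add_cos_sq (π * x)
      have : cos (π * x) ^ 2 = 1 - sin (π * x) ^ 2 := by linarith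
      ring_nf
      rw [show cos (π * x) ^ 4 = (cos (π * x) ^ 2) ^ 2 by ring, this]
      ring
    exact (sq_eq_sq₀ (norm_nonneg _) (by linarith)).mp h5
  rw [h3] at h2
  have h4 : ‖gm x‖ = 1 / (2 * sin (π * x)) := by
    rw [eq_div_iff (by linarith)]
    linarith
  rw [h4]
  apply one_div_le_one_div_of_le <;> linarith

lemma kl_parts (g E : ℕ → ℂ) (k : ℕ) :
    ∑ m ∈ range (k + 1), g m * (E (m + 1) - E m) =
      g k * E (k + 1) - g 0 * E 0 - ∑ m ∈ range k, (g (m + 1) - g m) * E (m + 1) := by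
  induction k with
  | zero => simp [mul_sub]
  | succ k ih =>
    rw [sum_range_succ, ih, sum_range_succ _ k]
    ring

lemma kl0 (a : ℕ → ℝ) (k : ℕ) {θ : ℝ} (h0 : 0 < θ) (h1 : θ ≤ 1 / 2)
    (hmono : ∀ m, m + 1 < k → a (m + 1) - a m ≤ a (m + 2) - a (m + 1))
    (hlo : ∀ m, m < k → θ ≤ a (m + 1) - a m)
    (hhi : ∀ m, m < k → a (m + 1) - a m ≤ 1 - θ) :
    ‖∑ m ∈ range (k + 1), ee (a m)‖ ≤ 2 / θ := by
  have hone : (1 : ℝ) ≤ 1 / (2 * θ) := by
    rw [le_div_iff₀ (by linarith)]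
    linarith
  have htot : 3 * (1 / (2 * θ)) ≤ 2 / θ := by
    rw [show 3 * (1 / (2 * θ)) = (3 / 2) / θ by field_simp]
    gcongr
    norm_num
  rcases Nat.eq_zero_or_pos k with rfl | hk
  · simp only [zero_add, sum_range_one, norm_ee]
    linarith
  obtain ⟨k, rfl⟩ : ∃ k', k = k' + 1 := ⟨k - 1, by omega⟩
  set d : ℕ → ℝ := fun m => a (m + 1) - a m with hd
  rw [sum_range_succ]
  have hE : ∀ m ∈ range (k + 1), ee (a m) = gm (d m) * (ee (a (m + 1)) - ee (a m)) := by
    intro m hm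
    have hm' := mem_range.mp hm
    have sx := two_mul_le_sin h0 (hlo m hm') (hhi m hm')
    have h2 := kl_ee_inv (x := d m) (by show sin (π * (a (m + 1) - a m)) ≠ 0; linarith)
    have h3 : ee (a (m + 1)) = ee (a m) * ee (d m) := by
      rw [← ee_add]
      congr 1
      simp only [hd]
      ring
    rw [h3]
    have h4 : gm (d m) = ⟨-1 / 2, -(cos (π * (d m)) / sin (π * (d m))) / 2⟩ := rfl
    rw [← h4] at h2
    linear_combination (-(ee (a m))) * h2
  rw [sum_congr rfl hE, kl_parts (fun m => gm (d m)) (fun m => ee (a m)) k]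
  have hg : ∀ m, m < k + 1 → ‖gm (d m)‖ ≤ 1 / (4 * θ) := fun m hm =>
    norm_gm_le h0 (hlo m hm) (hhi m hm)
  have hsum : ‖∑ m ∈ range k, (gm (d (m + 1)) - gm (d m)) * ee (a (m + 1))‖ ≤
      (ct (d 0) - ct (d k)) / 2 := by
    refine (norm_sum_le _ _).trans ?_
    have : ∀ m ∈ range k, ‖(gm (d (m + 1)) - gm (d m)) * ee (a (m + 1))‖ =
        (ct (d m) - ct (d (m + 1))) / 2 := by
      intro m hm
      have hm' := mem_range.mp hm
      rw [norm_mul, norm_ee, mul_one, norm_gm_sub, abs_of_nonneg]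
      have := ct_anti (x := d m) (y := d (m + 1)) h0 (hlo m (by omega))
        (hmono m (by omega)) (hhi (m + 1) (by omega))
      linarith
    rw [sum_congr rfl this, ← sum_div, sum_range_sub']
  have hc0 := abs_ct_le h0 (hlo 0 (by omega)) (hhi 0 (by omega))
  have hck := abs_ct_le h0 (hlo k (by omega)) (hhi k (by omega))
  have h5 : (ct (d 0) - ct (d k)) / 2 ≤ 1 / (2 * θ) := by
    have := (abs_le.mp hc0).2
    have := (abs_le.mp hck).1
    simp only [hd] at *
    linarith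
  have h6 : 1 / (4 * θ) + 1 / (4 * θ) = 1 / (2 * θ) := by
    field_simp
    norm_num
  calc ‖gm (d k) * ee (a (k + 1)) - gm (d 0) * ee (a 0) -
        ∑ m ∈ range k, (gm (d (m + 1)) - gm (d m)) * ee (a (m + 1)) + ee (a (k + 1))‖
      ≤ ‖gm (d k) * ee (a (k + 1))‖ + ‖gm (d 0) * ee (a 0)‖ +
        ‖∑ m ∈ range k, (gm (d (m + 1)) - gm (d m)) * ee (a (m + 1))‖ + ‖ee (a (k + 1))‖ := by
        refine (norm_add_le _ _).trans ?_
        gcongr
        refine (norm_sub_le _ _).trans ?_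
        gcongr
        exact norm_sub_le _ _
    _ ≤ 1 / (4 * θ) + 1 / (4 * θ) + 1 / (2 * θ) + 1 := by
        rw [norm_mul, norm_mul, norm_ee, norm_ee, mul_one, mul_one]
        gcongr
        · exact hg k (by omega)
        · exact hg 0 (by omega)
        · exact hsum.trans h5
    _ ≤ 2 / θ := by linarith

theorem kusmin_landau (g : ℕ → ℝ) (a b : ℕ) (k : ℤ) (θ : ℝ) (hθ : 0 < θ) (hθ2 : θ ≤ 1 / 2)
    (hmono : ∀ j, a ≤ j → j + 1 < b → g (j + 1) - g j ≤ g (j + 2) - g (j + 1))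
    (hr : ∀ j, a ≤ j → j < b →
      (k : ℝ) + θ ≤ g (j + 1) - g j ∧ g (j + 1) - g j ≤ (k : ℝ) + 1 - θ) :
    ‖∑ j ∈ Ico a b, ee (g j)‖ ≤ 2 / θ := by
  rcases le_or_gt b a with h | h
  · rw [Ico_eq_empty (by omega)]
    simp
    positivity
  obtain ⟨l, rfl⟩ : ∃ l, b = a + l + 1 := ⟨b - a - 1, by omega⟩
  set f : ℕ → ℝ := fun m => g (a + m) - k * m with hf
  have h2 : ∑ m ∈ Ico a (a + l + 1), ee (g m) = ∑ m ∈ range (l + 1), ee (f m) := by
    rw [sum_Ico_eq_sum_range, show a + l + 1 - a = l + 1 by omega]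
    apply sum_congr rfl
    intro m _
    have : ee (g (a + m)) = ee (f m) * ee (((k * m : ℤ) : ℝ)) := by
      rw [← ee_add]
      congr 1
      simp only [hf]
      push_cast
      ring
    rw [this, ee_int, mul_one]
  rw [h2]
  apply kl0 f l hθ hθ2
  · intro m hm
    have := hmono (a + m) (by omega) (by omega)
    simp only [hf, ← add_assoc]
    push_cast
    linarith
  · intro m hm
    have := (hr (a + m) (by omega) (by omega)).1
    simp only [hf, ← add_assoc]
    push_cast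
    linarith
  · intro m hm
    have := (hr (a + m) (by omega) (by omega)).2
    simp only [hf, ← add_assoc]
    push_cast
    linarith

end Pool.Agent.Helper98.Bern
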