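import Mathlib
import Pool.Agent.Helper98.Bern.Defs
import Pool.Agent.Helper98.Bern.KL

/-!
The van der Corput second derivative test in discrete form.
-/

namespace Pool.Agent.Helper98.Bern

open Finset

/-- iterated steps -/
theorem SD_steps (g : ℕ → ℝ) (a b : ℕ) (lam : ℝ)
    (h : ∀ j, a ≤ j → j + 1 < b → lam ≤ g (j + 2) - 2 * g (j + 1) + g j)
    (i : ℕ) (hi : a ≤ i) (n : ℕ) (hn : i + n < b) :
    (n : ℝ) * lam ≤ (g (i + n + 1) - g (i + n)) - (g (i + 1) - g i) := by
  induction n with
  | zero => simp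
  | succ n ih =>
    have h1 := ih (by omega)
    have h2 := h (i + n) (by omega) (by omega)
    have e1 : i + (n + 1) = i + n + 1 := by ring
    have e2 : i + n + 1 + 1 = i + n + 2 := by ring
    rw [e1, e2]
    push_cast
    linarith

theorem SD_steps_up (g : ℕ → ℝ) (a b : ℕ) (mu : ℝ)
    (h : ∀ j, a ≤ j → j + 1 < b → g (j + 2) - 2 * g (j + 1) + g j ≤ mu)
    (i : ℕ) (hi : a ≤ i) (n : ℕ) (hn : i + n < b) :
    (g (i + n + 1) - g (i + n)) - (g (i + 1) - g i) ≤ (n : ℝ) * mu := by
  induction n with
  | zero => simp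
  | succ n ih =>
    have h1 := ih (by omega)
    have h2 := h (i + n) (by omega) (by omega)
    have e1 : i + (n + 1) = i + n + 1 := by ring
    have e2 : i + n + 1 + 1 = i + n + 2 := by ring
    rw [e1, e2]
    push_cast
    linarith

/-- monotonicity of the difference -/
theorem SD_mono (g : ℕ → ℝ) (a b : ℕ) (lam : ℝ) (hlam : 0 < lam)
    (h : ∀ j, a ≤ j → j + 1 < b → lam ≤ g (j + 2) - 2 * g (j + 1) + g j)
    (i j : ℕ) (hi : a ≤ i) (hij : i ≤ j) (hj : j < b) :
    g (i + 1) - g i ≤ g (j + 1) - g j := by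
  obtain ⟨n, rfl⟩ := Nat.exists_eq_add_of_le hij
  have h1 := SD_steps g a b lam h i hi n hj
  have h2 : 0 ≤ (n : ℝ) * lam := by positivity
  linarith

/-- few indices with the difference in a short interval -/
theorem SD_card (g : ℕ → ℝ) (a b : ℕ) (lam : ℝ) (hlam : 0 < lam)
    (h : ∀ j, a ≤ j → j + 1 < b → lam ≤ g (j + 2) - 2 * g (j + 1) + g j)
    (S : Finset ℕ) (hS : S ⊆ Ico a b) (u w : ℝ) (hw : 0 ≤ w)
    (hu : ∀ j ∈ S, u ≤ g (j + 1) - g j ∧ g (j + 1) - g j ≤ u + w) :
    (S.card : ℝ) ≤ w / lam + 1 := by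
  rcases S.eq_empty_or_nonempty with rfl | hne
  · simp only [card_empty, Nat.cast_zero]
    positivity
  · have hmin := S.min'_mem hne
    have hmax := S.max'_mem hne
    set i := S.min' hne with hi
    set j := S.max' hne with hj
    have hij : i ≤ j := S.min'_le_max' hne
    have h1 : S ⊆ Icc i j := by
      intro x hx
      rw [mem_Icc]
      exact ⟨S.min'_le x hx, S.le_max' x hx⟩
    have h2 : S.card ≤ j + 1 - i := by
      have := card_le_card h1
      rwa [Nat.card_Icc] at this
    have hia := (mem_Ico.mp (hS hmin)).1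
    have hjb := (mem_Ico.mp (hS hmax)).2
    obtain ⟨n, hn⟩ := Nat.exists_eq_add_of_le hij
    have h3 := SD_steps g a b lam h i hia n (by omega)
    rw [← hn] at h3
    have h4 := (hu i hmin).1
    have h5 := (hu j hmax).2
    have h6 : (n : ℝ) * lam ≤ w := by linarith
    have h7 : (n : ℝ) ≤ w / lam := by rwa [le_div_iff₀ hlam]
    have h8 : (S.card : ℝ) ≤ (n : ℝ) + 1 := by
      have : S.card ≤ n + 1 := by omega
      exact_mod_cast this
    linarith

theorem SD_norm_le_card (S : Finset ℕ) (g : ℕ → ℝ) : ‖∑ j ∈ S, ee (g j)‖ ≤ S.card := by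
  refine (norm_sum_le _ _).trans ?_
  simp only [norm_ee]
  rw [sum_const, nsmul_eq_mul, mul_one]

theorem second_diff (g : ℕ → ℝ) (a b : ℕ) (hab : a ≤ b) (lam C : ℝ) (hlam : 0 < lam)
    (hC : 1 ≤ C)
    (h : ∀ j, a ≤ j → j + 1 < b →
      lam ≤ g (j + 2) - 2 * g (j + 1) + g j ∧ g (j + 2) - 2 * g (j + 1) + g j ≤ C * lam) :
    ‖∑ j ∈ Ico a b, ee (g j)‖ ≤ 5 * (C * lam * ((b : ℝ) - a) + 2) / √lam := by
  have hsq : 0 < √lam := Real.sqrt_pos.mpr hlam
  have hba : (0 : ℝ) ≤ (b : ℝ) - a := by
    have : (a : ℝ) ≤ b := by exact_mod_cast hab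
    linarith
  have hsq2 : √lam * √lam = lam := Real.mul_self_sqrt hlam.le
  rcases lt_or_ge (1 / 4) lam with hbig | hsmall
  · -- trivial bound
    have h1 : ‖∑ j ∈ Ico a b, ee (g j)‖ ≤ (b : ℝ) - a := by
      refine (SD_norm_le_card _ _).trans ?_
      rw [Nat.card_Ico, Nat.cast_sub hab]
    refine h1.trans ?_
    rw [le_div_iff₀ hsq]
    have h2 : √lam ≤ 2 * lam := by
      have h3 : 1 / 2 ≤ √lam := by
        rw [show (1 / 2 : ℝ) = √(1 / 4) by
          rw [show (1 / 4 : ℝ) = (1 / 2) ^ 2 by norm_num, Real.sqrt_sq (by norm_num)]]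
        exact Real.sqrt_le_sqrt hbig.le
      nlinarith
    have h4 : ((b : ℝ) - a) * √lam ≤ ((b : ℝ) - a) * (2 * lam) :=
      mul_le_mul_of_nonneg_left h2 hba
    have h5 : lam * ((b : ℝ) - a) ≤ C * lam * ((b : ℝ) - a) := by
      have : 0 ≤ lam * ((b : ℝ) - a) := by positivity
      nlinarith
    have h6 : 0 ≤ lam * ((b : ℝ) - a) := by positivity
    linarith
  · have hlo : ∀ j, a ≤ j → j + 1 < b → lam ≤ g (j + 2) - 2 * g (j + 1) + g j :=
      fun j h1 h2 => (h j h1 h2).1
    have hup : ∀ j, a ≤ j → j + 1 < b → g (j + 2) - 2 * g (j + 1) + g j ≤ C * lam :=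
      fun j h1 h2 => (h j h1 h2).2
    have hsqh : √lam ≤ 1 / 2 := by
      rw [show (1 / 2 : ℝ) = √(1 / 4) by
        rw [show (1 / 4 : ℝ) = (1 / 2) ^ 2 by norm_num, Real.sqrt_sq (by norm_num)]]
      exact Real.sqrt_le_sqrt hsmall
    rcases Nat.eq_or_lt_of_le hab with rfl | hlt
    · simp only [Ico_self, sum_empty, norm_zero]
      positivity
    · obtain ⟨m, rfl⟩ : ∃ m, b = a + m + 1 := ⟨b - a - 1, by omega⟩
      set del : ℕ → ℝ := fun j => g (j + 1) - g j with hdel
      have hmono : ∀ i j, a ≤ i → i ≤ j → j < a + m + 1 → del i ≤ del j :=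
        fun i j h1 h2 h3 => SD_mono g a (a + m + 1) lam hlam hlo i j h1 h2 h3
      set K : Finset ℤ := Icc ⌊del a⌋ ⌊del (a + m)⌋ with hK
      have hmaps : ∀ j ∈ Ico a (a + m + 1), ⌊del j⌋ ∈ K := by
        intro j hj
        rw [mem_Ico] at hj
        rw [hK, mem_Icc]
        exact ⟨Int.floor_le_floor (hmono a j le_rfl hj.1 hj.2),
          Int.floor_le_floor (hmono j (a + m) hj.1 (by omega) (by omega))⟩
      -- the sum over one integer
      have hone : ∀ k ∈ K, ‖∑ j ∈ (Ico a (a + m + 1)).filter (fun j => ⌊del j⌋ = k), ee (g j)‖ ≤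
          5 / √lam := by
        intro k _
        set S := (Ico a (a + m + 1)).filter (fun j => ⌊del j⌋ = k) with hS
        set S1 := S.filter (fun j => del j < k + √lam) with hS1
        set S2 := (S.filter (fun j => ¬ del j < k + √lam)).filter
          (fun j => del j ≤ k + 1 - √lam) with hS2
        set S3 := (S.filter (fun j => ¬ del j < k + √lam)).filter
          (fun j => ¬ del j ≤ k + 1 - √lam) with hS3
        have hsplit : ∑ j ∈ S, ee (g j) =
            ∑ j ∈ S1, ee (g j) + (∑ j ∈ S2, ee (g j) + ∑ j ∈ S3, ee (g j)) := by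
          rw [hS2, hS3, sum_filter_add_sum_filter_not, hS1, sum_filter_add_sum_filter_not]
        have hfl : ∀ j ∈ S, (k : ℝ) ≤ del j ∧ del j < k + 1 := by
          intro j hj
          have h1 := (mem_filter.mp hj).2
          rw [Int.floor_eq_iff] at h1
          exact h1
        have hSsub : S ⊆ Ico a (a + m + 1) := filter_subset _ _
        have hc1 : (S1.card : ℝ) ≤ √lam / lam + 1 := by
          refine SD_card g a (a + m + 1) lam hlam hlo S1 ((filter_subset _ _).trans hSsub) k
            (√lam) hsq.le ?_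
          intro j hj
          have h1 := mem_filter.mp hj
          exact ⟨(hfl j h1.1).1, h1.2.le⟩
        have hc3 : (S3.card : ℝ) ≤ √lam / lam + 1 := by
          refine SD_card g a (a + m + 1) lam hlam hlo S3
            ((filter_subset _ _).trans ((filter_subset _ _).trans hSsub)) (k + 1 - √lam)
            (√lam) hsq.le ?_
          intro j hj
          have h1 := mem_filter.mp hj
          have h2 := (hfl j (mem_filter.mp h1.1).1).2
          have h3 := h1.2
          push Not at h3
          refine ⟨h3.le, ?_⟩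
          have e1 : (k : ℝ) + 1 - √lam + √lam = k + 1 := by ring
          rw [e1]
          exact h2.le
        have hmem2 : ∀ j, j ∈ S2 ↔ (a ≤ j ∧ j < a + m + 1) ∧ (k + √lam ≤ del j ∧
            del j ≤ k + 1 - √lam) := by
          intro j
          rw [hS2, mem_filter, mem_filter, hS, mem_filter, mem_Ico, not_lt]
          constructor
          · rintro ⟨⟨⟨h1, _⟩, h3⟩, h4⟩
            exact ⟨h1, h3, h4⟩
          · rintro ⟨h1, h3, h4⟩
            refine ⟨⟨⟨h1, ?_⟩, h3⟩, h4⟩
            rw [Int.floor_eq_iff]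
            constructor
            · linarith
            · linarith
        have hn2 : ‖∑ j ∈ S2, ee (g j)‖ ≤ 2 / √lam := by
          rcases S2.eq_empty_or_nonempty with he | hne
          · rw [he, sum_empty, norm_zero]
            positivity
          · have hmin := (hmem2 _).mp (S2.min'_mem hne)
            have hmax := (hmem2 _).mp (S2.max'_mem hne)
            set a' := S2.min' hne with ha'
            set b' := S2.max' hne with hb'
            have hI : S2 = Ico a' (b' + 1) := by
              ext j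
              rw [mem_Ico]
              constructor
              · intro hj
                exact ⟨S2.min'_le j hj, Nat.lt_succ_of_le (S2.le_max' j hj)⟩
              · rintro ⟨h1, h2⟩
                rw [hmem2]
                refine ⟨⟨hmin.1.1.trans h1, by omega⟩, ?_, ?_⟩
                · exact hmin.2.1.trans (hmono a' j hmin.1.1 h1 (by omega))
                · exact (hmono j b' (hmin.1.1.trans h1) (by omega) (by omega)).trans hmax.2.2
            rw [hI]
            refine kusmin_landau g a' (b' + 1) k (√lam) hsq hsqh ?_ ?_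
            · intro j h1 h2
              have := hlo j (hmin.1.1.trans h1) (by omega)
              linarith
            · intro j h1 h2
              have h3 : j ∈ S2 := by
                rw [hI, mem_Ico]
                exact ⟨h1, h2⟩
              exact ((hmem2 j).mp h3).2
        rw [hsplit]
        have hdiv : √lam / lam = 1 / √lam := by
          rw [div_eq_div_iff hlam.ne' hsq.ne', one_mul, hsq2]
        rw [hdiv] at hc1 hc3
        have hinv : 2 ≤ 1 / √lam := by
          rw [le_div_iff₀ hsq]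
          linarith
        have e5 : 5 / √lam = 5 * (1 / √lam) := by ring
        have e2 : 2 / √lam = 2 * (1 / √lam) := by ring
        rw [e2] at hn2
        rw [e5]
        calc ‖∑ j ∈ S1, ee (g j) + (∑ j ∈ S2, ee (g j) + ∑ j ∈ S3, ee (g j))‖
            ≤ ‖∑ j ∈ S1, ee (g j)‖ + (‖∑ j ∈ S2, ee (g j)‖ + ‖∑ j ∈ S3, ee (g j)‖) :=
              (norm_add_le _ _).trans (add_le_add le_rfl (norm_add_le _ _))
          _ ≤ S1.card + (2 * (1 / √lam) + S3.card) :=
              add_le_add (SD_norm_le_card _ _) (add_le_add hn2 (SD_norm_le_card _ _))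
          _ ≤ 5 * (1 / √lam) := by linarith
      have hfib : ∑ j ∈ Ico a (a + m + 1), ee (g j) =
          ∑ k ∈ K, ∑ j ∈ (Ico a (a + m + 1)).filter (fun j => ⌊del j⌋ = k), ee (g j) :=
        (sum_fiberwise_of_maps_to hmaps _).symm
      rw [hfib]
      have hcard : (K.card : ℝ) ≤ C * lam * (((a + m + 1 : ℕ) : ℝ) - a) + 2 := by
        have h1 : ⌊del a⌋ ≤ ⌊del (a + m)⌋ :=
          Int.floor_le_floor (hmono a (a + m) le_rfl (by omega) (by omega))
        have h2 : (K.card : ℤ) = ⌊del (a + m)⌋ + 1 - ⌊del a⌋ := by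
          rw [hK, Int.card_Icc, Int.toNat_of_nonneg (by omega)]
        have h3 : (K.card : ℝ) = (⌊del (a + m)⌋ : ℝ) + 1 - ⌊del a⌋ := by
          exact_mod_cast h2
        rw [h3]
        have h4 := Int.floor_le (del (a + m))
        have h5 := Int.lt_floor_add_one (del a)
        have h6 := SD_steps_up g a (a + m + 1) (C * lam) hup a le_rfl m (by omega)
        have h7 : del (a + m) - del a ≤ (m : ℝ) * (C * lam) := h6
        have h8 : 0 ≤ C * lam := by positivity
        push_cast
        nlinarith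
      calc ‖∑ k ∈ K, ∑ j ∈ (Ico a (a + m + 1)).filter (fun j => ⌊del j⌋ = k), ee (g j)‖
          ≤ ∑ k ∈ K, 5 / √lam := norm_sum_le_of_le _ hone
        _ = K.card * (5 / √lam) := by rw [sum_const, nsmul_eq_mul]
        _ ≤ (C * lam * (((a + m + 1 : ℕ) : ℝ) - a) + 2) * (5 / √lam) :=
            mul_le_mul_of_nonneg_right hcard (by positivity)
        _ = 5 * (C * lam * (((a + m + 1 : ℕ) : ℝ) - a) + 2) / √lam := by ring

end Pool.Agent.Helper98.Bern
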