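import Mathlib
import Pool.Agent.Helper98.Bern.Defs

/-!
The Weyl-van der Corput inequality.
-/

namespace Pool.Agent.Helper98.Bern

open Finset

lemma wv_shift (f : ℕ → ℂ) (K H r : ℕ) (hr : r < H) (hHK : H ≤ K)
    (hf : ∀ k, k ∉ Ioc K (2 * K) → f k = 0) :
    ∑ t ∈ Ioc (K - H) (2 * K), f (t + r) = ∑ k ∈ Ioc K (2 * K), f k := by
  refine Finset.sum_bij_ne_zero (fun a _ _ => a + r) ?_ ?_ ?_ ?_
  · intro a h1 h2
    by_contra h3
    exact h2 (hf _ h3)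
  · intro a h1 h2 b h3 h4 h
    simpa using h
  · intro b hb hb2
    rw [mem_Ioc] at hb
    have h1 : b - r + r = b := by omega
    refine ⟨b - r, ?_, ?_, ?_⟩
    · rw [mem_Ioc]
      omega
    · rw [h1]
      exact hb2
    · exact h1
  · intro a _ _
    rfl

lemma wv_pair (z : ℕ → ℂ) (K H r q : ℕ) (hr : r < H) (hq : q < H) (hHK : H ≤ K)
    (hz : ∀ k, k ∉ Ioc K (2 * K) → z k = 0) :
    ∑ t ∈ Ioc (K - H) (2 * K), z (t + r) * star (z (t + q)) =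
      if r ≤ q then ∑ k ∈ Ioc K (2 * K), z k * star (z (k + (q - r)))
      else star (∑ k ∈ Ioc K (2 * K), z k * star (z (k + (r - q)))) := by
  split_ifs with h
  · rw [← wv_shift (fun k => z k * star (z (k + (q - r)))) K H r hr hHK]
    · apply Finset.sum_congr rfl
      intro t _
      have : t + r + (q - r) = t + q := by omega
      simp only [this]
    · intro k hk
      simp only [hz k hk, zero_mul]
  · rw [← wv_shift (fun k => z k * star (z (k + (r - q)))) K H q hq hHK]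
    · rw [star_sum]
      apply Finset.sum_congr rfl
      intro t _
      have : t + q + (r - q) = t + r := by omega
      simp only [this, star_mul, star_star]
    · intro k hk
      simp only [hz k hk, zero_mul]

lemma wv_norm (z : ℕ → ℂ) (K H : ℕ) (hHK : H ≤ K)
    (hz : ∀ k, k ∉ Ioc K (2 * K) → z k = 0) :
    ((∑ t ∈ Ioc (K - H) (2 * K), ‖∑ r ∈ range H, z (t + r)‖ ^ 2 : ℝ) : ℂ) =
      ∑ r ∈ range H, ∑ q ∈ range H,
        if r ≤ q then ∑ k ∈ Ioc K (2 * K), z k * star (z (k + (q - r)))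
        else star (∑ k ∈ Ioc K (2 * K), z k * star (z (k + (r - q)))) := by
  have h1 : ∀ t, ((‖∑ r ∈ range H, z (t + r)‖ ^ 2 : ℝ) : ℂ) =
      ∑ r ∈ range H, ∑ q ∈ range H, z (t + r) * star (z (t + q)) := by
    intro t
    rw [← Finset.sum_mul_sum, ← star_sum, Complex.star_def, Complex.mul_conj]
    rw [Complex.normSq_eq_norm_sq]
  rw [Complex.ofReal_sum, Finset.sum_congr rfl (fun t _ => h1 t), Finset.sum_comm]
  apply Finset.sum_congr rfl
  intro r hr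
  rw [Finset.sum_comm]
  apply Finset.sum_congr rfl
  intro q hq
  exact wv_pair z K H r q (mem_range.1 hr) (mem_range.1 hq) hHK hz

lemma wv_cs (z : ℕ → ℂ) (K H : ℕ) (hHK : H ≤ K)
    (hz : ∀ k, k ∉ Ioc K (2 * K) → z k = 0) :
    (H : ℝ) ^ 2 * ‖∑ k ∈ Ioc K (2 * K), z k‖ ^ 2 ≤
      2 * K * ∑ t ∈ Ioc (K - H) (2 * K), ‖∑ r ∈ range H, z (t + r)‖ ^ 2 := by
  have h1 : (H : ℂ) * ∑ k ∈ Ioc K (2 * K), z k =
      ∑ t ∈ Ioc (K - H) (2 * K), ∑ r ∈ range H, z (t + r) := by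
    rw [Finset.sum_comm, Finset.sum_congr rfl (fun r hr =>
      wv_shift z K H r (mem_range.1 hr) hHK hz)]
    simp
  have h2 : (H : ℝ) * ‖∑ k ∈ Ioc K (2 * K), z k‖ ≤
      ∑ t ∈ Ioc (K - H) (2 * K), ‖∑ r ∈ range H, z (t + r)‖ := by
    have := norm_sum_le (Ioc (K - H) (2 * K)) (fun t => ∑ r ∈ range H, z (t + r))
    rw [← h1, norm_mul, Complex.norm_natCast] at this
    exact this
  have h3 : ((H : ℝ) * ‖∑ k ∈ Ioc K (2 * K), z k‖) ^ 2 ≤
      (∑ t ∈ Ioc (K - H) (2 * K), ‖∑ r ∈ range H, z (t + r)‖) ^ 2 := by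
    gcongr
  have h4 := sq_sum_le_card_mul_sum_sq (s := Ioc (K - H) (2 * K))
    (f := fun t => ‖∑ r ∈ range H, z (t + r)‖)
  have h5 : (((Ioc (K - H) (2 * K)).card : ℕ) : ℝ) ≤ 2 * K := by
    rw [Nat.card_Ioc]
    have : 2 * K - (K - H) ≤ 2 * K := by omega
    exact_mod_cast this
  calc (H : ℝ) ^ 2 * ‖∑ k ∈ Ioc K (2 * K), z k‖ ^ 2
      = ((H : ℝ) * ‖∑ k ∈ Ioc K (2 * K), z k‖) ^ 2 := by ring
    _ ≤ _ := h3
    _ ≤ _ := h4
    _ ≤ _ := by
      apply mul_le_mul_of_nonneg_right h5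
      exact Finset.sum_nonneg (fun _ _ => by positivity)

lemma wv_row (φ : ℕ → ℝ) (hφ : ∀ n, 0 ≤ φ n) (H r : ℕ) (hr : r < H) :
    ∑ q ∈ range H, (if r ≤ q then φ (q - r) else φ (r - q)) ≤
      φ 0 + 2 * ∑ D ∈ Ico 1 H, φ D := by
  have h1 : ∑ q ∈ range H, (if r ≤ q then φ (q - r) else φ (r - q)) =
      ∑ q ∈ (range H).filter (fun q => r ≤ q), φ (q - r) +
      ∑ q ∈ (range H).filter (fun q => ¬ r ≤ q), φ (r - q) := by
    rw [Finset.sum_ite]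
  have h2 : ∑ q ∈ (range H).filter (fun q => r ≤ q), φ (q - r) ≤ φ 0 + ∑ D ∈ Ico 1 H, φ D := by
    have e1 : ∑ q ∈ (range H).filter (fun q => r ≤ q), φ (q - r) =
        ∑ D ∈ ((range H).filter (fun q => r ≤ q)).image (fun q => q - r), φ D := by
      rw [Finset.sum_image]
      intro a ha b hb hab
      simp only [coe_filter, mem_range, Set.mem_ofPred_eq] at ha hb
      simp only at hab
      omega
    have e2 : φ 0 + ∑ D ∈ Ico 1 H, φ D = ∑ D ∈ range H, φ D := by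
      rw [Finset.range_eq_Ico, Finset.sum_eq_sum_Ico_succ_bot (by omega : 0 < H)]
    rw [e1, e2]
    apply Finset.sum_le_sum_of_subset_of_nonneg
    · intro D hD
      simp only [mem_image, mem_filter, mem_range] at hD ⊢
      obtain ⟨q, hq, rfl⟩ := hD
      omega
    · intro i _ _
      exact hφ i
  have h3 : ∑ q ∈ (range H).filter (fun q => ¬ r ≤ q), φ (r - q) ≤ ∑ D ∈ Ico 1 H, φ D := by
    have e1 : ∑ q ∈ (range H).filter (fun q => ¬ r ≤ q), φ (r - q) =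
        ∑ D ∈ ((range H).filter (fun q => ¬ r ≤ q)).image (fun q => r - q), φ D := by
      rw [Finset.sum_image]
      intro a ha b hb hab
      simp only [coe_filter, mem_range, Set.mem_ofPred_eq] at ha hb
      simp only at hab
      omega
    rw [e1]
    apply Finset.sum_le_sum_of_subset_of_nonneg
    · intro D hD
      simp only [mem_image, mem_filter, mem_range, mem_Ico] at hD ⊢
      obtain ⟨q, hq, rfl⟩ := hD
      omega
    · intro i _ _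
      exact hφ i
  rw [h1]
  linarith

theorem weyl_vdc {ι : Type*} (s : Finset ι) (z : ι → ℕ → ℂ) (K H : ℕ) (hH : 1 ≤ H) (hHK : H ≤ K)
    (hz : ∀ i ∈ s, ∀ k, k ∉ Ioc K (2 * K) → z i k = 0) :
    ∑ i ∈ s, ‖∑ k ∈ Ioc K (2 * K), z i k‖ ^ 2 ≤
      (2 * (K : ℝ) / H) * (∑ i ∈ s, ∑ k ∈ Ioc K (2 * K), ‖z i k‖ ^ 2 +
        2 * ∑ D ∈ Ico 1 H, ‖∑ i ∈ s, ∑ k ∈ Ioc K (2 * K), z i k * star (z i (k + D))‖) := by
  have hHpos : (0 : ℝ) < H := by exact_mod_cast hH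
  set G : ℕ → ℂ := fun D => ∑ i ∈ s, ∑ k ∈ Ioc K (2 * K), z i k * star (z i (k + D)) with hG
  have hG0 : ‖G 0‖ ≤ ∑ i ∈ s, ∑ k ∈ Ioc K (2 * K), ‖z i k‖ ^ 2 := by
    refine (norm_sum_le _ _).trans (Finset.sum_le_sum fun i _ => ?_)
    refine (norm_sum_le _ _).trans (Finset.sum_le_sum fun k _ => ?_)
    rw [norm_mul, norm_star, add_zero, sq]
  have h1 : (∑ i ∈ s, ∑ t ∈ Ioc (K - H) (2 * K), ‖∑ r ∈ range H, z i (t + r)‖ ^ 2) ≤
      H * (‖G 0‖ + 2 * ∑ D ∈ Ico 1 H, ‖G D‖) := by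
    have e1 : ((∑ i ∈ s, ∑ t ∈ Ioc (K - H) (2 * K), ‖∑ r ∈ range H, z i (t + r)‖ ^ 2 : ℝ) : ℂ) =
        ∑ r ∈ range H, ∑ q ∈ range H, if r ≤ q then G (q - r) else star (G (r - q)) := by
      rw [Complex.ofReal_sum, Finset.sum_congr rfl (fun i hi => wv_norm (z i) K H hHK (hz i hi)),
        Finset.sum_comm]
      apply Finset.sum_congr rfl
      intro r _
      rw [Finset.sum_comm]
      apply Finset.sum_congr rfl
      intro q _
      split_ifs with h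
      · rfl
      · rw [hG]
        simp only [star_sum]
    have e2 : (∑ i ∈ s, ∑ t ∈ Ioc (K - H) (2 * K), ‖∑ r ∈ range H, z i (t + r)‖ ^ 2) ≤
        ‖((∑ i ∈ s, ∑ t ∈ Ioc (K - H) (2 * K), ‖∑ r ∈ range H, z i (t + r)‖ ^ 2 : ℝ) : ℂ)‖ := by
      rw [Complex.norm_real]
      exact Real.le_norm_self _
    refine e2.trans ?_
    rw [e1]
    refine (norm_sum_le _ _).trans ?_
    have e3 : ∀ r ∈ range H, ‖∑ q ∈ range H, if r ≤ q then G (q - r) else star (G (r - q))‖ ≤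
        ‖G 0‖ + 2 * ∑ D ∈ Ico 1 H, ‖G D‖ := by
      intro r hr
      refine (norm_sum_le _ _).trans ?_
      refine le_trans (le_of_eq ?_) (wv_row (fun D => ‖G D‖) (fun D => norm_nonneg _) H r
        (mem_range.1 hr))
      apply Finset.sum_congr rfl
      intro q _
      split_ifs with h
      · rfl
      · exact norm_star _
    refine (Finset.sum_le_sum e3).trans ?_
    rw [Finset.sum_const, Finset.card_range, nsmul_eq_mul]
  have h2 : (H : ℝ) ^ 2 * ∑ i ∈ s, ‖∑ k ∈ Ioc K (2 * K), z i k‖ ^ 2 ≤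
      2 * K * ∑ i ∈ s, ∑ t ∈ Ioc (K - H) (2 * K), ‖∑ r ∈ range H, z i (t + r)‖ ^ 2 := by
    rw [Finset.mul_sum, Finset.mul_sum]
    exact Finset.sum_le_sum fun i hi => wv_cs (z i) K H hHK (hz i hi)
  have h3 : (H : ℝ) ^ 2 * ∑ i ∈ s, ‖∑ k ∈ Ioc K (2 * K), z i k‖ ^ 2 ≤
      2 * K * (H * (∑ i ∈ s, ∑ k ∈ Ioc K (2 * K), ‖z i k‖ ^ 2 +
        2 * ∑ D ∈ Ico 1 H, ‖G D‖)) := by
    refine h2.trans ?_
    gcongr
    refine h1.trans ?_
    gcongr
  rw [div_mul_eq_mul_div, le_div_iff₀ hHpos]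
  have h4 : (H : ℝ) * ((∑ i ∈ s, ‖∑ k ∈ Ioc K (2 * K), z i k‖ ^ 2) * H) ≤
      H * (2 * K * (∑ i ∈ s, ∑ k ∈ Ioc K (2 * K), ‖z i k‖ ^ 2 +
        2 * ∑ D ∈ Ico 1 H, ‖G D‖)) := by
    calc (H : ℝ) * ((∑ i ∈ s, ‖∑ k ∈ Ioc K (2 * K), z i k‖ ^ 2) * H)
        = (H : ℝ) ^ 2 * ∑ i ∈ s, ‖∑ k ∈ Ioc K (2 * K), z i k‖ ^ 2 := by ring
      _ ≤ _ := h3
      _ = _ := by ring
  exact le_of_mul_le_mul_left h4 hHpos

end Pool.Agent.Helper98.Bern
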