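import Mathlib
import Pool.Agent.Helper98.Bern.Defs
import Pool.Agent.Helper98.Bern.SD

/-!
Van der Corput bound for the type II differences.
-/

namespace Pool.Agent.Helper98.Bern

open Finset

/-- the second difference of a fraction -/
lemma T2_sd (A x t : ℝ) (hx : 1 ≤ x) (ht : 1 ≤ t) (hxt : 1 < x * t) :
    A / (x * (t + 2) - 1) - 2 * (A / (x * (t + 1) - 1)) + A / (x * t - 1)
      = 2 * A / (x * (t - 1 / x) * (t + 1 - 1 / x) * (t + 2 - 1 / x)) := by
  have h0 : x * t - 1 ≠ 0 := by intro h; linarith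
  have h1 : x * (t + 1) - 1 ≠ 0 := by intro h; nlinarith
  have h2 : x * (t + 2) - 1 ≠ 0 := by intro h; nlinarith
  have hx0 : x ≠ 0 := by intro h; linarith
  have e0 : t - 1 / x = (x * t - 1) / x := by field_simp
  have e1 : t + 1 - 1 / x = (x * (t + 1) - 1) / x := by field_simp
  have e2 : t + 2 - 1 / x = (x * (t + 2) - 1) / x := by field_simp
  rw [e0, e1, e2]
  field_simp
  ring

/-- comparison of the second differences -/
lemma T2_cmp (A k l t : ℝ) (hA : 0 ≤ A) (hk : 1 ≤ k) (hkl : k ≤ l) (ht : 1 ≤ t) (hkt : 2 ≤ k * t) :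
    2 * A * (l - k) / (k * l * (27 * t ^ 3)) ≤
      2 * A / (k * (t - 1 / k) * (t + 1 - 1 / k) * (t + 2 - 1 / k)) -
      2 * A / (l * (t - 1 / l) * (t + 1 - 1 / l) * (t + 2 - 1 / l)) ∧
    2 * A / (k * (t - 1 / k) * (t + 1 - 1 / k) * (t + 2 - 1 / k)) -
      2 * A / (l * (t - 1 / l) * (t + 1 - 1 / l) * (t + 2 - 1 / l)) ≤
      432 * A * (l - k) / (k * l * t ^ 3) := by
  have hk0 : 0 < k := by linarith
  have hl0 : 0 < l := by linarith
  have ht0 : 0 < t := by linarith
  have a1 : 1 / k ≤ 1 := by rw [div_le_one hk0]; exact hk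
  have a2 : 1 / l ≤ 1 / k := one_div_le_one_div_of_le hk0 hkl
  have a3 : 0 < 1 / l := by positivity
  have a4 : 1 / k ≤ t / 2 := by rw [div_le_iff₀ hk0]; linarith
  have a5 : k * (1 / k) = 1 := by field_simp
  have a6 : l * (1 / l) = 1 := by field_simp
  generalize hα : 1 / k = α at *
  generalize hβ : 1 / l = β at *
  have p0 : t / 2 ≤ t - α := by linarith
  have p1 : t ≤ t + 1 - α := by linarith
  have p2 : t ≤ t + 2 - α := by linarith
  have q0 : t - α ≤ t - β := by linarith
  have q1 : t + 1 - α ≤ t + 1 - β := by linarith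
  have q2 : t + 2 - α ≤ t + 2 - β := by linarith
  have r0 : t - β ≤ t + 2 := by linarith
  have r1 : t + 1 - β ≤ t + 2 := by linarith
  have r2 : t + 2 - β ≤ t + 2 := by linarith
  have n0 : 0 ≤ t - α := by linarith
  have n1 : 0 ≤ t + 1 - α := by linarith
  have n2 : 0 ≤ t + 2 - α := by linarith
  have n3 : 0 ≤ t - β := by linarith
  have n4 : 0 ≤ t + 1 - β := by linarith
  have n5 : 0 ≤ t + 2 - β := by linarith
  set P : ℝ := (t - α) * (t + 1 - α) * (t + 2 - α) with hP
  set Q : ℝ := (t - β) * (t + 1 - β) * (t + 2 - β) with hQ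
  have hP0 : t ^ 3 / 2 ≤ P := by
    calc t ^ 3 / 2 = t / 2 * t * t := by ring
      _ ≤ (t - α) * (t + 1 - α) * (t + 2 - α) := by gcongr
  have ht3 : 0 < t ^ 3 := by positivity
  have hPpos : 0 < P := by linarith
  have hPQ : P ≤ Q := by
    rw [hP, hQ]; gcongr
  have hQ0 : Q ≤ (t + 2) ^ 3 := by
    calc Q = (t - β) * (t + 1 - β) * (t + 2 - β) := hQ
      _ ≤ (t + 2) * (t + 2) * (t + 2) := by gcongr
      _ = (t + 2) ^ 3 := by ring
  have h27 : (t + 2) ^ 3 ≤ 27 * t ^ 3 := by
    calc (t + 2) ^ 3 ≤ (3 * t) ^ 3 := by gcongr; linarith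
      _ = 27 * t ^ 3 := by ring
  have e1 : k * (t - α) * (t + 1 - α) * (t + 2 - α) = k * P := by rw [hP]; ring
  have e2 : l * (t - β) * (t + 1 - β) * (t + 2 - β) = l * Q := by rw [hQ]; ring
  rw [e1, e2]
  have hQpos : 0 < Q := by linarith
  have e3 : 2 * A / (k * P) - 2 * A / (l * Q) = 2 * A * ((l * Q - k * P) / (k * l * (P * Q))) := by
    field_simp
  rw [e3]
  constructor
  · have h1 : (l - k) / (k * l * (27 * t ^ 3)) ≤ (l * Q - k * P) / (k * l * (P * Q)) := by
      rw [div_le_div_iff₀ (by positivity) (by positivity)]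
      have h2 : (l - k) * P ≤ l * Q - k * P := by nlinarith
      have h3 : Q ≤ 27 * t ^ 3 := by linarith
      calc (l - k) * (k * l * (P * Q)) = ((l - k) * P) * (k * l) * Q := by ring
        _ ≤ (l * Q - k * P) * (k * l) * (27 * t ^ 3) := by
            have : 0 ≤ (l - k) * P := by
              have : 0 ≤ l - k := by linarith
              positivity
            have : 0 ≤ (l * Q - k * P) * (k * l) := by
              have : 0 ≤ l * Q - k * P := by linarith
              positivity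
            gcongr
        _ = _ := by ring
    calc 2 * A * (l - k) / (k * l * (27 * t ^ 3)) = 2 * A * ((l - k) / (k * l * (27 * t ^ 3))) := by ring
      _ ≤ _ := by gcongr
  · have hδ : k * (α - β) ≤ l - k := by
      have : k * (α - β) = 1 - k * β := by rw [mul_sub, a5]
      rw [this]
      have h4 : l * β = 1 := a6
      have h5 : β ≤ 1 := by linarith
      nlinarith
    have hδ0 : 0 ≤ α - β := by linarith
    have hQP : Q - P ≤ (α - β) * (3 * (t + 2) ^ 2) := by
      have f1 : Q - P = (α - β) * ((t + 1 - β) * (t + 2 - β)) + (α - β) * ((t - α) * (t + 2 - β))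
          + (α - β) * ((t - α) * (t + 1 - α)) := by rw [hP, hQ]; ring
      have f2 : (t + 1 - β) * (t + 2 - β) ≤ (t + 2) * (t + 2) := by gcongr
      have f3 : (t - α) * (t + 2 - β) ≤ (t + 2) * (t + 2) := by
        gcongr
        linarith
      have f4 : (t - α) * (t + 1 - α) ≤ (t + 2) * (t + 2) := by
        gcongr
        · linarith
        · linarith
      rw [f1]
      have g1 := mul_le_mul_of_nonneg_left f2 hδ0
      have g2 := mul_le_mul_of_nonneg_left f3 hδ0
      have g3 := mul_le_mul_of_nonneg_left f4 hδ0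
      nlinarith
    have hnum : l * Q - k * P ≤ (l - k) * (54 * t ^ 3) := by
      have f1 : l * Q - k * P = (l - k) * Q + k * (Q - P) := by ring
      have f2 : k * (Q - P) ≤ (l - k) * (3 * (t + 2) ^ 2) := by
        calc k * (Q - P) ≤ k * ((α - β) * (3 * (t + 2) ^ 2)) := by gcongr
          _ = (k * (α - β)) * (3 * (t + 2) ^ 2) := by ring
          _ ≤ _ := by gcongr
      have f3 : 3 * (t + 2) ^ 2 ≤ 27 * t ^ 3 := by
        have : (t + 2) ^ 2 ≤ (3 * t) ^ 2 := by gcongr; linarith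
        nlinarith [sq_nonneg t]
      have hlk : 0 ≤ l - k := by linarith
      have f4 : (l - k) * Q ≤ (l - k) * (27 * t ^ 3) := by gcongr; linarith
      have f5 : (l - k) * (3 * (t + 2) ^ 2) ≤ (l - k) * (27 * t ^ 3) := by gcongr
      rw [f1]
      nlinarith
    have h1 : (l * Q - k * P) / (k * l * (P * Q)) ≤ 216 * (l - k) / (k * l * t ^ 3) := by
      have hden : k * l * (t ^ 3 / 2 * (t ^ 3 / 2)) ≤ k * l * (P * Q) := by
        have : t ^ 3 / 2 ≤ Q := by linarith
        gcongr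
      calc (l * Q - k * P) / (k * l * (P * Q)) ≤ ((l - k) * (54 * t ^ 3)) / (k * l * (t ^ 3 / 2 * (t ^ 3 / 2))) := by
            have hlk : 0 ≤ l - k := by linarith
            have : 0 ≤ (l - k) * (54 * t ^ 3) := by positivity
            gcongr
        _ = 216 * (l - k) / (k * l * t ^ 3) := by
            field_simp
            ring
    calc 2 * A * ((l * Q - k * P) / (k * l * (P * Q))) ≤ 2 * A * (216 * (l - k) / (k * l * t ^ 3)) := by gcongr
      _ = _ := by ring

theorem typeII : ∃ C : ℝ, 0 < C ∧ ∀ (A : ℝ) (P K k l a b : ℕ), (P : ℝ) ^ 2 / 16 ≤ A → 1 ≤ P →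
    1 ≤ K → K ≤ P → K < k → k < l → l ≤ 2 * K →
    (∀ j ∈ Ico a b, P < k * j ∧ l * j ≤ 4 * P) →
    ‖∑ j ∈ Ico a b, ee (ph A (k * j) - ph A (l * j))‖ ≤
      C * √(A * ((l : ℝ) - k) / (P * K)) := by
  refine ⟨5 * 746496 + 4800, by norm_num, ?_⟩
  intro A P K k l a b hA hP hK hKP hk hkl hl hj
  have hX0 : 0 ≤ √(A * ((l : ℝ) - k) / (P * K)) := Real.sqrt_nonneg _
  rcases le_or_gt b a with hba | hab
  · rw [Ico_eq_empty (by omega), sum_empty, norm_zero]
    positivity
  have hP1 : (1 : ℝ) ≤ P := by exact_mod_cast hP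
  have hK1 : (1 : ℝ) ≤ K := by exact_mod_cast hK
  have hk1 : (K : ℝ) + 1 ≤ k := by exact_mod_cast hk
  have hl1 : (k : ℝ) + 1 ≤ l := by exact_mod_cast hkl
  have hl2 : (l : ℝ) ≤ 2 * K := by exact_mod_cast hl
  have hA0 : 0 < A := lt_of_lt_of_le (by positivity) hA
  have hP0 : (0 : ℝ) < P := by linarith
  have hK0 : (0 : ℝ) < K := by linarith
  have hD0 : (1 : ℝ) ≤ (l : ℝ) - k := by linarith
  set X : ℝ := A * ((l : ℝ) - k) / (P * K) with hX
  set lam : ℝ := A * ((l : ℝ) - k) * K / (864 * P ^ 3) with hlam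
  have hDpos : (0 : ℝ) < (l : ℝ) - k := by linarith
  have hXpos : 0 < X := by rw [hX]; positivity
  have hlampos : 0 < lam := by rw [hlam]; positivity
  have key := second_diff (fun j => ph A (k * j) - ph A (l * j)) a b hab.le lam 746496 hlampos (by norm_num) (by
    intro j hja hjb
    obtain ⟨h1, h2⟩ := hj j (mem_Ico.2 ⟨hja, by omega⟩)
    have h1' : (P : ℝ) + 1 ≤ k * j := by exact_mod_cast h1
    have h2' : (l : ℝ) * j ≤ 4 * P := by exact_mod_cast h2
    have hj1 : (1 : ℝ) ≤ j := by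
      have : j ≠ 0 := by
        rintro rfl
        simp at h1
      exact_mod_cast Nat.one_le_iff_ne_zero.2 this
    have hj0 : (0 : ℝ) < j := by linarith
    have hk0 : (0 : ℝ) < k := by linarith
    have hl0 : (0 : ℝ) < l := by linarith
    have e : (ph A (k * (j + 2)) - ph A (l * (j + 2))) - 2 * (ph A (k * (j + 1)) - ph A (l * (j + 1)))
        + (ph A (k * j) - ph A (l * j)) =
        2 * A / ((k : ℝ) * (j - 1 / k) * (j + 1 - 1 / k) * (j + 2 - 1 / k)) -
        2 * A / ((l : ℝ) * (j - 1 / l) * (j + 1 - 1 / l) * (j + 2 - 1 / l)) := by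
      have hkj : 1 < (k : ℝ) * j := by linarith
      have hlj : 1 < (l : ℝ) * j := by nlinarith
      rw [← T2_sd A k j (by linarith) hj1 hkj, ← T2_sd A l j (by linarith) hj1 hlj]
      unfold ph
      push_cast
      ring
    rw [e]
    obtain ⟨c1, c2⟩ := T2_cmp A k l j hA0.le (by linarith) (by linarith) hj1 (by linarith)
    have hjK : (K : ℝ) * j ≤ 4 * P := by nlinarith
    have hj2 : (j : ℝ) ≤ 4 * P / K := by rw [le_div_iff₀ hK0]; linarith
    have hkj2 : (k : ℝ) * j ≤ 4 * P := by nlinarith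
    constructor
    · refine le_trans ?_ c1
      rw [hlam, div_le_div_iff₀ (by positivity) (by positivity)]
      -- k l t^3 * 27 * K ≤ 1728 P^3
      have h3 : (k : ℝ) * j * (l * j) * (K * j) ≤ 4 * P * (4 * P) * (4 * P) := by gcongr
      have h4 : 0 ≤ A * ((l : ℝ) - k) := by positivity
      have h5 := mul_le_mul_of_nonneg_left h3 h4
      nlinarith
    · refine c2.trans ?_
      rw [hlam]
      have h3 : (P : ℝ) * P * P ≤ (k * j) * (l * j) * (2 * K * j) := by
        have : (P : ℝ) ≤ k * j := by linarith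
        have : (P : ℝ) ≤ l * j := by nlinarith
        have : (P : ℝ) ≤ 2 * K * j := by nlinarith
        gcongr
      rw [show 746496 * (A * ((l : ℝ) - k) * K / (864 * P ^ 3)) = (864 * (A * ((l : ℝ) - k)) * K) / P ^ 3 by
        field_simp; norm_num]
      rw [div_le_div_iff₀ (by positivity) (by positivity)]
      have h4 : 0 ≤ 432 * (A * ((l : ℝ) - k)) := by positivity
      have h5 := mul_le_mul_of_nonneg_left h3 h4
      nlinarith)
  refine key.trans ?_
  have hba' : (b : ℝ) - a ≤ 4 * P / K := by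
    obtain ⟨b', rfl⟩ : ∃ b', b = b' + 1 := ⟨b - 1, by omega⟩
    obtain ⟨h1, h2⟩ := hj b' (mem_Ico.2 ⟨by omega, by omega⟩)
    obtain ⟨h3, h4⟩ := hj a (mem_Ico.2 ⟨le_rfl, hab⟩)
    have ha1 : 1 ≤ a := by
      rcases Nat.eq_zero_or_pos a with h | h
      · subst h; simp at h3
      · exact h
    have ha1' : (1 : ℝ) ≤ a := by exact_mod_cast ha1
    have h2' : (l : ℝ) * b' ≤ 4 * P := by exact_mod_cast h2
    rw [le_div_iff₀ hK0]
    push_cast
    have : (K : ℝ) * b' ≤ l * b' := by gcongr; linarith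
    nlinarith
  have hs : 0 < √lam := Real.sqrt_pos.2 hlampos
  have i1 : √lam * ((b : ℝ) - a) ≤ √X := by
    rcases le_or_gt ((b : ℝ) - a) 0 with h | h
    · have := mul_nonpos_of_nonneg_of_nonpos hs.le h
      linarith
    · rw [show (b : ℝ) - a = √(((b : ℝ) - a) ^ 2) by rw [Real.sqrt_sq h.le], ← Real.sqrt_mul hlampos.le]
      apply Real.sqrt_le_sqrt
      calc lam * ((b : ℝ) - a) ^ 2 ≤ lam * (4 * P / K) ^ 2 := by gcongr
        _ = (16 / 864) * X := by rw [hlam, hX]; field_simp; norm_num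
        _ ≤ X := by linarith
  have i2 : 1 / 480 ≤ √lam * √X := by
    rw [← Real.sqrt_mul hlampos.le]
    apply Real.le_sqrt_of_sq_le
    have e : lam * X = (A * ((l : ℝ) - k)) ^ 2 / (864 * P ^ 4) := by rw [hlam, hX]; field_simp
    rw [e, le_div_iff₀ (by positivity)]
    have h1 : (P : ℝ) ^ 2 / 16 * 1 ≤ A * ((l : ℝ) - k) := by gcongr
    have h2 : ((P : ℝ) ^ 2 / 16 * 1) ^ 2 ≤ (A * ((l : ℝ) - k)) ^ 2 := by gcongr
    nlinarith [pow_pos hP0 4]
  have i3 : lam = √lam * √lam := (Real.mul_self_sqrt hlampos.le).symm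
  rw [div_le_iff₀ hs]
  have i4 : lam * ((b : ℝ) - a) = √lam * (√lam * ((b : ℝ) - a)) := by rw [← mul_assoc, ← i3]
  have i5 : √lam * (√lam * ((b : ℝ) - a)) ≤ √lam * √X := by gcongr
  nlinarith

end Pool.Agent.Helper98.Bern
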