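import Mathlib
import Pool.Agent.Helper98.Bern.Defs
import Pool.Agent.Helper98.Bern.WV
import Pool.Agent.Helper98.Bern.T2

/-!
The bilinear estimate.
-/

namespace Pool.Agent.Helper98.Bern

open Finset

/-- the number of multiples -/
lemma BL_card (K Q : ℕ) (hK : 1 ≤ K) (R : ℕ) : (((Icc 1 R).filter (fun m => K * m ≤ Q)).card : ℝ) ≤ Q / K := by
  have hK0 : (0 : ℝ) < K := by exact_mod_cast hK
  have h1 : (Icc 1 R).filter (fun m => K * m ≤ Q) ⊆ Icc 1 (Q / K) := by
    intro m hm
    rw [mem_filter, mem_Icc] at hm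
    rw [mem_Icc]
    refine ⟨hm.1.1, ?_⟩
    rw [Nat.le_div_iff_mul_le (by omega), mul_comm]
    exact hm.2
  have h2 := card_le_card h1
  rw [Nat.card_Icc, Nat.add_sub_cancel] at h2
  calc (((Icc 1 R).filter (fun m => K * m ≤ Q)).card : ℝ) ≤ ((Q / K : ℕ) : ℝ) := by exact_mod_cast h2
    _ ≤ Q / K := Nat.cast_div_le

theorem bilinear : ∃ C : ℝ, 0 < C ∧ ∀ (A : ℝ) (P K H : ℕ) (α β : ℕ → ℂ),
    (P : ℝ) ^ 2 / 16 ≤ A → 1 ≤ P → 1 ≤ H → H ≤ K → K ≤ P →
    (∀ k, ‖α k‖ ≤ 1) → (∀ m, ‖β m‖ ≤ 1) →
    ‖∑ k ∈ Ioc K (2 * K), ∑ m ∈ (Icc 1 (4 * P)).filter (fun m => P < k * m ∧ k * m ≤ 4 * P),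
      α k * β m * ee (ph A (k * m))‖ ^ 2 ≤
      C * ((P : ℝ) ^ 2 / H + P * √(A * H * K / P)) := by
  obtain ⟨C, hC, hII⟩ := typeII
  refine ⟨32 + 16 * C, by positivity, ?_⟩
  intro A P K H α β hA hP hH hHK hKP hα hβ
  have hP1 : (1 : ℝ) ≤ P := by exact_mod_cast hP
  have hH1 : (1 : ℝ) ≤ H := by exact_mod_cast hH
  have hK : 1 ≤ K := le_trans hH hHK
  have hK1 : (1 : ℝ) ≤ K := by exact_mod_cast hK
  have hP0 : (0 : ℝ) < P := by linarith
  have hK0 : (0 : ℝ) < K := by linarith
  have hH0 : (0 : ℝ) < H := by linarith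
  have hA0 : 0 < A := lt_of_lt_of_le (by positivity) hA
  classical
  set s : Finset ℕ := (Icc 1 (4 * P)).filter (fun m => K * m ≤ 4 * P) with hs
  set z : ℕ → ℕ → ℂ := fun m k => if k ∈ Ioc K (2 * K) ∧ P < k * m ∧ k * m ≤ 4 * P then
    α k * ee (ph A (k * m)) else 0 with hz
  have hscard : (s.card : ℝ) ≤ 4 * P / K := by
    have := BL_card K (4 * P) hK (4 * P)
    rw [← hs] at this
    push_cast at this
    exact this
  -- rewriting the sum
  have e1 : ∑ k ∈ Ioc K (2 * K), ∑ m ∈ (Icc 1 (4 * P)).filter (fun m => P < k * m ∧ k * m ≤ 4 * P),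
      α k * β m * ee (ph A (k * m)) = ∑ m ∈ s, β m * ∑ k ∈ Ioc K (2 * K), z m k := by
    have e2 : ∀ k ∈ Ioc K (2 * K), ∑ m ∈ (Icc 1 (4 * P)).filter (fun m => P < k * m ∧ k * m ≤ 4 * P),
        α k * β m * ee (ph A (k * m)) = ∑ m ∈ s, β m * z m k := by
      intro k hk
      rw [hs, sum_filter, sum_filter]
      apply sum_congr rfl
      intro m _
      have hkK : K < k := (mem_Ioc.1 hk).1
      by_cases h : P < k * m ∧ k * m ≤ 4 * P
      · have h3 : K * m ≤ 4 * P := le_trans (Nat.mul_le_mul_right m hkK.le) h.2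
        rw [if_pos h, if_pos h3]
        simp only [hz]
        rw [if_pos ⟨hk, h⟩]
        ring
      · have h9 : z m k = 0 := by
          simp only [hz]
          rw [if_neg (fun hh => h hh.2)]
        rw [if_neg h, h9, mul_zero, ite_self]
    rw [sum_congr rfl e2, sum_comm]
    apply sum_congr rfl
    intro m _
    rw [mul_sum]
  rw [e1]
  -- Cauchy
  have c1 : ‖∑ m ∈ s, β m * ∑ k ∈ Ioc K (2 * K), z m k‖ ^ 2 ≤
      s.card * ∑ m ∈ s, ‖∑ k ∈ Ioc K (2 * K), z m k‖ ^ 2 := by
    calc ‖∑ m ∈ s, β m * ∑ k ∈ Ioc K (2 * K), z m k‖ ^ 2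
        ≤ (∑ m ∈ s, ‖∑ k ∈ Ioc K (2 * K), z m k‖) ^ 2 := by
          gcongr
          refine (norm_sum_le _ _).trans ?_
          apply sum_le_sum
          intro m _
          rw [norm_mul]
          have := hβ m
          have h0 : 0 ≤ ‖∑ k ∈ Ioc K (2 * K), z m k‖ := norm_nonneg _
          nlinarith
      _ ≤ s.card * ∑ m ∈ s, ‖∑ k ∈ Ioc K (2 * K), z m k‖ ^ 2 := sq_sum_le_card_mul_sum_sq
  -- Weyl
  have c2 := weyl_vdc s z K H hH hHK (by
    intro i _ k hk
    simp only [hz]
    rw [if_neg (fun hh => hk hh.1)])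
  -- the diagonal
  have c3 : ∑ m ∈ s, ∑ k ∈ Ioc K (2 * K), ‖z m k‖ ^ 2 ≤ 4 * P := by
    rw [sum_comm]
    calc ∑ k ∈ Ioc K (2 * K), ∑ m ∈ s, ‖z m k‖ ^ 2 ≤ ∑ k ∈ Ioc K (2 * K), (4 * (P : ℝ) / K) := by
          apply sum_le_sum
          intro k hk
          calc ∑ m ∈ s, ‖z m k‖ ^ 2 ≤ ∑ m ∈ s, 1 := by
                apply sum_le_sum
                intro m _
                simp only [hz]
                split_ifs
                · rw [norm_mul, norm_ee, mul_one]
                  have := hα k
                  have h0 : 0 ≤ ‖α k‖ := norm_nonneg _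
                  nlinarith
                · simp
            _ = s.card := by simp
            _ ≤ _ := hscard
      _ = 4 * P := by
          rw [sum_const, Nat.card_Ioc, nsmul_eq_mul]
          have : ((2 * K - K : ℕ) : ℝ) = K := by
            have : 2 * K - K = K := by omega
            rw [this]
          rw [this]
          field_simp
  -- the off-diagonal terms
  have c4 : ∀ D ∈ Ico 1 H, ‖∑ m ∈ s, ∑ k ∈ Ioc K (2 * K), z m k * star (z m (k + D))‖ ≤
      K * (C * √(A * H / (P * K))) := by
    intro D hD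
    rw [mem_Ico] at hD
    have hD1 : (D : ℝ) ≤ H := by exact_mod_cast hD.2.le
    rw [sum_comm]
    calc ‖∑ k ∈ Ioc K (2 * K), ∑ m ∈ s, z m k * star (z m (k + D))‖
        ≤ ∑ k ∈ Ioc K (2 * K), ‖∑ m ∈ s, z m k * star (z m (k + D))‖ := norm_sum_le _ _
      _ ≤ ∑ k ∈ Ioc K (2 * K), C * √(A * H / (P * K)) := by
          apply sum_le_sum
          intro k hk
          have hk' := mem_Ioc.1 hk
          by_cases hkD : k + D ≤ 2 * K
          · have hkD' : k + D ∈ Ioc K (2 * K) := mem_Ioc.2 ⟨by omega, hkD⟩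
            have e3 : ∑ m ∈ s, z m k * star (z m (k + D)) = (α k * star (α (k + D))) *
                ∑ m ∈ Ico (P / k + 1) (4 * P / (k + D) + 1), ee (ph A (k * m) - ph A ((k + D) * m)) := by
              have e4 : ∀ m ∈ s, z m k * star (z m (k + D)) = if P < k * m ∧ (k + D) * m ≤ 4 * P then
                  (α k * star (α (k + D))) * ee (ph A (k * m) - ph A ((k + D) * m)) else 0 := by
                intro m _
                simp only [hz]
                by_cases h : P < k * m ∧ (k + D) * m ≤ 4 * P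
                · have h5 : k * m ≤ (k + D) * m := Nat.mul_le_mul_right m (by omega)
                  rw [if_pos h, if_pos ⟨hk, h.1, h5.trans h.2⟩, if_pos ⟨hkD', lt_of_lt_of_le h.1 h5, h.2⟩,
                    ee_sub, star_mul']
                  ring
                · rw [if_neg h]
                  by_cases h6 : k ∈ Ioc K (2 * K) ∧ P < k * m ∧ k * m ≤ 4 * P
                  · have h7 : ¬ (k + D ∈ Ioc K (2 * K) ∧ P < (k + D) * m ∧ (k + D) * m ≤ 4 * P) := by
                      intro h8
                      exact h ⟨h6.2.1, h8.2.2⟩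
                    rw [if_neg h7, star_zero, mul_zero]
                  · rw [if_neg h6, zero_mul]
              rw [sum_congr rfl e4, ← sum_filter, mul_sum]
              apply sum_congr _ (fun _ _ => rfl)
              ext m
              rw [hs, mem_filter, mem_filter, mem_Icc, mem_Ico]
              have hk0 : 0 < k := by omega
              have hkD0 : 0 < k + D := by omega
              have i1 : P < k * m ↔ P / k + 1 ≤ m := by
                rw [Nat.succ_le_iff, Nat.div_lt_iff_lt_mul hk0, mul_comm]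
              have i2 : (k + D) * m ≤ 4 * P ↔ m < 4 * P / (k + D) + 1 := by
                rw [Nat.lt_succ_iff, Nat.le_div_iff_mul_le hkD0, mul_comm]
              rw [i1, i2]
              constructor
              · rintro ⟨_, h⟩; exact h
              · rintro ⟨h8, h9⟩
                have h10 : (k + D) * m ≤ 4 * P := i2.2 h9
                refine ⟨⟨⟨le_trans (Nat.succ_le_succ (Nat.zero_le _)) h8, ?_⟩, ?_⟩, h8, h9⟩
                · exact le_trans (Nat.le_mul_of_pos_left m hkD0) h10
                · exact le_trans (Nat.mul_le_mul_right m (by omega)) h10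
            rw [e3, norm_mul, norm_mul, norm_star]
            have h11 := hII A P K k (k + D) (P / k + 1) (4 * P / (k + D) + 1) hA hP hK hKP hk'.1 (by omega) hkD (by
              intro j hj
              rw [mem_Ico] at hj
              have hk0 : 0 < k := by omega
              have hkD0 : 0 < k + D := by omega
              constructor
              · have := hj.1
                rw [Nat.succ_le_iff, Nat.div_lt_iff_lt_mul hk0, mul_comm] at this
                exact this
              · have := hj.2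
                rw [Nat.lt_succ_iff, Nat.le_div_iff_mul_le hkD0, mul_comm] at this
                exact this)
            have h12 : √(A * (((k + D : ℕ) : ℝ) - k) / (P * K)) ≤ √(A * H / (P * K)) := by
              apply Real.sqrt_le_sqrt
              have : ((k + D : ℕ) : ℝ) - k = D := by push_cast; ring
              rw [this]
              gcongr
            have h13 : ‖α k‖ * ‖α (k + D)‖ ≤ 1 := by
              have := hα k
              have := hα (k + D)
              have h0 : 0 ≤ ‖α k‖ := norm_nonneg _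
              have h0 : 0 ≤ ‖α (k + D)‖ := norm_nonneg _
              nlinarith
            calc ‖α k‖ * ‖α (k + D)‖ * ‖∑ m ∈ Ico (P / k + 1) (4 * P / (k + D) + 1),
                  ee (ph A (k * m) - ph A ((k + D) * m))‖
                ≤ 1 * (C * √(A * (((k + D : ℕ) : ℝ) - k) / (P * K))) := by gcongr
              _ ≤ 1 * (C * √(A * H / (P * K))) := by gcongr
              _ = _ := one_mul _
          · have e3 : ∑ m ∈ s, z m k * star (z m (k + D)) = 0 := by
              apply sum_eq_zero
              intro m _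
              have : z m (k + D) = 0 := by
                simp only [hz]
                rw [if_neg]
                rintro ⟨h, _⟩
                rw [mem_Ioc] at h
                omega
              rw [this, star_zero, mul_zero]
            rw [e3, norm_zero]
            positivity
      _ = K * (C * √(A * H / (P * K))) := by
          rw [sum_const, Nat.card_Ioc, nsmul_eq_mul]
          have : ((2 * K - K : ℕ) : ℝ) = K := by
            have : 2 * K - K = K := by omega
            rw [this]
          rw [this]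
  have c5 : ∑ D ∈ Ico 1 H, ‖∑ m ∈ s, ∑ k ∈ Ioc K (2 * K), z m k * star (z m (k + D))‖ ≤
      H * (K * (C * √(A * H / (P * K)))) := by
    calc _ ≤ ∑ D ∈ Ico 1 H, K * (C * √(A * H / (P * K))) := sum_le_sum c4
      _ = ((H - 1 : ℕ) : ℝ) * (K * (C * √(A * H / (P * K)))) := by
          rw [sum_const, Nat.card_Ico, nsmul_eq_mul]
      _ ≤ _ := by
          have : ((H - 1 : ℕ) : ℝ) ≤ H := by exact_mod_cast Nat.sub_le H 1
          gcongr
  have c6 : (K : ℝ) * √(A * H / (P * K)) = √(A * H * K / P) := by
    rw [show (K : ℝ) * √(A * H / (P * K)) = √((K : ℝ) ^ 2) * √(A * H / (P * K)) by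
      rw [Real.sqrt_sq hK0.le], ← Real.sqrt_mul (by positivity)]
    congr 1
    field_simp
  calc ‖∑ m ∈ s, β m * ∑ k ∈ Ioc K (2 * K), z m k‖ ^ 2
      ≤ s.card * ∑ m ∈ s, ‖∑ k ∈ Ioc K (2 * K), z m k‖ ^ 2 := c1
    _ ≤ (4 * P / K) * ((2 * (K : ℝ) / H) * (4 * P + 2 * (H * (K * (C * √(A * H / (P * K))))))) := by
        gcongr
        refine c2.trans ?_
        gcongr
    _ = 32 * ((P : ℝ) ^ 2 / H) + 16 * C * (P * (K * √(A * H / (P * K)))) := by
        field_simp
        ring
    _ = 32 * ((P : ℝ) ^ 2 / H) + 16 * C * (P * √(A * H * K / P)) := by rw [c6]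
    _ ≤ (32 + 16 * C) * ((P : ℝ) ^ 2 / H + P * √(A * H * K / P)) := by
        have h1 : 0 ≤ (P : ℝ) ^ 2 / H := by positivity
        have h2 : 0 ≤ P * √(A * H * K / P) := by positivity
        have h3 := mul_nonneg hC.le h1
        nlinarith

end Pool.Agent.Helper98.Bern
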