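import Mathlib
import Pool.Agent.Helper98.Bern.Defs

/-!
Fejer kernel: small exponential sums give a small fractional part.
-/

namespace Pool.Agent.Helper98.Bern

open Finset

private lemma fk_row (φ : ℕ → ℝ) (hφ : ∀ n, 0 ≤ φ n) (H r : ℕ) (hr : r < H) :
    ∑ q ∈ range H, (if r ≤ q then φ (q - r) else φ (r - q)) ≤
      φ 0 + 2 * ∑ D ∈ Ico 1 H, φ D := by
  have h1 : ∑ q ∈ range H, (if r ≤ q then φ (q - r) else φ (r - q)) =
      ∑ q ∈ (range H).filter (fun q => r ≤ q), φ (q - r) +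
      ∑ q ∈ (range H).filter (fun q => ¬ r ≤ q), φ (r - q) := by
    rw [Finset.sum_ite]
  have h2 : ∑ q ∈ (range H).filter (fun q => r ≤ q), φ (q - r) ≤ φ 0 + ∑ D ∈ Ico 1 H, φ D := by
    have e1 : ∑ q ∈ (range H).filter (fun q => r ≤ q), φ (q - r) =
        ∑ D ∈ ((range H).filter (fun q => r ≤ q)).image (fun q => q - r), φ D := by
      rw [Finset.sum_image]
      intro a ha b hb hab
      simp only [coe_filter, mem_range, Set.mem_ofPred_eq] at ha hb
      simp only at hab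
      omega
    have e2 : φ 0 + ∑ D ∈ Ico 1 H, φ D = ∑ D ∈ range H, φ D := by
      rw [Finset.range_eq_Ico, Finset.sum_eq_sum_Ico_succ_bot (by omega : 0 < H)]
    rw [e1, e2]
    apply Finset.sum_le_sum_of_subset_of_nonneg
    · intro D hD
      simp only [mem_image, mem_filter, mem_range] at hD ⊢
      obtain ⟨q, hq, rfl⟩ := hD
      omega
    · intro i _ _
      exact hφ i
  have h3 : ∑ q ∈ (range H).filter (fun q => ¬ r ≤ q), φ (r - q) ≤ ∑ D ∈ Ico 1 H, φ D := by
    have e1 : ∑ q ∈ (range H).filter (fun q => ¬ r ≤ q), φ (r - q) =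
        ∑ D ∈ ((range H).filter (fun q => ¬ r ≤ q)).image (fun q => r - q), φ D := by
      rw [Finset.sum_image]
      intro a ha b hb hab
      simp only [coe_filter, mem_range, Set.mem_ofPred_eq] at ha hb
      simp only at hab
      omega
    rw [e1]
    apply Finset.sum_le_sum_of_subset_of_nonneg
    · intro D hD
      simp only [mem_image, mem_filter, mem_range, mem_Ico] at hD ⊢
      obtain ⟨q, hq, rfl⟩ := hD
      omega
    · intro i _ _
      exact hφ i
  rw [h1]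
  linarith

private lemma fk_sin (η y : ℝ) (h1 : η / 2 ≤ y) (h2 : y ≤ 1 - η / 2) (hη : 0 < η) :
    η ≤ Real.sin (Real.pi * y) := by
  have hpi := Real.pi_pos
  rcases le_total y (1 / 2) with h | h
  · have := Real.mul_le_sin (x := Real.pi * y) (mul_nonneg hpi.le (by linarith)) (by nlinarith)
    have e : 2 / Real.pi * (Real.pi * y) = 2 * y := by field_simp
    rw [e] at this
    linarith
  · have := Real.mul_le_sin (x := Real.pi * (1 - y)) (by
      apply mul_nonneg hpi.le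
      linarith) (by nlinarith)
    have e : 2 / Real.pi * (Real.pi * (1 - y)) = 2 * (1 - y) := by field_simp
    rw [e] at this
    have e2 : Real.sin (Real.pi * (1 - y)) = Real.sin (Real.pi * y) := by
      rw [← Real.sin_pi_sub (Real.pi * y)]
      congr 1
      ring
    rw [e2] at this
    linarith

private lemma fk_norm (y : ℝ) : ‖ee y - 1‖ = |2 * Real.sin (Real.pi * y)| := by
  have h := Complex.norm_exp_I_mul_ofReal_sub_one (2 * Real.pi * y)
  have e : ee y = Complex.exp (Complex.I * ((2 * Real.pi * y : ℝ) : ℂ)) := by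
    unfold ee
    congr 1
    push_cast
    ring
  rw [e, h, Real.norm_eq_abs]
  congr 3
  ring

private lemma fk_geom (x η : ℝ) (J : ℕ) (hη : 0 < η) (hx : η < Int.fract x) :
    ‖∑ j ∈ range J, ee ((j : ℝ) * (x - η / 2))‖ ≤ 1 / η := by
  have hlt := Int.fract_lt_one x
  have e1 : ∀ j ∈ range J, ee ((j : ℝ) * (x - η / 2)) = ee (x - η / 2) ^ j :=
    fun j _ => ee_nat_mul _ _
  rw [Finset.sum_congr rfl e1]
  have e2 : ee (x - η / 2) = ee (Int.fract x - η / 2) := by
    rw [← ee_add_int (Int.fract x - η / 2) ⌊x⌋]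
    congr 1
    have := Int.fract_add_floor x
    linarith
  have e3 := geom_sum_mul (ee (x - η / 2)) J
  have e4 : ‖∑ j ∈ range J, ee (x - η / 2) ^ j‖ * ‖ee (x - η / 2) - 1‖ ≤ 2 := by
    rw [← norm_mul, e3]
    refine (norm_sub_le _ _).trans ?_
    rw [norm_pow, norm_ee, one_pow, norm_one]
    norm_num
  have e5 : 2 * η ≤ ‖ee (x - η / 2) - 1‖ := by
    rw [e2, fk_norm]
    have := fk_sin η (Int.fract x - η / 2) (by linarith) (by linarith) hη
    rw [abs_of_nonneg (by linarith)]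
    linarith
  rw [le_div_iff₀ hη]
  have e6 : ‖∑ j ∈ range J, ee (x - η / 2) ^ j‖ * (2 * η) ≤ 2 := by
    refine le_trans ?_ e4
    gcongr
  linarith

theorem exists_small_fract (s : Finset ℕ) (w x : ℕ → ℝ) (hw : ∀ q ∈ s, 0 ≤ w q) (η : ℝ)
    (hη : 0 < η) (hη1 : η ≤ 1) (J : ℕ) (hJ : 2 / η ^ 2 ≤ J)
    (hS : 4 * ∑ h ∈ Ico 1 J, ‖∑ q ∈ s, ((w q : ℝ) : ℂ) * ee ((h : ℝ) * x q)‖ < ∑ q ∈ s, w q) :
    ∃ q ∈ s, 0 < w q ∧ Int.fract (x q) ≤ η := by
  by_contra hcon
  push Not at hcon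
  have hJpos : (0 : ℝ) < J := lt_of_lt_of_le (by positivity) hJ
  set W : ℝ := ∑ q ∈ s, w q with hW
  set φ : ℕ → ℝ := fun h =>
    if h = 0 then 0 else ‖∑ q ∈ s, ((w q : ℝ) : ℂ) * ee ((h : ℝ) * x q)‖ with hφ
  have hφ0 : ∀ n, 0 ≤ φ n := by
    intro n
    simp only [hφ]
    split_ifs
    · exact le_rfl
    · exact norm_nonneg _
  have hφS : ∑ h ∈ Ico 1 J, φ h =
      ∑ h ∈ Ico 1 J, ‖∑ q ∈ s, ((w q : ℝ) : ℂ) * ee ((h : ℝ) * x q)‖ := by
    apply Finset.sum_congr rfl
    intro h hh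
    rw [mem_Ico] at hh
    simp only [hφ]
    rw [if_neg (by omega)]
  set t : ℕ → ℝ := fun q => x q - η / 2 with ht
  -- upper bound
  have hup : ∑ q ∈ s, w q * ‖∑ j ∈ range J, ee ((j : ℝ) * t q)‖ ^ 2 ≤ W * (1 / η ^ 2) := by
    rw [hW, Finset.sum_mul]
    apply Finset.sum_le_sum
    intro q hq
    rcases (hw q hq).eq_or_lt with h | h
    · rw [← h]
      simp
    · have h1 := fk_geom (x q) η J hη (hcon q hq h)
      have h2 : ‖∑ j ∈ range J, ee ((j : ℝ) * t q)‖ ^ 2 ≤ (1 / η) ^ 2 := by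
        gcongr
      have h3 : (1 / η) ^ 2 = 1 / η ^ 2 := by
        rw [div_pow, one_pow]
      rw [h3] at h2
      exact mul_le_mul_of_nonneg_left h2 h.le
  -- expansion
  have hexp : ((∑ q ∈ s, w q * ‖∑ j ∈ range J, ee ((j : ℝ) * t q)‖ ^ 2 : ℝ) : ℂ) =
      ∑ j ∈ range J, ∑ l ∈ range J, ∑ q ∈ s,
        ((w q : ℝ) : ℂ) * (ee ((j : ℝ) * t q) * star (ee ((l : ℝ) * t q))) := by
    have h1 : ∀ q, ((w q * ‖∑ j ∈ range J, ee ((j : ℝ) * t q)‖ ^ 2 : ℝ) : ℂ) =
        ∑ j ∈ range J, ∑ l ∈ range J,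
          ((w q : ℝ) : ℂ) * (ee ((j : ℝ) * t q) * star (ee ((l : ℝ) * t q))) := by
      intro q
      have h2 : ((‖∑ j ∈ range J, ee ((j : ℝ) * t q)‖ ^ 2 : ℝ) : ℂ) =
          ∑ j ∈ range J, ∑ l ∈ range J, ee ((j : ℝ) * t q) * star (ee ((l : ℝ) * t q)) := by
        rw [← Finset.sum_mul_sum, ← star_sum, Complex.star_def, Complex.mul_conj,
          Complex.normSq_eq_norm_sq]
      rw [Complex.ofReal_mul, h2, Finset.mul_sum]
      apply Finset.sum_congr rfl
      intro j _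
      rw [Finset.mul_sum]
    rw [Complex.ofReal_sum, Finset.sum_congr rfl (fun q _ => h1 q), Finset.sum_comm]
    apply Finset.sum_congr rfl
    intro j _
    rw [Finset.sum_comm]
  -- bound of each term
  have hterm : ∀ j l : ℕ, (if j = l then W else 0) - (if j ≤ l then φ (l - j) else φ (j - l)) ≤
      (∑ q ∈ s, ((w q : ℝ) : ℂ) * (ee ((j : ℝ) * t q) * star (ee ((l : ℝ) * t q)))).re := by
    intro j l
    have key : ∀ a b : ℕ, b < a →
        ‖∑ q ∈ s, ((w q : ℝ) : ℂ) * (ee ((a : ℝ) * t q) * star (ee ((b : ℝ) * t q)))‖ =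
          φ (a - b) := by
      intro a b hab
      have h0 : ((a - b : ℕ) : ℝ) = (a : ℝ) - b := by
        rw [Nat.cast_sub hab.le]
      simp only [hφ]
      rw [if_neg (by omega)]
      have h1 : ∑ q ∈ s, ((w q : ℝ) : ℂ) * (ee ((a : ℝ) * t q) * star (ee ((b : ℝ) * t q))) =
          (∑ q ∈ s, ((w q : ℝ) : ℂ) * ee (((a - b : ℕ) : ℝ) * x q)) *
            ee (-(((a : ℝ) - b) * (η / 2))) := by
        rw [Finset.sum_mul]
        apply Finset.sum_congr rfl
        intro q _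
        rw [← ee_sub, mul_assoc, ← ee_add, h0]
        congr 2
        simp only [ht]
        ring
      rw [h1, norm_mul, norm_ee, mul_one]
    rcases lt_trichotomy j l with h | h | h
    · rw [if_neg h.ne, if_pos h.le]
      have h1 : (∑ q ∈ s, ((w q : ℝ) : ℂ) * (ee ((j : ℝ) * t q) * star (ee ((l : ℝ) * t q)))) =
          star (∑ q ∈ s, ((w q : ℝ) : ℂ) * (ee ((l : ℝ) * t q) * star (ee ((j : ℝ) * t q)))) := by
        rw [star_sum]
        apply Finset.sum_congr rfl
        intro q _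
        rw [star_mul, star_mul, star_star]
        have : star ((w q : ℝ) : ℂ) = ((w q : ℝ) : ℂ) := Complex.conj_ofReal _
        rw [this]
        ring
      have h2 := key l j h
      have h3 : ‖(∑ q ∈ s, ((w q : ℝ) : ℂ) *
          (ee ((j : ℝ) * t q) * star (ee ((l : ℝ) * t q))))‖ = φ (l - j) := by
        rw [h1, norm_star, h2]
      have h4 := Complex.abs_re_le_norm (∑ q ∈ s, ((w q : ℝ) : ℂ) *
          (ee ((j : ℝ) * t q) * star (ee ((l : ℝ) * t q))))
      rw [h3] at h4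
      have h5 := neg_abs_le (∑ q ∈ s, ((w q : ℝ) : ℂ) *
          (ee ((j : ℝ) * t q) * star (ee ((l : ℝ) * t q)))).re
      linarith
    · subst h
      rw [if_pos rfl, if_pos le_rfl, Nat.sub_self]
      have h1 : (∑ q ∈ s, ((w q : ℝ) : ℂ) * (ee ((j : ℝ) * t q) * star (ee ((j : ℝ) * t q)))) =
          ((W : ℝ) : ℂ) := by
        rw [hW, Complex.ofReal_sum]
        apply Finset.sum_congr rfl
        intro q _
        rw [← ee_sub, sub_self]
        have : ee 0 = 1 := by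
          have := ee_int 0
          simpa using this
        rw [this, mul_one]
      rw [h1, Complex.ofReal_re]
      simp [hφ]
    · rw [if_neg h.ne', if_neg (by omega)]
      have h2 := key j l h
      have h4 := Complex.abs_re_le_norm (∑ q ∈ s, ((w q : ℝ) : ℂ) *
          (ee ((j : ℝ) * t q) * star (ee ((l : ℝ) * t q))))
      rw [h2] at h4
      have h5 := neg_abs_le (∑ q ∈ s, ((w q : ℝ) : ℂ) *
          (ee ((j : ℝ) * t q) * star (ee ((l : ℝ) * t q)))).re
      linarith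
  have hlow : (J : ℝ) * (W - 2 * ∑ h ∈ Ico 1 J, φ h) ≤
      ∑ q ∈ s, w q * ‖∑ j ∈ range J, ee ((j : ℝ) * t q)‖ ^ 2 := by
    have h1 : (∑ q ∈ s, w q * ‖∑ j ∈ range J, ee ((j : ℝ) * t q)‖ ^ 2) =
        (∑ j ∈ range J, ∑ l ∈ range J, (∑ q ∈ s,
        ((w q : ℝ) : ℂ) * (ee ((j : ℝ) * t q) * star (ee ((l : ℝ) * t q)))).re) := by
      have h2 := congrArg Complex.re hexp
      rw [Complex.ofReal_re, Complex.re_sum] at h2
      rw [h2]
      apply Finset.sum_congr rfl
      intro j _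
      rw [Complex.re_sum]
    rw [h1]
    have h3 : ∀ j ∈ range J, W - 2 * ∑ h ∈ Ico 1 J, φ h ≤ ∑ l ∈ range J, (∑ q ∈ s,
        ((w q : ℝ) : ℂ) * (ee ((j : ℝ) * t q) * star (ee ((l : ℝ) * t q)))).re := by
      intro j hj
      have h4 := fk_row φ hφ0 J j (mem_range.1 hj)
      have h5 : ∑ l ∈ range J, ((if j = l then W else 0) -
          (if j ≤ l then φ (l - j) else φ (j - l))) ≤ ∑ l ∈ range J, (∑ q ∈ s,
        ((w q : ℝ) : ℂ) * (ee ((j : ℝ) * t q) * star (ee ((l : ℝ) * t q)))).re :=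
        Finset.sum_le_sum fun l _ => hterm j l
      rw [Finset.sum_sub_distrib, Finset.sum_ite_eq, if_pos hj] at h5
      have h6 : φ 0 = 0 := by simp [hφ]
      linarith
    have h4 := Finset.sum_le_sum h3
    rw [Finset.sum_const, Finset.card_range, nsmul_eq_mul] at h4
    exact h4
  have hW0 : 0 ≤ W := Finset.sum_nonneg hw
  have h1 : W * (1 / η ^ 2) ≤ W * (J / 2) := by
    apply mul_le_mul_of_nonneg_left _ hW0
    have : 2 / η ^ 2 = 2 * (1 / η ^ 2) := by ring
    linarith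
  have h2 : (J : ℝ) * (W - 2 * ∑ h ∈ Ico 1 J, φ h) ≤ W * (J / 2) := hlow.trans (hup.trans h1)
  have h3 : (J : ℝ) * (W - 4 * ∑ h ∈ Ico 1 J, φ h) ≤ 0 := by nlinarith
  have h4 : W - 4 * ∑ h ∈ Ico 1 J, φ h ≤ 0 := by
    by_contra h5
    push Not at h5
    have := mul_pos hJpos h5
    linarith
  rw [hφS] at h4
  linarith

end Pool.Agent.Helper98.Bern
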