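import Pool.Agent.Helper98.Bern.LS
import Pool.Agent.Helper98.Bern.FK
import Pool.Agent.Helper98.Bern.CH

/-!
Existence of a prime `p` of size about `√n` such that `n / (p - 1)` is close to an integer.
-/

namespace Pool.Agent.Helper98.Bern

open Finset Filter

private lemma ep_event (C c : ℝ) (hC : 0 < C) (hc : 0 < c) : ∀ᶠ x : ℝ in atTop,
    4 * (6 * 10 ^ 9 * (x ^ (1 / 50 : ℝ)) ^ 3) *
      (C * Real.log x ^ 2 * x ^ (11 / 12 : ℝ) + x ^ (3 / 4 : ℝ)) < c * x := by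
  have h1 : ∀ᶠ x : ℝ in atTop, ‖Real.log x ^ (2 : ℝ)‖ ≤
      (c / (96 * 10 ^ 9 * C)) * ‖x ^ (1 / 100 : ℝ)‖ :=
    (isLittleO_log_rpow_rpow_atTop (2 : ℝ) (show (0 : ℝ) < 1 / 100 by norm_num)).def
      (by positivity)
  have h2 : ∀ᶠ x : ℝ in atTop, x ^ (-(19 / 100) : ℝ) < c / (96 * 10 ^ 9) :=
    (tendsto_rpow_neg_atTop (show (0 : ℝ) < 19 / 100 by norm_num)).eventually_lt_const
      (by positivity)
  filter_upwards [h1, h2, eventually_ge_atTop (1 : ℝ)] with x h1 h2 hx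
  have hx0 : (0 : ℝ) < x := by linarith
  have e1 : (x ^ (1 / 50 : ℝ)) ^ 3 = x ^ (3 / 50 : ℝ) := by
    rw [← Real.rpow_natCast, ← Real.rpow_mul hx0.le]
    norm_num
  have hlog : Real.log x ^ 2 ≤ (c / (96 * 10 ^ 9 * C)) * x ^ (1 / 100 : ℝ) := by
    have e3 : Real.log x ^ (2 : ℝ) = Real.log x ^ 2 := Real.rpow_two _
    rw [e3, Real.norm_of_nonneg (sq_nonneg _),
      Real.norm_of_nonneg (Real.rpow_nonneg hx0.le _)] at h1
    exact h1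
  have e4 : x ^ (3 / 50 : ℝ) * (x ^ (1 / 100 : ℝ) * x ^ (11 / 12 : ℝ)) ≤ x := by
    rw [← Real.rpow_add hx0, ← Real.rpow_add hx0]
    calc x ^ (3 / 50 + (1 / 100 + 11 / 12) : ℝ) ≤ x ^ (1 : ℝ) :=
          Real.rpow_le_rpow_of_exponent_le hx (by norm_num)
      _ = x := Real.rpow_one x
  have e5 : x ^ (3 / 50 : ℝ) * x ^ (3 / 4 : ℝ) = x * x ^ (-(19 / 100) : ℝ) := by
    rw [← Real.rpow_add hx0]
    nth_rewrite 2 [← Real.rpow_one x]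
    rw [← Real.rpow_add hx0]
    norm_num
  rw [e1]
  have e6 : (0 : ℝ) ≤ x ^ (3 / 50 : ℝ) := Real.rpow_nonneg hx0.le _
  have e7 : (0 : ℝ) ≤ x ^ (11 / 12 : ℝ) := Real.rpow_nonneg hx0.le _
  have s1 : C * Real.log x ^ 2 * x ^ (11 / 12 : ℝ) ≤
      C * ((c / (96 * 10 ^ 9 * C)) * x ^ (1 / 100 : ℝ)) * x ^ (11 / 12 : ℝ) :=
    mul_le_mul_of_nonneg_right (mul_le_mul_of_nonneg_left hlog hC.le) e7
  have s2 : C * ((c / (96 * 10 ^ 9 * C)) * x ^ (1 / 100 : ℝ)) * x ^ (11 / 12 : ℝ) =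
      c / (96 * 10 ^ 9) * (x ^ (1 / 100 : ℝ) * x ^ (11 / 12 : ℝ)) := by
    field_simp
  have s3 : 4 * (6 * 10 ^ 9 * x ^ (3 / 50 : ℝ)) *
      (C * Real.log x ^ 2 * x ^ (11 / 12 : ℝ) + x ^ (3 / 4 : ℝ)) ≤
      24 * 10 ^ 9 * (c / (96 * 10 ^ 9) * (x ^ (3 / 50 : ℝ) *
        (x ^ (1 / 100 : ℝ) * x ^ (11 / 12 : ℝ))) + x ^ (3 / 50 : ℝ) * x ^ (3 / 4 : ℝ)) := by
    rw [s2] at s1
    have := mul_le_mul_of_nonneg_left (add_le_add s1 (le_refl (x ^ (3 / 4 : ℝ))))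
      (show 0 ≤ 4 * (6 * 10 ^ 9 * x ^ (3 / 50 : ℝ)) by positivity)
    refine this.trans (le_of_eq ?_)
    ring
  refine s3.trans_lt ?_
  rw [e5]
  have s4 : c / (96 * 10 ^ 9) * (x ^ (3 / 50 : ℝ) * (x ^ (1 / 100 : ℝ) * x ^ (11 / 12 : ℝ))) ≤
      c / (96 * 10 ^ 9) * x := mul_le_mul_of_nonneg_left e4 (by positivity)
  have s5 : x * x ^ (-(19 / 100) : ℝ) < x * (c / (96 * 10 ^ 9)) :=
    mul_lt_mul_of_pos_left h2 hx0
  have s6 : 24 * 10 ^ 9 * (c / (96 * 10 ^ 9) * x + x * (c / (96 * 10 ^ 9))) < c * x := by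
    have : 0 < c * x := by positivity
    have e8 : 24 * 10 ^ 9 * (c / (96 * 10 ^ 9) * x + x * (c / (96 * 10 ^ 9))) = c * x / 2 := by
      ring
    rw [e8]
    linarith
  nlinarith

private lemma ep_main (C c : ℝ) (hC : 0 < C) (P0 : ℕ) (hLS : ∀ (A : ℝ) (P : ℕ), 4096 ≤ P →
      (P : ℝ) ^ 2 / 16 ≤ A →
      ‖∑ q ∈ Ioc P (4 * P), ((ArithmeticFunction.vonMangoldt q : ℝ) : ℂ) * ee (ph A q)‖ ≤
        C * (Real.log P) ^ 2 * ((P : ℝ) ^ (11 / 12 : ℝ) * √(A / (P : ℝ) ^ 2)))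
    (hCH : ∀ P : ℕ, P0 ≤ P →
      c * P ≤ ∑ q ∈ (Ioc P (4 * P)).filter Nat.Prime, Real.log q ∧
      ∀ z : ℕ → ℂ, (∀ q, ‖z q‖ ≤ 1) →
        ‖∑ q ∈ (Ioc P (4 * P)).filter Nat.Prime, ((Real.log q : ℝ) : ℂ) * z q -
          ∑ q ∈ Ioc P (4 * P), ((ArithmeticFunction.vonMangoldt q : ℝ) : ℂ) * z q‖ ≤
            (P : ℝ) ^ (3 / 4 : ℝ))
    (n P : ℕ) (hP : 4096 ≤ P) (hP0 : P0 ≤ P) (hn1 : (P : ℝ) ^ 2 ≤ 16 * n)
    (hn2 : 4 * (n : ℝ) ≤ (P : ℝ) ^ 2)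
    (hev : 4 * (6 * 10 ^ 9 * ((P : ℝ) ^ (1 / 50 : ℝ)) ^ 3) *
      (C * Real.log P ^ 2 * (P : ℝ) ^ (11 / 12 : ℝ) + (P : ℝ) ^ (3 / 4 : ℝ)) < c * P) :
    ∃ p : ℕ, p.Prime ∧ P < p ∧ p ≤ 4 * P ∧
      Int.fract ((n : ℝ) / ((p : ℝ) - 1)) ≤ 1 / (1000 * (n : ℝ) ^ (1 / 100 : ℝ)) := by
  have hPr : (4096 : ℝ) ≤ P := by exact_mod_cast hP
  have hP1 : (0 : ℝ) < P := by linarith
  have hn0 : (1 : ℝ) ≤ n := by nlinarith
  set a : ℝ := (n : ℝ) ^ (1 / 100 : ℝ) with ha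
  set b : ℝ := (P : ℝ) ^ (1 / 50 : ℝ) with hb
  have ha1 : 1 ≤ a := Real.one_le_rpow hn0 (by norm_num)
  have hb1 : 1 ≤ b := Real.one_le_rpow (by linarith) (by norm_num)
  have hab : a ≤ b := by
    have h1 : (n : ℝ) ≤ (P : ℝ) ^ (2 : ℝ) := by
      rw [Real.rpow_two]
      linarith
    calc a ≤ ((P : ℝ) ^ (2 : ℝ)) ^ (1 / 100 : ℝ) :=
          Real.rpow_le_rpow (by linarith) h1 (by norm_num)
      _ = b := by
          rw [← Real.rpow_mul hP1.le]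
          norm_num [hb]
  set η : ℝ := 1 / (1000 * a) with hη
  have hη0 : 0 < η := by positivity
  have hη1 : η ≤ 1 := by
    rw [hη, div_le_one (by positivity)]
    linarith
  set J : ℕ := ⌈2 / η ^ 2⌉₊ with hJdef
  have h2η : 2 / η ^ 2 = 2 * 10 ^ 6 * a ^ 2 := by
    rw [hη]
    field_simp
    norm_num
  have hJ : (J : ℝ) ≤ 3 * 10 ^ 6 * b ^ 2 := by
    have h1 : (J : ℝ) < 2 / η ^ 2 + 1 := Nat.ceil_lt_add_one (by positivity)
    rw [h2η] at h1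
    nlinarith
  have hJs : √(J : ℝ) ≤ 2000 * b := by
    rw [Real.sqrt_le_left (by positivity)]
    nlinarith
  obtain ⟨hth, hz⟩ := hCH P hP0
  have hsum : ∀ h ∈ Ico 1 J, ‖∑ q ∈ (Ioc P (4 * P)).filter Nat.Prime,
      ((Real.log q : ℝ) : ℂ) * ee ((h : ℝ) * ((n : ℝ) / ((q : ℝ) - 1)))‖ ≤
      √(J : ℝ) * (C * Real.log P ^ 2 * (P : ℝ) ^ (11 / 12 : ℝ) + (P : ℝ) ^ (3 / 4 : ℝ)) := by
    intro h hh
    rw [mem_Ico] at hh
    have hh1 : (1 : ℝ) ≤ h := by exact_mod_cast hh.1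
    have hh2 : (h : ℝ) ≤ J := by exact_mod_cast hh.2.le
    have e1 := hz (fun q => ee ((h : ℝ) * ((n : ℝ) / ((q : ℝ) - 1)))) fun q => (norm_ee _).le
    have e2 := hLS (h * n) P hP (by nlinarith)
    have e3 : ∀ q ∈ Ioc P (4 * P), ((ArithmeticFunction.vonMangoldt q : ℝ) : ℂ) *
        ee ((h : ℝ) * ((n : ℝ) / ((q : ℝ) - 1))) =
        ((ArithmeticFunction.vonMangoldt q : ℝ) : ℂ) * ee (ph (h * n) q) := by
      intro q _
      rw [ph, mul_div_assoc]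
    rw [sum_congr rfl e3] at e1
    have e4 : √((h : ℝ) * n / (P : ℝ) ^ 2) ≤ √(J : ℝ) := by
      refine Real.sqrt_le_sqrt ?_
      rw [div_le_iff₀ (by positivity)]
      nlinarith
    have e5 : (1 : ℝ) ≤ √(J : ℝ) := by
      rw [Real.one_le_sqrt]
      linarith
    have e6 : (0 : ℝ) ≤ (P : ℝ) ^ (11 / 12 : ℝ) := Real.rpow_nonneg hP1.le _
    have e7 : (0 : ℝ) ≤ (P : ℝ) ^ (3 / 4 : ℝ) := Real.rpow_nonneg hP1.le _
    have e8 : C * (Real.log P) ^ 2 * ((P : ℝ) ^ (11 / 12 : ℝ) * √((h : ℝ) * n / (P : ℝ) ^ 2)) ≤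
        C * (Real.log P) ^ 2 * ((P : ℝ) ^ (11 / 12 : ℝ) * √(J : ℝ)) :=
      mul_le_mul_of_nonneg_left (mul_le_mul_of_nonneg_left e4 e6) (by positivity)
    have e9 := norm_le_norm_sub_add
      (∑ q ∈ (Ioc P (4 * P)).filter Nat.Prime,
        ((Real.log q : ℝ) : ℂ) * ee ((h : ℝ) * ((n : ℝ) / ((q : ℝ) - 1))))
      (∑ q ∈ Ioc P (4 * P), ((ArithmeticFunction.vonMangoldt q : ℝ) : ℂ) * ee (ph (h * n) q))
    calc _ ≤ _ := e9
      _ ≤ (P : ℝ) ^ (3 / 4 : ℝ) +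
          C * (Real.log P) ^ 2 * ((P : ℝ) ^ (11 / 12 : ℝ) * √(J : ℝ)) :=
          add_le_add e1 (e2.trans e8)
      _ ≤ √(J : ℝ) * (C * Real.log P ^ 2 * (P : ℝ) ^ (11 / 12 : ℝ) + (P : ℝ) ^ (3 / 4 : ℝ)) := by
          nlinarith
  set B : ℝ := C * Real.log P ^ 2 * (P : ℝ) ^ (11 / 12 : ℝ) + (P : ℝ) ^ (3 / 4 : ℝ) with hB
  have hB0 : 0 ≤ B := by positivity
  obtain ⟨q, hq, -, hfr⟩ := exists_small_fract ((Ioc P (4 * P)).filter Nat.Prime)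
    (fun q => Real.log q) (fun q => (n : ℝ) / ((q : ℝ) - 1))
    (fun q _ => Real.log_natCast_nonneg q) η hη0 hη1 J (Nat.le_ceil _) (by
      refine lt_of_lt_of_le ?_ hth
      refine lt_of_le_of_lt ?_ hev
      have h1 := sum_le_sum hsum
      rw [sum_const, Nat.card_Ico, nsmul_eq_mul] at h1
      have h2 : ((J - 1 : ℕ) : ℝ) ≤ J := by exact_mod_cast Nat.sub_le _ _
      have h3 : ((J - 1 : ℕ) : ℝ) * (√(J : ℝ) * B) ≤ J * (√(J : ℝ) * B) :=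
        mul_le_mul_of_nonneg_right h2 (by positivity)
      have h4 : (J : ℝ) * √(J : ℝ) ≤ (3 * 10 ^ 6 * b ^ 2) * (2000 * b) :=
        mul_le_mul hJ hJs (Real.sqrt_nonneg _) (by positivity)
      have h5 := mul_le_mul_of_nonneg_right h4 hB0
      calc _ ≤ 4 * (J * (√(J : ℝ) * B)) := by linarith
        _ = 4 * (J * √(J : ℝ) * B) := by ring
        _ ≤ 4 * ((3 * 10 ^ 6 * b ^ 2) * (2000 * b) * B) := by linarith
        _ = _ := by ring)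
  rw [mem_filter, mem_Ioc] at hq
  exact ⟨q, hq.2, hq.1.1, hq.1.2, hfr⟩

theorem exists_prime : ∃ N0 : ℕ, ∀ n : ℕ, N0 ≤ n → ∃ p : ℕ, p.Prime ∧ 3 ≤ p ∧
    n / (p - 1) < p ∧ n % (p - 1) < n / (p - 1) ∧
    ((n % (p - 1)) * p) ^ 100 ≤ n ^ 99 := by
  obtain ⟨C, hC, hLS⟩ := lambda_sum
  obtain ⟨c, hc, P0, hCH⟩ := theta_interval
  obtain ⟨X, hX⟩ := eventually_atTop.1 (ep_event C c hC hc)
  set M : ℕ := max (max P0 4096) ⌈X⌉₊ with hM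
  refine ⟨M ^ 2, fun n hn => ?_⟩
  set s := Nat.sqrt n with hs
  have hsM : M ≤ s := by
    rw [hs, Nat.le_sqrt']
    exact hn
  have hM1 : 4096 ≤ M := (le_max_right _ _).trans (le_max_left _ _)
  have hM2 : P0 ≤ M := (le_max_left _ _).trans (le_max_left _ _)
  have hM3 : X ≤ M := (Nat.le_ceil X).trans (by exact_mod_cast le_max_right _ _)
  set P : ℕ := 2 * (s + 1) with hPdef
  have hMP : M ≤ P := by omega
  have hs1 : s * s ≤ n := Nat.sqrt_le n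
  have hs2 : n < (s + 1) * (s + 1) := Nat.lt_succ_sqrt n
  have hn1 : (P : ℝ) ^ 2 ≤ 16 * n := by
    have : P ^ 2 ≤ 16 * n := by
      rw [hPdef]
      nlinarith
    exact_mod_cast this
  have hPn : 4 * n ≤ P ^ 2 := by
    rw [hPdef]
    nlinarith
  have hn2 : 4 * (n : ℝ) ≤ (P : ℝ) ^ 2 := by exact_mod_cast hPn
  obtain ⟨p, hp, hPp, hp4, hfr⟩ := ep_main C c hC P0 hLS hCH n P (hM1.trans hMP) (hM2.trans hMP)
    hn1 hn2 (hX P (hM3.trans (by exact_mod_cast hMP)))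
  have hPr : (4096 : ℝ) ≤ P := by exact_mod_cast hM1.trans hMP
  have hn0 : (1 : ℝ) ≤ n := by nlinarith
  have hp1 : ((p - 1 : ℕ) : ℝ) = (p : ℝ) - 1 := by
    rw [Nat.cast_sub hp.one_le, Nat.cast_one]
  rw [← hp1, Int.fract_div_natCast_eq_div_natCast_mod] at hfr
  set e := n % (p - 1) with he
  set a : ℝ := (n : ℝ) ^ (1 / 100 : ℝ) with ha
  have ha1 : 1 ≤ a := Real.one_le_rpow hn0 (by norm_num)
  have ha100 : a ^ 100 = n := by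
    rw [ha, ← Real.rpow_natCast, ← Real.rpow_mul (by linarith)]
    norm_num
  have hpos : (0 : ℝ) < ((p - 1 : ℕ) : ℝ) := by
    have : 0 < p - 1 := by omega
    exact_mod_cast this
  rw [div_le_iff₀ hpos] at hfr
  have hp4r : (p : ℝ) ≤ 4 * P := by exact_mod_cast hp4
  have hp0 : (0 : ℝ) ≤ p := Nat.cast_nonneg p
  have hep : (e : ℝ) * p ≤ (256 / 1000) * (n / a) := by
    have h1 : (e : ℝ) * p ≤ 1 / (1000 * a) * (((p - 1 : ℕ) : ℝ)) * p :=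
      mul_le_mul_of_nonneg_right hfr hp0
    have h2 : ((p - 1 : ℕ) : ℝ) * p ≤ 256 * n := by
      rw [hp1]
      nlinarith
    have h3 : 1 / (1000 * a) * (((p - 1 : ℕ) : ℝ)) * p ≤ 1 / (1000 * a) * (256 * n) := by
      rw [mul_assoc]
      exact mul_le_mul_of_nonneg_left h2 (by positivity)
    refine h1.trans (h3.trans (le_of_eq ?_))
    field_simp
  refine ⟨p, hp, by omega, ?_, ?_, ?_⟩
  · rw [Nat.div_lt_iff_lt_mul (by omega)]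
    have h1 : P + 1 ≤ p := hPp
    have h2 : P ≤ p - 1 := by omega
    have h3 : P * P ≤ p * (p - 1) := Nat.mul_le_mul (by omega) h2
    nlinarith
  · show e + 1 ≤ n / (p - 1)
    rw [Nat.le_div_iff_mul_le (by omega)]
    have h1 : ((e : ℝ) + 1) * ((p - 1 : ℕ) : ℝ) ≤ n := by
      have h2 : (n : ℝ) / a ≤ n := div_le_self (by linarith) ha1
      have h3 : (e : ℝ) * ((p - 1 : ℕ) : ℝ) ≤ e * p := by
        rw [hp1]
        exact mul_le_mul_of_nonneg_left (by linarith) (Nat.cast_nonneg _)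
      have h4 : ((p - 1 : ℕ) : ℝ) ≤ n / 4 := by
        rw [hp1]
        nlinarith
      nlinarith
    exact_mod_cast h1
  · have h1 : (e : ℝ) * p ≤ n / a := by
      have : 0 ≤ (n : ℝ) / a := by positivity
      linarith
    have h2 : ((e : ℝ) * p) ^ 100 ≤ (n : ℝ) ^ 99 := by
      calc ((e : ℝ) * p) ^ 100 ≤ (n / a) ^ 100 :=
            pow_le_pow_left₀ (by positivity) h1 100
        _ = (n : ℝ) ^ 100 / n := by rw [div_pow, ha100]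
        _ = (n : ℝ) ^ 99 := by
            have : (n : ℝ) ≠ 0 := by linarith
            field_simp
    exact_mod_cast h2

end Pool.Agent.Helper98.Bern
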