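import Mathlib
import Pool.Agent.Helper98.Bern.AL
import Pool.Agent.Helper98.Bern.EP

/-!
Assembly.
-/

namespace Pool.Agent.Helper98.Bern

open Finset Polynomial

theorem large_factor : ∃ N0 : ℕ, ∀ n : ℕ, N0 ≤ n → ∃ g : ℚ[X], Irreducible g ∧
    g ∣ Polynomial.bernoulli n ∧ (n - g.natDegree) ^ 100 ≤ n ^ 99 := by
  obtain ⟨N0, hN⟩ := exists_prime
  refine ⟨N0, fun n hn => ?_⟩
  obtain ⟨p, hp, hp3, h1, h2, h3⟩ := hN n hn
  have hdm : n = (n / (p - 1)) * (p - 1) + n % (p - 1) := by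
    have := Nat.div_add_mod n (p - 1)
    rw [mul_comm] at this
    exact this.symm
  obtain ⟨g, hg, hdvd, hdeg⟩ := factor_of_prime n p (n / (p - 1)) (n % (p - 1)) hp hp3 hdm h2 h1
  refine ⟨g, hg, hdvd, le_trans ?_ h3⟩
  apply Nat.pow_le_pow_left
  omega

theorem irreducible_of_part {N0 : ℕ} (hN : ∀ n : ℕ, N0 ≤ n → ∃ g : ℚ[X], Irreducible g ∧
    g ∣ Polynomial.bernoulli n ∧ (n - g.natDegree) ^ 100 ≤ n ^ 99) (n : ℕ) (hn : N0 ≤ n)
    (hn0 : 0 < n) (he : Even n)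
    (hpart : n ^ 99 < (2 ^ n.factorization 2 * 3 ^ n.factorization 3) ^ 100) :
    Irreducible (Polynomial.bernoulli n) := by
  obtain ⟨g, hg, ⟨h, hh⟩, hdeg⟩ := hN n hn
  have hg0 : g ≠ 0 := hg.ne_zero
  have hB := Pool.Agent.Helper29.monic_bernoulli n
  have hh0 : h ≠ 0 := by
    rintro rfl
    rw [mul_zero] at hh
    exact hB.ne_zero hh
  have hsum : n = g.natDegree + h.natDegree := by
    rw [← natDegree_mul hg0 hh0, ← hh, Pool.Agent.Helper29.natDegree_bernoulli]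
  have hhdvd : h ∣ Polynomial.bernoulli n := ⟨g, by rw [hh, mul_comm]⟩
  have hdiv : 2 ^ n.factorization 2 * 3 ^ n.factorization 3 ∣ h.natDegree :=
    Nat.Coprime.mul_dvd_of_dvd_of_dvd (Nat.Coprime.pow _ _ (by norm_num))
      (Pool.Agent.Helper29.two_part hn0 he hhdvd) (Pool.Agent.Helper29.three_part hn0 he hhdvd)
  have hhd : h.natDegree = 0 := by
    by_contra hne
    have h1 := Nat.le_of_dvd (Nat.pos_of_ne_zero hne) hdiv
    have h2 : (n - g.natDegree) = h.natDegree := by omega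
    rw [h2] at hdeg
    have h3 := Nat.pow_le_pow_left h1 100
    omega
  have hu : IsUnit h := by
    rw [eq_C_of_natDegree_eq_zero hhd]
    rw [isUnit_C, isUnit_iff_ne_zero]
    intro h0
    apply hh0
    rw [eq_C_of_natDegree_eq_zero hhd, h0, C_0]
  rw [hh]
  exact (irreducible_mul_isUnit hu).mpr hg

theorem irreducible_uniform {N0 : ℕ} (hN : ∀ n : ℕ, N0 ≤ n → ∃ g : ℚ[X], Irreducible g ∧
    g ∣ Polynomial.bernoulli n ∧ (n - g.natDegree) ^ 100 ≤ n ^ 99) (m r s : ℕ) (hm : 1 ≤ m)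
    (hr : 1 ≤ r) (hm99 : m ^ 99 < 2 ^ r * 3 ^ s) (hn1 : N0 ≤ 2 ^ r * 3 ^ s * m) :
      Irreducible (Polynomial.bernoulli (2 ^ r * 3 ^ s * m)) := by
  set n := 2 ^ r * 3 ^ s * m with hnd
  have hn0 : 0 < n := by positivity
  have he : Even n := by
    rw [hnd, mul_assoc]
    exact Even.mul_right (by
      obtain ⟨t, rfl⟩ : ∃ t, r = t + 1 := ⟨r - 1, by omega⟩
      exact ⟨2 ^ t, by ring⟩) _
  apply irreducible_of_part hN n hn1 hn0 he
  set Q := 2 ^ n.factorization 2 * 3 ^ n.factorization 3 with hQd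
  have hQ2 : 2 ^ r * 3 ^ s ∣ Q := by
    apply mul_dvd_mul
    · apply pow_dvd_pow
      apply (Nat.Prime.pow_dvd_iff_le_factorization Nat.prime_two hn0.ne').mp
      exact ⟨3 ^ s * m, by rw [hnd]; ring⟩
    · apply pow_dvd_pow
      apply (Nat.Prime.pow_dvd_iff_le_factorization Nat.prime_three hn0.ne').mp
      exact ⟨2 ^ r * m, by rw [hnd]; ring⟩
  have hQn : Q ∣ n := by
    apply Nat.Coprime.mul_dvd_of_dvd_of_dvd (Nat.Coprime.pow _ _ (by norm_num))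
    · exact Nat.ordProj_dvd n 2
    · exact Nat.ordProj_dvd n 3
  obtain ⟨t, ht⟩ := hQn
  have hQpos : 0 < Q := by positivity
  have htm : t ≤ m := by
    have h1 : 2 ^ r * 3 ^ s * t ≤ 2 ^ r * 3 ^ s * m := by
      rw [← hnd, ht]
      exact Nat.mul_le_mul_right _ (Nat.le_of_dvd hQpos hQ2)
    exact Nat.le_of_mul_le_mul_left h1 (by positivity)
  have h3 : m ^ 99 < Q := lt_of_lt_of_le hm99 (Nat.le_of_dvd hQpos hQ2)
  calc n ^ 99 = Q ^ 99 * t ^ 99 := by rw [ht, mul_pow]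
    _ ≤ Q ^ 99 * m ^ 99 := Nat.mul_le_mul_left _ (Nat.pow_le_pow_left htm _)
    _ < Q ^ 99 * Q := Nat.mul_lt_mul_of_pos_left h3 (by positivity)
    _ = Q ^ 100 := by rw [← pow_succ]

end Pool.Agent.Helper98.Bern
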