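import Mathlib
import Pool.Agent.Helper98.Bern.SD

/-!
Type I sums.
-/

namespace Pool.Agent.Helper98.Bern

open Finset

lemma T1_diff (A x d : ℝ) (hx : 0 < x) (hd : 0 < d) :
    A / (x + 2 * d) - 2 * (A / (x + d)) + A / x = 2 * A * d ^ 2 / (x * (x + d) * (x + 2 * d)) := by
  have h1 : x + d ≠ 0 := by positivity
  have h2 : x + 2 * d ≠ 0 := by positivity
  have h3 : x ≠ 0 := hx.ne'
  field_simp
  ring

theorem typeI : ∃ C : ℝ, 0 < C ∧ ∀ (A : ℝ) (P d a b : ℕ), (P : ℝ) ^ 2 / 16 ≤ A → 1 ≤ P → 1 ≤ d →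
    d ≤ P → (∀ j ∈ Ico a b, P < d * j ∧ d * j ≤ 4 * P) →
    ‖∑ j ∈ Ico a b, ee (ph A (d * j))‖ ≤ C * √(A / P) := by
  refine ⟨1300, by norm_num, fun A P d a b hA hP hd hdP hj => ?_⟩
  rcases le_or_gt b a with hba | hab
  · rw [Finset.Ico_eq_empty (by omega), Finset.sum_empty, norm_zero]
    positivity
  have hP' : (1 : ℝ) ≤ P := by exact_mod_cast hP
  have hd' : (1 : ℝ) ≤ d := by exact_mod_cast hd
  have hdP' : (d : ℝ) ≤ P := by exact_mod_cast hdP
  have hP0 : (0 : ℝ) < P := by linarith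
  have hd0 : (0 : ℝ) < d := by linarith
  have hA0 : 0 < A := lt_of_lt_of_le (by positivity) hA
  have hlam : 0 < A * (d : ℝ) ^ 2 / (40 * (P : ℝ) ^ 3) := by positivity
  have hsd := second_diff (fun j => ph A (d * j)) a b hab.le (A * (d : ℝ) ^ 2 / (40 * (P : ℝ) ^ 3))
    80 hlam (by norm_num) (by
      intro j h1 h2
      have h3 := hj j (Finset.mem_Ico.mpr ⟨h1, by omega⟩)
      have h4 := hj (j + 1) (Finset.mem_Ico.mpr ⟨by omega, h2⟩)
      have h5 : (P : ℝ) + 1 ≤ d * j := by exact_mod_cast h3.1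
      have h6 : (d : ℝ) * (j + 1) ≤ 4 * P := by exact_mod_cast h4.2
      have e1 : ph A (d * (j + 2)) = A / (((d : ℝ) * j - 1) + 2 * d) := by
        unfold ph
        push_cast
        ring_nf
      have e2 : ph A (d * (j + 1)) = A / (((d : ℝ) * j - 1) + d) := by
        unfold ph
        push_cast
        ring_nf
      have e3 : ph A (d * j) = A / ((d : ℝ) * j - 1) := by
        unfold ph
        push_cast
        ring_nf
      rw [e1, e2, e3, T1_diff A ((d : ℝ) * j - 1) d (by linarith) hd0]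
      set x : ℝ := (d : ℝ) * j - 1 with hx
      have hx1 : (P : ℝ) ≤ x := by linarith
      have hx2 : x + d ≤ 4 * P := by linarith
      have hx3 : x + 2 * d ≤ 5 * P := by linarith
      have hx0 : 0 < x := by linarith
      have hpos : 0 < x * (x + d) * (x + 2 * d) := by positivity
      constructor
      · rw [div_le_div_iff₀ (by positivity) hpos]
        have h7 : x * (x + d) * (x + 2 * d) ≤ (4 * P) * (4 * P) * (5 * P) := by
          have : x ≤ 4 * P := by linarith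
          gcongr
        have h8 : 0 ≤ A * (d : ℝ) ^ 2 := by positivity
        nlinarith [mul_le_mul_of_nonneg_left h7 h8]
      · have h7 : (P : ℝ) * P * P ≤ x * (x + d) * (x + 2 * d) := by
          have : (P : ℝ) ≤ x + d := by linarith
          have : (P : ℝ) ≤ x + 2 * d := by linarith
          gcongr
        have e4 : 80 * (A * (d : ℝ) ^ 2 / (40 * (P : ℝ) ^ 3)) = 2 * A * (d : ℝ) ^ 2 / (P * P * P) := by
          field_simp
          ring
        rw [e4]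
        exact div_le_div_of_nonneg_left (by positivity) (by positivity) h7)
  refine hsd.trans ?_
  have hs0 : 0 < √(A * (d : ℝ) ^ 2 / (40 * (P : ℝ) ^ 3)) := Real.sqrt_pos.mpr hlam
  rw [div_le_iff₀ hs0, mul_assoc 1300, ← Real.sqrt_mul (by positivity)]
  have hlen : (d : ℝ) * ((b : ℝ) - a) ≤ 4 * P := by
    have h3 := (hj a (Finset.mem_Ico.mpr ⟨le_rfl, hab⟩)).1
    have h4 := (hj (b - 1) (Finset.mem_Ico.mpr ⟨by omega, by omega⟩)).2
    have h5 : (P : ℝ) + 1 ≤ d * a := by exact_mod_cast h3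
    have h6 : (d : ℝ) * ((b - 1 : ℕ) : ℝ) ≤ 4 * P := by exact_mod_cast h4
    rw [Nat.cast_sub (by omega)] at h6
    push_cast at h6
    linarith
  have h7 : A * d / (6.5 * (P : ℝ) ^ 2) ≤ √(A / P * (A * (d : ℝ) ^ 2 / (40 * (P : ℝ) ^ 3))) := by
    apply Real.le_sqrt_of_sq_le
    have e1 : A / P * (A * (d : ℝ) ^ 2 / (40 * (P : ℝ) ^ 3)) =
        A ^ 2 * (d : ℝ) ^ 2 / (P : ℝ) ^ 4 / 40 := by
      field_simp
    have e2 : (A * d / (6.5 * (P : ℝ) ^ 2)) ^ 2 = A ^ 2 * (d : ℝ) ^ 2 / (P : ℝ) ^ 4 / 42.25 := by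
      field_simp
      norm_num
    rw [e1, e2]
    have h0 : 0 ≤ A ^ 2 * (d : ℝ) ^ 2 / (P : ℝ) ^ 4 := by positivity
    exact div_le_div_of_nonneg_left h0 (by norm_num) (by norm_num)
  have h8 : 80 * (A * (d : ℝ) ^ 2 / (40 * (P : ℝ) ^ 3)) * ((b : ℝ) - a) ≤ 8 * (A * d / (P : ℝ) ^ 2) := by
    have e1 : 80 * (A * (d : ℝ) ^ 2 / (40 * (P : ℝ) ^ 3)) * ((b : ℝ) - a) =
        2 * A * d / (P : ℝ) ^ 3 * (d * ((b : ℝ) - a)) := by
      field_simp
      ring
    have e2 : 8 * (A * d / (P : ℝ) ^ 2) = 2 * A * d / (P : ℝ) ^ 3 * (4 * P) := by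
      field_simp
      ring
    rw [e1, e2]
    exact mul_le_mul_of_nonneg_left hlen (by positivity)
  have h9 : 1 ≤ 16 * (A * d / (P : ℝ) ^ 2) := by
    rw [mul_div_assoc', le_div_iff₀ (by positivity)]
    nlinarith
  have e3 : A * d / (6.5 * (P : ℝ) ^ 2) = (A * d / (P : ℝ) ^ 2) / 6.5 := by
    field_simp
  rw [e3] at h7
  generalize √(A / P * (A * (d : ℝ) ^ 2 / (40 * (P : ℝ) ^ 3))) = S at h7 ⊢
  generalize 80 * (A * (d : ℝ) ^ 2 / (40 * (P : ℝ) ^ 3)) * ((b : ℝ) - a) = Y at h8 ⊢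
  generalize A * d / (P : ℝ) ^ 2 = X at h7 h8 h9
  have h10 : X ≤ 6.5 * S := by
    rw [div_le_iff₀ (by norm_num)] at h7
    linarith
  norm_num at h10
  linarith

end Pool.Agent.Helper98.Bern
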