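import Mathlib
import Pool.Agent.Helper98.Bern.Defs
import Pool.Agent.Helper98.Bern.T1
import Pool.Agent.Helper98.Bern.BL
import Pool.Agent.Helper98.Bern.VI

/-!
The exponential sum over primes.
-/

namespace Pool.Agent.Helper98.Bern

open Finset

/-! ### auxiliary lemmas for LS -/

lemma LS_log_mono {m n : ℕ} (h : m ≤ n) : Real.log m ≤ Real.log n := by
  rcases Nat.eq_zero_or_pos m with h0 | h0
  · subst h0
    simp only [Nat.cast_zero, Real.log_zero]
    exact Real.log_natCast_nonneg n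
  · exact Real.log_le_log (by exact_mod_cast h0) (by exact_mod_cast h)

lemma LS_abel_id (z : ℕ → ℂ) (w : ℕ → ℝ) (a n : ℕ) :
    ∑ j ∈ Ico a (a + n), ((w j : ℝ) : ℂ) * z j =
      ((w (a + n) : ℝ) : ℂ) * ∑ j ∈ Ico a (a + n), z j -
        ∑ i ∈ range n, (((w (a + i + 1) - w (a + i) : ℝ)) : ℂ) * ∑ j ∈ Ico a (a + (i + 1)), z j := by
  induction n with
  | zero => simp
  | succ n ih =>
    rw [sum_range_succ, ← add_assoc, sum_Ico_succ_top (by omega), ih, sum_Ico_succ_top (by omega)]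
    push_cast
    ring

lemma LS_abel (z : ℕ → ℂ) (w : ℕ → ℝ) (a b : ℕ) (hab : a ≤ b) (B : ℝ)
    (hw0 : 0 ≤ w a) (hw : ∀ i, a ≤ i → i < b → w i ≤ w (i + 1))
    (hB : ∀ b', a ≤ b' → b' ≤ b → ‖∑ j ∈ Ico a b', z j‖ ≤ B) :
    ‖∑ j ∈ Ico a b, ((w j : ℝ) : ℂ) * z j‖ ≤ 2 * w b * B := by
  obtain ⟨n, rfl⟩ := Nat.exists_eq_add_of_le hab
  have hB0 : 0 ≤ B := (norm_nonneg _).trans (hB a le_rfl hab)
  have hwn : ∀ i ≤ n, w a ≤ w (a + i) := by
    intro i
    induction i with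
    | zero => intro _; exact le_rfl
    | succ i ih =>
      intro hi
      exact (ih (by omega)).trans (hw (a + i) (by omega) (by omega))
  have hwb : 0 ≤ w (a + n) := hw0.trans (hwn n le_rfl)
  rw [LS_abel_id]
  refine (norm_sub_le _ _).trans ?_
  have h1 : ‖((w (a + n) : ℝ) : ℂ) * ∑ j ∈ Ico a (a + n), z j‖ ≤ w (a + n) * B := by
    rw [norm_mul, Complex.norm_real, Real.norm_eq_abs, abs_of_nonneg hwb]
    exact mul_le_mul_of_nonneg_left (hB _ hab le_rfl) hwb
  have h2 : ‖∑ i ∈ range n, (((w (a + i + 1) - w (a + i) : ℝ)) : ℂ) *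
      ∑ j ∈ Ico a (a + (i + 1)), z j‖ ≤ w (a + n) * B := by
    refine (norm_sum_le _ _).trans ?_
    have h3 : ∀ i ∈ range n, ‖(((w (a + i + 1) - w (a + i) : ℝ)) : ℂ) *
        ∑ j ∈ Ico a (a + (i + 1)), z j‖ ≤ (w (a + (i + 1)) - w (a + i)) * B := by
      intro i hi
      have hi' := mem_range.1 hi
      have h4 : 0 ≤ w (a + i + 1) - w (a + i) := sub_nonneg.2 (hw _ (by omega) (by omega))
      rw [norm_mul, Complex.norm_real, Real.norm_eq_abs, abs_of_nonneg h4]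
      exact mul_le_mul_of_nonneg_left (hB _ (by omega) (by omega)) h4
    refine (sum_le_sum h3).trans ?_
    rw [← sum_mul, sum_range_sub (fun i => w (a + i))]
    refine mul_le_mul_of_nonneg_right ?_ hB0
    simp only [add_zero]
    linarith
  linarith

/-- the set of the cofactors is an interval -/
lemma LS_filter (P d : ℕ) (hd : 1 ≤ d) :
    (Icc 1 (4 * P)).filter (fun m => P < d * m ∧ d * m ≤ 4 * P) = Ico (P / d + 1) (4 * P / d + 1) := by
  ext m
  simp only [mem_filter, mem_Icc, mem_Ico]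
  have h1 : P / d + 1 ≤ m ↔ P < d * m := by
    rw [Nat.add_one_le_iff, Nat.div_lt_iff_lt_mul (by omega), mul_comm]
  have h2 : m < 4 * P / d + 1 ↔ d * m ≤ 4 * P := by
    rw [Nat.lt_add_one_iff, Nat.le_div_iff_mul_le (by omega), mul_comm]
  rw [h1, h2]
  constructor
  · rintro ⟨_, h⟩; exact h
  · rintro ⟨h3, h4⟩
    refine ⟨⟨?_, ?_⟩, h3, h4⟩
    · rcases Nat.eq_zero_or_pos m with h0 | h0
      · subst h0; omega
      · exact h0
    · exact (Nat.le_mul_of_pos_left m (by omega)).trans h4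

/-- dyadic decomposition -/
lemma LS_dyadic (f : ℕ → ℂ) (U : ℕ) (B : ℝ) (n : ℕ)
    (h : ∀ i < n, ‖∑ k ∈ Ioc (U * 2 ^ i) (2 * (U * 2 ^ i)), f k‖ ≤ B) :
    ‖∑ k ∈ Ioc U (U * 2 ^ n), f k‖ ≤ n * B := by
  induction n with
  | zero => simp
  | succ n ih =>
    have h1 : U ≤ U * 2 ^ n := Nat.le_mul_of_pos_right U (by positivity)
    have h2 : U * 2 ^ n ≤ U * 2 ^ (n + 1) := Nat.mul_le_mul_left U (Nat.pow_le_pow_right (by norm_num) (by omega))
    rw [← sum_Ioc_consecutive f h1 h2]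
    refine (norm_add_le _ _).trans ?_
    have h3 := ih (fun i hi => h i (by omega))
    have h4 := h n (by omega)
    have h5 : U * 2 ^ (n + 1) = 2 * (U * 2 ^ n) := by ring
    rw [h5]
    push_cast
    linarith

/-- parameters -/
structure LS_Par (A : ℝ) (P U : ℕ) (s t : ℝ) : Prop where
  hs : 1 / 4 ≤ s
  ht : 2 ≤ t
  hP : (P : ℝ) = t ^ 12
  hA : A = s ^ 2 * t ^ 24
  U1 : (U : ℝ) ≤ t ^ 2
  U2 : t ^ 2 / 2 ≤ U
  U4 : 4 ≤ U

lemma LS_sqrt_AP {A : ℝ} {P U : ℕ} {s t : ℝ} (h : LS_Par A P U s t) : √(A / P) = s * t ^ 6 := by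
  have ht := h.ht
  have hs := h.hs
  have h1 : A / P = (s * t ^ 6) ^ 2 := by
    rw [h.hA, h.hP]
    have : t ≠ 0 := by positivity
    field_simp
  rw [h1, Real.sqrt_sq (by positivity)]

/-- one block -/
lemma LS_block {A : ℝ} {P U : ℕ} {s t C₂ : ℝ} (h : LS_Par A P U s t) (hC : 0 < C₂) (K : ℕ)
    (hK : (K : ℝ) ≤ 4 * t ^ 6) (z : ℂ)
    (hz : ‖z‖ ^ 2 ≤ C₂ * ((P : ℝ) ^ 2 / U + P * √(A * U * K / P))) :
    ‖z‖ ≤ √(40 * C₂) * s * t ^ 11 := by
  have ht := h.ht
  have hs := h.hs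
  have ht0 : 0 < t := by linarith
  have hs0 : 0 < s := by linarith
  have hU0 : (0 : ℝ) < U := by have := h.U4; exact_mod_cast (by omega : 0 < U)
  have h1 : (P : ℝ) ^ 2 / U ≤ 2 * t ^ 22 := by
    rw [h.hP, div_le_iff₀ hU0]
    have := mul_le_mul_of_nonneg_left h.U2 (by positivity : 0 ≤ 2 * t ^ 22)
    calc (t ^ 12) ^ 2 = 2 * t ^ 22 * (t ^ 2 / 2) := by ring
      _ ≤ 2 * t ^ 22 * U := this
  have h2 : √(A * U * K / P) ≤ 2 * s * t ^ 10 := by
    rw [Real.sqrt_le_left (by positivity), h.hA, h.hP, div_le_iff₀ (by positivity)]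
    have hUK : (U : ℝ) * K ≤ t ^ 2 * (4 * t ^ 6) :=
      mul_le_mul h.U1 hK (Nat.cast_nonneg _) (by positivity)
    have := mul_le_mul_of_nonneg_left hUK (by positivity : 0 ≤ s ^ 2 * t ^ 24)
    calc s ^ 2 * t ^ 24 * U * K = s ^ 2 * t ^ 24 * (U * K) := by ring
      _ ≤ s ^ 2 * t ^ 24 * (t ^ 2 * (4 * t ^ 6)) := this
      _ = (2 * s * t ^ 10) ^ 2 * t ^ 12 := by ring
  have h3 : (P : ℝ) * √(A * U * K / P) ≤ 2 * s * t ^ 22 := by
    rw [h.hP]
    have := mul_le_mul_of_nonneg_left h2 (by positivity : 0 ≤ t ^ 12)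
    rw [h.hP] at this
    calc t ^ 12 * √(A * U * K / t ^ 12) ≤ t ^ 12 * (2 * s * t ^ 10) := this
      _ = 2 * s * t ^ 22 := by ring
  have h4 : ‖z‖ ^ 2 ≤ (√(40 * C₂) * s * t ^ 11) ^ 2 := by
    have h5 : (√(40 * C₂) * s * t ^ 11) ^ 2 = 40 * C₂ * s ^ 2 * t ^ 22 := by
      rw [mul_pow, mul_pow, Real.sq_sqrt (by positivity)]
      ring
    rw [h5]
    refine hz.trans ?_
    have h6 : (P : ℝ) ^ 2 / U + P * √(A * U * K / P) ≤ 40 * s ^ 2 * t ^ 22 := by
      have h7 : 2 * t ^ 22 + 2 * s * t ^ 22 ≤ 40 * s ^ 2 * t ^ 22 := by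
        have h8 : 2 + 2 * s ≤ 40 * s ^ 2 := by nlinarith
        have := mul_le_mul_of_nonneg_right h8 (by positivity : 0 ≤ t ^ 22)
        linarith
      linarith
    calc C₂ * ((P : ℝ) ^ 2 / U + P * √(A * U * K / P)) ≤ C₂ * (40 * s ^ 2 * t ^ 22) :=
          mul_le_mul_of_nonneg_left h6 hC.le
      _ = 40 * C₂ * s ^ 2 * t ^ 22 := by ring
  exact abs_le_of_sq_le_sq' h4 (by positivity) |>.2

lemma LS_bil {A : ℝ} {P U : ℕ} {s t C₂ : ℝ} (h : LS_Par A P U s t) (hC : 0 < C₂)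
    (hBL : ∀ (K H : ℕ) (α β : ℕ → ℂ), 1 ≤ H → H ≤ K → K ≤ P →
      (∀ k, ‖α k‖ ≤ 1) → (∀ m, ‖β m‖ ≤ 1) →
      ‖∑ k ∈ Ioc K (2 * K), ∑ m ∈ (Icc 1 (4 * P)).filter (fun m => P < k * m ∧ k * m ≤ 4 * P),
        α k * β m * ee (ph A (k * m))‖ ^ 2 ≤
        C₂ * ((P : ℝ) ^ 2 / H + P * √(A * H * K / P)))
    (hl : 2 ≤ Real.log P) (b : ℕ → ℝ) (hb : ∀ m, |b m| ≤ Real.log m) :
    ‖∑ k ∈ Ioc U (4 * P), ∑ m ∈ (Ioc U (4 * P)).filter (fun m => P < k * m ∧ k * m ≤ 4 * P),
      ((ArithmeticFunction.moebius k : ℤ) : ℂ) * ((b m : ℝ) : ℂ) * ee (ph A (k * m))‖ ≤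
      10 * (Real.log P) ^ 2 * (√(40 * C₂) * s * t ^ 11) := by
  have ht := h.ht
  have hs := h.hs
  have ht0 : 0 < t := by linarith
  have hs0 : 0 < s := by linarith
  have hU4 := h.U4
  have ht6 : (64 : ℝ) ≤ t ^ 6 := by
    calc (64 : ℝ) = 2 ^ 6 := by norm_num
      _ ≤ t ^ 6 := pow_le_pow_left₀ (by norm_num) ht 6
  have hPt : (P : ℝ) = t ^ 6 * t ^ 6 := by rw [h.hP]; ring
  have hP0 : (0 : ℝ) < P := by rw [hPt]; positivity
  have hP64 : (64 : ℝ) * t ^ 6 ≤ P := by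
    rw [hPt]
    exact mul_le_mul_of_nonneg_right ht6 (by positivity)
  -- the number of blocks
  have hex : ∃ i : ℕ, t ^ 6 ≤ (U * 2 ^ i : ℕ) := by
    refine ⟨P, ?_⟩
    have h1 : P < 2 ^ P := Nat.lt_two_pow_self
    have h2 : P ≤ U * 2 ^ P := h1.le.trans (Nat.le_mul_of_pos_left _ (by omega))
    have h3 : (P : ℝ) ≤ (U * 2 ^ P : ℕ) := by exact_mod_cast h2
    nlinarith
  classical
  set i0 := Nat.find hex with hi0
  have hi0a : t ^ 6 ≤ (U * 2 ^ i0 : ℕ) := Nat.find_spec hex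
  have hi0b : ∀ i < i0, ((U * 2 ^ i : ℕ) : ℝ) < t ^ 6 := fun i hi => not_le.1 (Nat.find_min hex hi)
  have hi0pos : 0 < i0 := by
    rcases Nat.eq_zero_or_pos i0 with h0 | h0
    · exfalso
      rw [h0] at hi0a
      simp only [pow_zero, mul_one] at hi0a
      have h1 := h.U1
      have h2 : t ^ 2 * 1 < t ^ 2 * t ^ 4 := by
        apply mul_lt_mul_of_pos_left _ (by positivity)
        exact one_lt_pow₀ (by linarith) (by norm_num)
      nlinarith
    · exact h0
  set R := U * 2 ^ i0 with hR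
  have hR2 : (R : ℝ) < 2 * t ^ 6 := by
    have h1 := hi0b (i0 - 1) (by omega)
    have h2 : R = 2 * (U * 2 ^ (i0 - 1)) := by
      rw [hR]
      obtain ⟨j, hj⟩ : ∃ j, i0 = j + 1 := ⟨i0 - 1, by omega⟩
      rw [hj, Nat.add_sub_cancel]
      ring
    rw [h2]
    push_cast at h1 ⊢
    linarith
  have hUR : U ≤ R := Nat.le_mul_of_pos_right U (by positivity)
  have hRP : R ≤ P := by
    have : (R : ℝ) ≤ P := by nlinarith
    exact_mod_cast this
  have hR' : U * 2 ^ (i0 + 2) = 4 * R := by rw [hR]; ring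
  -- logarithms
  set L := Real.log (4 * P : ℕ) with hL
  have hP1 : 1 ≤ P := by
    have : (1 : ℝ) ≤ P := by nlinarith
    exact_mod_cast this
  have hL1 : Real.log P ≤ L := LS_log_mono (by omega)
  have hL0 : 0 < L := by linarith
  have hL2 : L ≤ 2 * Real.log P := by
    have h1 : (4 * P : ℕ) ≤ P ^ 2 := by
      have : 4 ≤ P := by
        have : (4 : ℝ) ≤ P := by nlinarith
        exact_mod_cast this
      nlinarith
    have h2 := LS_log_mono h1
    push_cast at h2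
    rw [Real.log_pow] at h2
    rw [hL]
    push_cast
    push_cast at h2
    exact h2
  have hbL : ∀ m, m ≤ 4 * P → |b m / L| ≤ 1 := by
    intro m hm
    rw [abs_div, abs_of_pos hL0, div_le_one hL0]
    exact (hb m).trans (LS_log_mono hm)
  have hi0l : (i0 : ℝ) ≤ 2 * Real.log P := by
    have h1 : (2 : ℝ) ^ i0 ≤ P := by
      have h2 : (4 : ℝ) * 2 ^ i0 ≤ R := by
        rw [hR]
        push_cast
        have : (4 : ℝ) ≤ U := by exact_mod_cast hU4
        exact mul_le_mul_of_nonneg_right this (by positivity)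
      nlinarith
    have h3 := Real.log_le_log (by positivity) h1
    rw [Real.log_pow] at h3
    have h4 : (1 / 2 : ℝ) ≤ Real.log 2 := by
      have := Real.log_two_gt_d9
      linarith
    nlinarith
  set c := √(40 * C₂) * s * t ^ 11 with hc
  have hc0 : 0 ≤ c := by positivity
  -- first part
  have hA : ‖∑ k ∈ Ioc U R, ∑ m ∈ (Ioc U (4 * P)).filter (fun m => P < k * m ∧ k * m ≤ 4 * P),
      ((ArithmeticFunction.moebius k : ℤ) : ℂ) * ((b m : ℝ) : ℂ) * ee (ph A (k * m))‖ ≤ i0 * (L * c) := by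
    apply LS_dyadic
    intro i hi
    set K := U * 2 ^ i with hK
    have hUK : U ≤ K := Nat.le_mul_of_pos_right U (by positivity)
    have hK1 := hi0b i hi
    have hKP : K ≤ P := by
      have : (K : ℝ) ≤ P := by nlinarith
      exact_mod_cast this
    set α : ℕ → ℂ := fun k => ((ArithmeticFunction.moebius k : ℤ) : ℂ) with hα
    set β : ℕ → ℂ := fun m => if U < m ∧ m ≤ 4 * P then ((b m / L : ℝ) : ℂ) else 0 with hβ
    have hα1 : ∀ k, ‖α k‖ ≤ 1 := by
      intro k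
      rw [hα]
      simp only [Complex.norm_intCast]
      have := ArithmeticFunction.abs_moebius_le_one (n := k)
      exact_mod_cast this
    have hβ1 : ∀ m, ‖β m‖ ≤ 1 := by
      intro m
      simp only [hβ]
      split_ifs with hm
      · rw [Complex.norm_real, Real.norm_eq_abs]
        exact hbL m hm.2
      · simp
    have hz := hBL K U α β (by omega) hUK hKP hα1 hβ1
    have hz' := LS_block h hC K (by linarith) _ hz
    have heq : ∑ k ∈ Ioc K (2 * K), ∑ m ∈ (Ioc U (4 * P)).filter (fun m => P < k * m ∧ k * m ≤ 4 * P),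
        ((ArithmeticFunction.moebius k : ℤ) : ℂ) * ((b m : ℝ) : ℂ) * ee (ph A (k * m)) =
        ((L : ℝ) : ℂ) * ∑ k ∈ Ioc K (2 * K), ∑ m ∈ (Icc 1 (4 * P)).filter
          (fun m => P < k * m ∧ k * m ≤ 4 * P), α k * β m * ee (ph A (k * m)) := by
      rw [mul_sum]
      refine sum_congr rfl fun k _ => ?_
      rw [mul_sum]
      refine sum_subset_zero_on_sdiff ?_ ?_ ?_
      · intro m hm
        simp only [mem_filter, mem_Ioc, mem_Icc] at hm ⊢
        exact ⟨⟨by omega, hm.1.2⟩, hm.2⟩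
      · intro m hm
        simp only [mem_sdiff, mem_filter, mem_Ioc, mem_Icc] at hm
        have : ¬ (U < m ∧ m ≤ 4 * P) := fun h' => hm.2 ⟨h', hm.1.2⟩
        simp only [hβ]
        rw [if_neg this]
        ring
      · intro m hm
        simp only [mem_filter, mem_Ioc] at hm
        simp only [hβ]
        rw [if_pos hm.1]
        have hLc : ((L : ℝ) : ℂ) ≠ 0 := by exact_mod_cast hL0.ne'
        simp only [hα]
        push_cast
        field_simp
    rw [heq, norm_mul, Complex.norm_real, Real.norm_eq_abs, abs_of_pos hL0]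
    exact mul_le_mul_of_nonneg_left hz' hL0.le
  -- second part
  have hB : ‖∑ k ∈ Ioc R (4 * P), ∑ m ∈ (Ioc U (4 * P)).filter (fun m => P < k * m ∧ k * m ≤ 4 * P),
      ((ArithmeticFunction.moebius k : ℤ) : ℂ) * ((b m : ℝ) : ℂ) * ee (ph A (k * m))‖ ≤
      ((i0 + 2 : ℕ) : ℝ) * (L * c) := by
    have hswap : ∑ k ∈ Ioc R (4 * P), ∑ m ∈ (Ioc U (4 * P)).filter (fun m => P < k * m ∧ k * m ≤ 4 * P),
        ((ArithmeticFunction.moebius k : ℤ) : ℂ) * ((b m : ℝ) : ℂ) * ee (ph A (k * m)) =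
        ∑ m ∈ Ioc U (4 * P), ∑ k ∈ (Ioc R (4 * P)).filter (fun k => P < k * m ∧ k * m ≤ 4 * P),
        ((ArithmeticFunction.moebius k : ℤ) : ℂ) * ((b m : ℝ) : ℂ) * ee (ph A (k * m)) := by
      simp only [sum_filter]
      rw [sum_comm]
    have hcut : ∑ m ∈ Ioc U (4 * P), ∑ k ∈ (Ioc R (4 * P)).filter (fun k => P < k * m ∧ k * m ≤ 4 * P),
        ((ArithmeticFunction.moebius k : ℤ) : ℂ) * ((b m : ℝ) : ℂ) * ee (ph A (k * m)) =
        ∑ m ∈ Ioc U (U * 2 ^ (i0 + 2)),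
          ∑ k ∈ (Ioc R (4 * P)).filter (fun k => P < k * m ∧ k * m ≤ 4 * P),
        ((ArithmeticFunction.moebius k : ℤ) : ℂ) * ((b m : ℝ) : ℂ) * ee (ph A (k * m)) := by
      rw [hR', ← sum_Ioc_consecutive _ (by omega : U ≤ 4 * R) (by omega : 4 * R ≤ 4 * P),
        add_eq_left]
      refine sum_eq_zero fun m hm => ?_
      rw [mem_Ioc] at hm
      have : (Ioc R (4 * P)).filter (fun k => P < k * m ∧ k * m ≤ 4 * P) = ∅ := by
        rw [filter_eq_empty_iff]
        intro k hk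
        rw [mem_Ioc] at hk
        rintro ⟨_, hkm⟩
        have h1 : R * (4 * R) < k * m := Nat.mul_lt_mul'' hk.1 hm.1
        have h2 : 4 * P ≤ R * (4 * R) := by
          have h3 : (P : ℝ) ≤ R * R := by
            rw [hPt]
            have h4 : t ^ 6 ≤ (R : ℝ) := hi0a
            exact mul_le_mul h4 h4 (by positivity) (by positivity)
          have h5 : P ≤ R * R := by exact_mod_cast h3
          nlinarith
        omega
      rw [this, sum_empty]
    rw [hswap, hcut]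
    apply LS_dyadic
    intro j hj
    set K := U * 2 ^ j with hK
    have hUK : U ≤ K := Nat.le_mul_of_pos_right U (by positivity)
    have hK2 : K ≤ 2 * R := by
      rw [hK, hR]
      have : 2 ^ j ≤ 2 ^ (i0 + 1) := Nat.pow_le_pow_right (by norm_num) (by omega)
      calc U * 2 ^ j ≤ U * 2 ^ (i0 + 1) := Nat.mul_le_mul_left U this
        _ = 2 * (U * 2 ^ i0) := by ring
    have hK1 : (K : ℝ) ≤ 4 * t ^ 6 := by
      have : (K : ℝ) ≤ 2 * R := by exact_mod_cast hK2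
      linarith
    have hKP : K ≤ P := by
      have : (K : ℝ) ≤ P := by nlinarith
      exact_mod_cast this
    set α : ℕ → ℂ := fun m => if m ≤ 4 * P then ((b m / L : ℝ) : ℂ) else 0 with hα
    set β : ℕ → ℂ := fun k => if R < k then ((ArithmeticFunction.moebius k : ℤ) : ℂ) else 0 with hβ
    have hα1 : ∀ m, ‖α m‖ ≤ 1 := by
      intro m
      simp only [hα]
      split_ifs with hm
      · rw [Complex.norm_real, Real.norm_eq_abs]
        exact hbL m hm
      · simp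
    have hβ1 : ∀ k, ‖β k‖ ≤ 1 := by
      intro k
      simp only [hβ]
      split_ifs
      · rw [Complex.norm_intCast]
        have := ArithmeticFunction.abs_moebius_le_one (n := k)
        exact_mod_cast this
      · simp
    have hz := hBL K U α β (by omega) hUK hKP hα1 hβ1
    have hz' := LS_block h hC K hK1 _ hz
    have heq : ∑ m ∈ Ioc K (2 * K), ∑ k ∈ (Ioc R (4 * P)).filter (fun k => P < k * m ∧ k * m ≤ 4 * P),
        ((ArithmeticFunction.moebius k : ℤ) : ℂ) * ((b m : ℝ) : ℂ) * ee (ph A (k * m)) =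
        ((L : ℝ) : ℂ) * ∑ m ∈ Ioc K (2 * K), ∑ k ∈ (Icc 1 (4 * P)).filter
          (fun k => P < m * k ∧ m * k ≤ 4 * P), α m * β k * ee (ph A (m * k)) := by
      rw [mul_sum]
      refine sum_congr rfl fun m hm => ?_
      rw [mem_Ioc] at hm
      rw [mul_sum]
      refine sum_subset_zero_on_sdiff ?_ ?_ ?_
      · intro k hk
        simp only [mem_filter, mem_Ioc, mem_Icc] at hk ⊢
        rw [mul_comm m k]
        exact ⟨⟨by omega, hk.1.2⟩, hk.2⟩
      · intro k hk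
        simp only [mem_sdiff, mem_filter, mem_Ioc, mem_Icc] at hk
        rw [mul_comm m k] at hk
        have : ¬ (R < k) := fun h' => hk.2 ⟨⟨h', hk.1.1.2⟩, hk.1.2⟩
        simp only [hβ]
        rw [if_neg this]
        ring
      · intro k hk
        simp only [mem_filter, mem_Ioc] at hk
        simp only [hα, hβ]
        rw [if_pos hk.1.1, if_pos (by omega : m ≤ 4 * P), mul_comm m k]
        have hLc : ((L : ℝ) : ℂ) ≠ 0 := by exact_mod_cast hL0.ne'
        push_cast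
        field_simp
    rw [heq, norm_mul, Complex.norm_real, Real.norm_eq_abs, abs_of_pos hL0]
    exact mul_le_mul_of_nonneg_left hz' hL0.le
  rw [← sum_Ioc_consecutive _ hUR (by omega : R ≤ 4 * P)]
  refine (norm_add_le _ _).trans ((add_le_add hA hB).trans ?_)
  push_cast
  have h1 : (i0 : ℝ) * (L * c) + ((i0 : ℝ) + 2) * (L * c) = (2 * i0 + 2) * L * c := by ring
  rw [h1]
  have h2 : (2 * (i0 : ℝ) + 2) * L ≤ 10 * (Real.log P) ^ 2 := by
    have h3 : 2 * (i0 : ℝ) + 2 ≤ 5 * Real.log P := by linarith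
    calc (2 * (i0 : ℝ) + 2) * L ≤ (5 * Real.log P) * (2 * Real.log P) :=
          mul_le_mul h3 hL2 hL0.le (by linarith)
      _ = 10 * (Real.log P) ^ 2 := by ring
  exact mul_le_mul_of_nonneg_right h2 hc0

/-! ### LS -/
theorem lambda_sum : ∃ C : ℝ, 0 < C ∧ ∀ (A : ℝ) (P : ℕ), 4096 ≤ P → (P : ℝ) ^ 2 / 16 ≤ A →
    ‖∑ q ∈ Ioc P (4 * P), ((ArithmeticFunction.vonMangoldt q : ℝ) : ℂ) * ee (ph A q)‖ ≤
      C * (Real.log P) ^ 2 * ((P : ℝ) ^ (11 / 12 : ℝ) * √(A / (P : ℝ) ^ 2)) := by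
  obtain ⟨C₁, hC₁, hT1⟩ := typeI
  obtain ⟨C₂, hC₂, hBL⟩ := bilinear
  refine ⟨5 * C₁ + 10 * √(40 * C₂), by positivity, ?_⟩
  intro A P hP4 hA
  have hP4r : (4096 : ℝ) ≤ P := by exact_mod_cast hP4
  have hP0 : (0 : ℝ) < P := by linarith
  set t : ℝ := (P : ℝ) ^ (1 / 12 : ℝ) with ht
  have ht0 : 0 ≤ t := by positivity
  have ht12 : (P : ℝ) = t ^ 12 := by
    rw [ht, ← Real.rpow_natCast, ← Real.rpow_mul hP0.le]
    norm_num
  have ht11 : (P : ℝ) ^ (11 / 12 : ℝ) = t ^ 11 := by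
    rw [ht, ← Real.rpow_natCast, ← Real.rpow_mul hP0.le]
    norm_num
  have ht2 : 2 ≤ t := by
    by_contra hcon
    have h1 : t ^ 12 < 2 ^ 12 := pow_lt_pow_left₀ (not_le.1 hcon) ht0 (by norm_num)
    rw [← ht12] at h1
    norm_num at h1
    linarith
  set s : ℝ := √(A / (P : ℝ) ^ 2) with hs
  have hsq : s ^ 2 = A / (P : ℝ) ^ 2 := by
    rw [hs, Real.sq_sqrt]
    have : 0 ≤ A := le_trans (by positivity) hA
    positivity
  have hs4 : 1 / 4 ≤ s := by
    rw [hs]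
    apply Real.le_sqrt_of_sq_le
    rw [le_div_iff₀ (by positivity)]
    linarith
  have hA' : A = s ^ 2 * t ^ 24 := by
    rw [hsq, ht12]
    have : t ≠ 0 := by linarith
    field_simp
  set U : ℕ := ⌊t ^ 2⌋₊ with hU
  have ht4 : 4 ≤ t ^ 2 := by nlinarith
  have hpar : LS_Par A P U s t := by
    refine ⟨hs4, ht2, ht12, hA', Nat.floor_le (by positivity), ?_, ?_⟩
    · have h1 := Nat.lt_floor_add_one (t ^ 2)
      rw [← hU] at h1
      linarith
    · rw [hU]
      exact Nat.le_floor (by exact_mod_cast ht4)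
  have hU1 := hpar.U1
  have hU4 := hpar.U4
  have hsqrt := LS_sqrt_AP hpar
  have hl : 2 ≤ Real.log P := by
    have h1 : Real.log (2 ^ 12) ≤ Real.log P := Real.log_le_log (by norm_num) (by norm_num; exact hP4)
    rw [Real.log_pow] at h1
    have := Real.log_two_gt_d9
    push_cast at h1
    linarith
  have hP1 : 1 ≤ P := by omega
  have ht0' : 0 < t := by linarith
  have ht1 : 1 ≤ t := by linarith
  have hUP : U * U ≤ P := by
    have h1 : (U : ℝ) * U ≤ t ^ 2 * t ^ 2 := mul_le_mul hU1 hU1 (by positivity) (by positivity)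
    have h2 : t ^ 4 ≤ t ^ 12 := pow_le_pow_right₀ ht1 (by norm_num)
    have h3 : (U : ℝ) * U ≤ P := by rw [ht12]; nlinarith
    exact_mod_cast h3
  have hUP1 : U ≤ P := le_trans (Nat.le_mul_of_pos_left U (by omega)) hUP
  obtain ⟨c, b, hc, hb, hv⟩ := vaughan U U P (by omega) hUP1
  rw [hv (fun q => ee (ph A q))]
  have hs0 : 0 < s := by linarith
  -- term one
  have hTa : ‖∑ d ∈ Icc 1 U, ((ArithmeticFunction.moebius d : ℤ) : ℂ) *
      ∑ m ∈ (Icc 1 (4 * P)).filter (fun m => P < d * m ∧ d * m ≤ 4 * P),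
        ((Real.log m : ℝ) : ℂ) * ee (ph A (d * m))‖ ≤ U * (4 * Real.log P * (C₁ * (s * t ^ 6))) := by
    refine (norm_sum_le _ _).trans ?_
    have h1 : ∀ d ∈ Icc 1 U, ‖((ArithmeticFunction.moebius d : ℤ) : ℂ) *
        ∑ m ∈ (Icc 1 (4 * P)).filter (fun m => P < d * m ∧ d * m ≤ 4 * P),
          ((Real.log m : ℝ) : ℂ) * ee (ph A (d * m))‖ ≤ 4 * Real.log P * (C₁ * (s * t ^ 6)) := by
      intro d hd
      rw [mem_Icc] at hd
      rw [norm_mul]
      have h2 : ‖((ArithmeticFunction.moebius d : ℤ) : ℂ)‖ ≤ 1 := by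
        rw [Complex.norm_intCast]
        have := ArithmeticFunction.abs_moebius_le_one (n := d)
        exact_mod_cast this
      have h3 : ‖∑ m ∈ (Icc 1 (4 * P)).filter (fun m => P < d * m ∧ d * m ≤ 4 * P),
          ((Real.log m : ℝ) : ℂ) * ee (ph A (d * m))‖ ≤ 4 * Real.log P * (C₁ * (s * t ^ 6)) := by
        rw [LS_filter P d hd.1]
        have hdd : P / d + 1 ≤ 4 * P / d + 1 := by
          have := Nat.div_le_div_right (c := d) (by omega : P ≤ 4 * P)
          omega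
        have h4 := LS_abel (fun m => ee (ph A (d * m))) (fun m => Real.log m) (P / d + 1)
          (4 * P / d + 1) hdd (C₁ * (s * t ^ 6)) (Real.log_natCast_nonneg _)
          (fun i _ _ => LS_log_mono (by omega)) (by
            intro b' _ hb'
            rw [← hsqrt]
            apply hT1 A P d _ _ hA hP1 hd.1 (by omega)
            intro j hj
            have h5 : j ∈ Ico (P / d + 1) (4 * P / d + 1) := by
              rw [mem_Ico] at hj ⊢
              omega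
            rw [← LS_filter P d hd.1, mem_filter] at h5
            exact h5.2)
        refine h4.trans ?_
        have h6 : Real.log ((4 * P / d + 1 : ℕ) : ℝ) ≤ 2 * Real.log P := by
          have h7 : 4 * P / d + 1 ≤ P ^ 2 := by
            have h8 : 4 * P / d ≤ 4 * P := Nat.div_le_self _ _
            nlinarith
          have h9 := LS_log_mono h7
          rw [Nat.cast_pow, Real.log_pow] at h9
          exact_mod_cast h9
        have h10 : 0 ≤ C₁ * (s * t ^ 6) := by positivity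
        have h11 := mul_le_mul_of_nonneg_right h6 h10
        calc 2 * Real.log ((4 * P / d + 1 : ℕ) : ℝ) * (C₁ * (s * t ^ 6))
            = 2 * (Real.log ((4 * P / d + 1 : ℕ) : ℝ) * (C₁ * (s * t ^ 6))) := by ring
          _ ≤ 2 * (2 * Real.log P * (C₁ * (s * t ^ 6))) := by linarith
          _ = 4 * Real.log P * (C₁ * (s * t ^ 6)) := by ring
      calc ‖((ArithmeticFunction.moebius d : ℤ) : ℂ)‖ * _ ≤ 1 * (4 * Real.log P * (C₁ * (s * t ^ 6))) :=
            mul_le_mul h2 h3 (norm_nonneg _) (by norm_num)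
        _ = _ := one_mul _
    refine (sum_le_card_nsmul _ _ _ h1).trans ?_
    rw [nsmul_eq_mul, Nat.card_Icc]
    simp
  -- term two
  have hTb : ‖∑ d ∈ Icc 1 (U * U), ((c d : ℝ) : ℂ) *
      ∑ m ∈ (Icc 1 (4 * P)).filter (fun m => P < d * m ∧ d * m ≤ 4 * P), ee (ph A (d * m))‖ ≤
      ((U * U : ℕ) : ℝ) * (Real.log P * (C₁ * (s * t ^ 6))) := by
    refine (norm_sum_le _ _).trans ?_
    have h1 : ∀ d ∈ Icc 1 (U * U), ‖((c d : ℝ) : ℂ) *
        ∑ m ∈ (Icc 1 (4 * P)).filter (fun m => P < d * m ∧ d * m ≤ 4 * P), ee (ph A (d * m))‖ ≤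
        Real.log P * (C₁ * (s * t ^ 6)) := by
      intro d hd
      rw [mem_Icc] at hd
      rw [norm_mul, Complex.norm_real, Real.norm_eq_abs]
      have hdP : d ≤ P := hd.2.trans hUP
      refine mul_le_mul ((hc d).trans (LS_log_mono hdP)) ?_ (norm_nonneg _) (by linarith)
      rw [LS_filter P d hd.1, ← hsqrt]
      apply hT1 A P d _ _ hA hP1 hd.1 hdP
      intro j hj
      rw [← LS_filter P d hd.1, mem_filter] at hj
      exact hj.2
    refine (sum_le_card_nsmul _ _ _ h1).trans ?_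
    rw [nsmul_eq_mul, Nat.card_Icc]
    simp
  -- term three
  have hTc := LS_bil hpar hC₂ (fun K H α β h1 h2 h3 h4 h5 => hBL A P K H α β hA hP1 h1 h2 h3 h4 h5)
    hl b hb
  refine (norm_add_le _ _).trans ((add_le_add ((norm_sub_le _ _).trans (add_le_add hTa hTb)) hTc).trans ?_)
  rw [ht11]
  set l := Real.log P with hldef
  have e1 : (U : ℝ) * (4 * l * (C₁ * (s * t ^ 6))) ≤ 4 * C₁ * l ^ 2 * (t ^ 11 * s) := by
    have h1 : (U : ℝ) * (l * t ^ 6) ≤ t ^ 2 * (l ^ 2 * t ^ 9) := by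
      refine mul_le_mul hU1 ?_ (by positivity) (by positivity)
      refine mul_le_mul (by nlinarith) (pow_le_pow_right₀ ht1 (by norm_num)) (by positivity) (by positivity)
    calc (U : ℝ) * (4 * l * (C₁ * (s * t ^ 6))) = 4 * C₁ * s * (U * (l * t ^ 6)) := by ring
      _ ≤ 4 * C₁ * s * (t ^ 2 * (l ^ 2 * t ^ 9)) := mul_le_mul_of_nonneg_left h1 (by positivity)
      _ = 4 * C₁ * l ^ 2 * (t ^ 11 * s) := by ring
  have e2 : ((U * U : ℕ) : ℝ) * (l * (C₁ * (s * t ^ 6))) ≤ C₁ * l ^ 2 * (t ^ 11 * s) := by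
    push_cast
    have h1 : (U : ℝ) * U * (l * t ^ 6) ≤ (t ^ 2 * t ^ 2) * (l ^ 2 * t ^ 7) := by
      refine mul_le_mul (mul_le_mul hU1 hU1 (by positivity) (by positivity)) ?_ (by positivity)
        (by positivity)
      refine mul_le_mul (by nlinarith) (pow_le_pow_right₀ ht1 (by norm_num)) (by positivity) (by positivity)
    calc (U : ℝ) * U * (l * (C₁ * (s * t ^ 6))) = C₁ * s * (U * U * (l * t ^ 6)) := by ring
      _ ≤ C₁ * s * ((t ^ 2 * t ^ 2) * (l ^ 2 * t ^ 7)) := mul_le_mul_of_nonneg_left h1 (by positivity)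
      _ = C₁ * l ^ 2 * (t ^ 11 * s) := by ring
  have e3 : 10 * l ^ 2 * (√(40 * C₂) * s * t ^ 11) = 10 * √(40 * C₂) * l ^ 2 * (t ^ 11 * s) := by ring
  rw [e3]
  calc _ ≤ 4 * C₁ * l ^ 2 * (t ^ 11 * s) + C₁ * l ^ 2 * (t ^ 11 * s) +
        10 * √(40 * C₂) * l ^ 2 * (t ^ 11 * s) := by linarith
    _ = (5 * C₁ + 10 * √(40 * C₂)) * l ^ 2 * (t ^ 11 * s) := by ring

end Pool.Agent.Helper98.Bern
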